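import Pool.Agent.H8.SD.Defs

/-!
# SB Open: forms without a common zero `v ≠ 0` at `P` have none near `P`

`f i` are forms of degree `d i` in `v = (v_1, .., v_m)` with coefficients in `A = K[x_1, .., x_n]`; `aeval v (map (eval Q) (f i))` is the value of
`f i` at `(Q, v)`.
PROOF.  `S = MvPolynomial (Fin m) A`, `J` the ideal generated by the `f i`, `mP` the kernel of `eval P : A → K`.
(a) Nullstellensatz (over `L`, for the extended ideal; or Mathlib's version for `K` with zeros in `L`, if it exists: `vanishingIdeal`,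
`zeroLocus`): some power of every `X j` is in the ideal of `K[v]` (if over `L`: `1 = ..`, descend by linear algebra or by taking a `K`-linear
retraction `L → K` on the coefficients) generated by the `map (eval P) (f i)`; so there is `M` such that every monomial `v^β`, `|β| = M`, is
`∑ i, a i * map (eval P) (f i)`, and taking the components of degree `M` one can choose `a i` homogeneous of degree `M - d i` (`0` if `d i > M`).
(b) In `S`: `v^β - ∑ i, map C (a i) * f i` is a form of degree `M` in `v` with coefficients in `mP`.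
(c) Let `N` be the `A`-submodule of `S ⧸ J` generated by the classes of the monomials of degree `M`: finitely generated, `N ≤ mP • N` by (b).
Nakayama (`Submodule.exists_sub_one_mem_and_smul_eq_zero_of_fg_of_le_smul`): `r ∈ A`, `r - 1 ∈ mP`, `r • N = 0`, so `eval P r = 1` and
`C r * v^β ∈ J` for all `|β| = M`.
(d) If `eval Q r ≠ 0` and `v` is a common zero of the `f i` at `Q`, the ring homomorphism `S → L` (evaluation at `(Q, v)`) kills `J`, so
`r(Q) v_j ^ M = 0` and `v_j = 0` for all `j`.
-/

set_option autoImplicit false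

open MvPolynomial

namespace Pool.Agent.H8.SB

private theorem radical_le {K L : Type} [Field K] [Field L] [Algebra K L] [IsAlgClosed L] {m : ℕ}
    (I : Ideal (MvPolynomial (Fin m) K)) (h : ∀ v : Fin m → L, v ≠ 0 → v ∉ zeroLocus L I) :
    ∃ M : ℕ, idealOfVars (Fin m) K ^ M ≤ I := by
  refine Ideal.exists_pow_le_of_le_radical_of_fg ?_ (idealOfVars_fg (Fin m) K)
  rw [← vanishingIdeal_zeroLocus_eq_radical (K := L) I, idealOfVars, Ideal.span_le]
  rintro _ ⟨j, rfl⟩
  rw [SetLike.mem_coe, mem_vanishingIdeal_iff]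
  intro v hv
  by_cases h0 : v = 0
  · rw [h0, aeval_X, Pi.zero_apply]
  · exact absurd hv (h v h0)

private theorem homog_span {A : Type} [CommRing A] {m : ℕ} {ι : Type} (f : ι → MvPolynomial (Fin m) A) (d : ι → ℕ)
    (hd : ∀ i, (f i).IsHomogeneous (d i)) {z : MvPolynomial (Fin m) A} (hz : z ∈ Ideal.span (Set.range f)) (M : ℕ) :
    homogeneousComponent M z ∈ Ideal.span (Set.range f) := by
  let _ := gradedAlgebra (σ := Fin m) (R := A)
  refine homogeneousComponent_mem_of_mem ?_ hz M
  refine Ideal.homogeneous_span _ _ ?_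
  rintro _ ⟨i, rfl⟩
  exact ⟨d i, (mem_homogeneousSubmodule (d i) (f i)).2 (hd i)⟩

theorem exists_open {K L : Type} [Field K] [Field L] [Algebra K L] [IsAlgClosed L] {n m : ℕ} {ι : Type} [Finite ι]
    (f : ι → MvPolynomial (Fin m) (MvPolynomial (Fin n) K)) (d : ι → ℕ) (hd : ∀ i, (f i).IsHomogeneous (d i)) (P : Fin n → K)
    (hP : ∀ v : Fin m → L, v ≠ 0 → ∃ i, aeval v (map (eval P) (f i)) ≠ 0) :
    ∃ r : MvPolynomial (Fin n) K, eval P r ≠ 0 ∧ ∀ Q : Fin n → K, eval Q r ≠ 0 →
      ∀ v : Fin m → L, v ≠ 0 → ∃ i, aeval v (map (eval Q) (f i)) ≠ 0 := by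
  classical
  set φ : MvPolynomial (Fin m) (MvPolynomial (Fin n) K) →+* MvPolynomial (Fin m) K := map (eval P) with hφ
  set J : Ideal (MvPolynomial (Fin m) (MvPolynomial (Fin n) K)) := Ideal.span (Set.range f) with hJ
  set mP : Ideal (MvPolynomial (Fin n) K) := RingHom.ker (eval P : MvPolynomial (Fin n) K →+* K) with hmP
  have hsurj : Function.Surjective φ := map_surjective _ fun c => ⟨C c, eval_C c⟩
  obtain ⟨M, hM⟩ : ∃ M : ℕ, idealOfVars (Fin m) K ^ M ≤ Ideal.map φ J := by
    refine radical_le (L := L) _ fun v hv hz => ?_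
    obtain ⟨i, hi⟩ := hP v hv
    exact hi ((mem_zeroLocus_iff.1 hz) _ (Ideal.mem_map_of_mem φ (Ideal.subset_span ⟨i, rfl⟩)))
  set q : MvPolynomial (Fin m) (MvPolynomial (Fin n) K) →ₗ[MvPolynomial (Fin n) K]
      MvPolynomial (Fin m) (MvPolynomial (Fin n) K) ⧸ J := (Ideal.Quotient.mkₐ (MvPolynomial (Fin n) K) J).toLinearMap
    with hq
  have hq0 : ∀ z, q z = 0 ↔ z ∈ J := fun z => Ideal.Quotient.eq_zero_iff_mem
  set N := Submodule.map q (homogeneousSubmodule (Fin m) (MvPolynomial (Fin n) K) M) with hN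
  have hfg : N.FG := (homogeneousSubmodule_fg (Fin m) (MvPolynomial (Fin n) K) M).map q
  have hle : N ≤ mP • N := by
    rintro _ ⟨p, hp, rfl⟩
    have hp' : p.IsHomogeneous M := (mem_homogeneousSubmodule M p).1 hp
    have h1 : φ p ∈ idealOfVars (Fin m) K ^ M := by
      rw [mem_pow_idealOfVars_iff]
      intro β hβ
      exact ((hp'.map (eval P)).degree_eq_sum_deg_support hβ).le
    obtain ⟨z, hz, hzp⟩ := (Ideal.mem_map_iff_of_surjective φ hsurj).1 (hM h1)
    have h2 : homogeneousComponent M z ∈ J := homog_span f d hd hz M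
    have h3 : q p = q (p - homogeneousComponent M z) := by
      rw [map_sub, (hq0 _).2 h2, sub_zero]
    have h4 : (p - homogeneousComponent M z).IsHomogeneous M := hp'.sub (homogeneousComponent_isHomogeneous M z)
    have h5 : ∀ β, coeff β (p - homogeneousComponent M z) ∈ mP := by
      intro β
      rw [hmP, RingHom.mem_ker, coeff_sub, map_sub, coeff_homogeneousComponent]
      split_ifs with hβ
      · have h6 : coeff β (φ z) = coeff β (φ p) := by rw [hzp]
        rw [hφ, coeff_map, coeff_map] at h6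
        rw [h6, sub_self]
      · rw [hp'.coeff_eq_zero hβ, map_zero, sub_zero]
    rw [h3, (p - homogeneousComponent M z).as_sum, map_sum]
    refine Submodule.sum_mem _ fun β hβ => ?_
    have h7 : monomial β (coeff β (p - homogeneousComponent M z)) =
        coeff β (p - homogeneousComponent M z) • monomial β (1 : MvPolynomial (Fin n) K) := by
      rw [smul_monomial, smul_eq_mul, mul_one]
    rw [h7, map_smul]
    refine Submodule.smul_mem_smul (h5 β) (Submodule.mem_map_of_mem ?_)
    rw [mem_homogeneousSubmodule]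
    exact isHomogeneous_monomial _ (h4.degree_eq_sum_deg_support hβ).symm
  obtain ⟨r, hr, hrN⟩ := Submodule.exists_sub_one_mem_and_smul_eq_zero_of_fg_of_le_smul mP N hfg hle
  have hr1 : eval P r = 1 := by
    rw [hmP, RingHom.mem_ker, map_sub, map_one, sub_eq_zero] at hr
    exact hr
  refine ⟨r, by rw [hr1]; exact one_ne_zero, fun Q hQ v hv => ?_⟩
  by_contra hcon
  push Not at hcon
  obtain ⟨j, hj⟩ : ∃ j, v j ≠ 0 := Function.ne_iff.1 hv
  set Φ : MvPolynomial (Fin m) (MvPolynomial (Fin n) K) →+* L :=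
    ((aeval v : MvPolynomial (Fin m) K →ₐ[K] L) : MvPolynomial (Fin m) K →+* L).comp (map (eval Q)) with hΦ
  have hJle : J ≤ RingHom.ker Φ := by
    rw [hJ, Ideal.span_le]
    rintro _ ⟨i, rfl⟩
    exact hcon i
  have h8 : r • (X j ^ M : MvPolynomial (Fin m) (MvPolynomial (Fin n) K)) ∈ J := by
    rw [← hq0, map_smul]
    refine hrN _ (Submodule.mem_map_of_mem ?_)
    rw [mem_homogeneousSubmodule]
    exact isHomogeneous_X_pow j M
  have h9 : Φ (r • (X j ^ M : MvPolynomial (Fin m) (MvPolynomial (Fin n) K))) = 0 := hJle h8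
  rw [smul_eq_C_mul, map_mul, map_pow, hΦ] at h9
  simp only [RingHom.comp_apply, map_C, map_X, RingHom.coe_coe, aeval_C, aeval_X] at h9
  rcases mul_eq_zero.1 h9 with h10 | h10
  · exact hQ ((map_eq_zero (algebraMap K L)).1 h10)
  · exact hj (eq_zero_of_pow_eq_zero h10)

end Pool.Agent.H8.SB
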