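import Pool.Agent.H8.SD.Defs

/-!
# SB ConicB: a nondegenerate quadratic form in three variables is a conic with a parametrisation over `K`

`K` is closed under square roots (`Sol`).  There is `e1 ≠ 0` with `H e1 e1 = 0` (two independent vectors `b, c`: `c` or `b + t c` is
isotropic).  Choose `z0` with `H e1 z0 ≠ 0`, `z' = z0 / H e1 z0`, `z = z' - (H z' z' / 2) • e1`: `H e1 z = 1`, `H z z = 0`.  The kernel of
`v ↦ (H e1 v, H z v)` has dimension `≥ 1`; let `f ≠ 0` be in it.  `e1, z, f` are independent (apply `H e1`, `H z`), so a basis, and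
`H f f = δ ≠ 0` by nondegeneracy.  `e2 = f`, `e3 = - (δ / 2) • z`.
-/

set_option autoImplicit false

namespace Pool.Agent.H8.SB

open Pool.Agent.H8.SD

private theorem spanThree {K : Type} [Field K] {V : Type} [AddCommGroup V] [Module K V]
    [FiniteDimensional K V] (hV : Module.finrank K V = 3) {e1 e2 e3 : V}
    (h : LinearIndependent K ![e1, e2, e3]) (v : V) : ∃ a b c : K, v = a • e1 + b • e2 + c • e3 := by
  set B := basisOfLinearIndependentOfCardEqFinrank h (by rw [hV]; simp) with hB
  have h1 := B.sum_repr v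
  rw [Fin.sum_univ_three] at h1
  have h2 : ⇑B = ![e1, e2, e3] := coe_basisOfLinearIndependentOfCardEqFinrank h _
  rw [h2] at h1
  exact ⟨_, _, _, h1.symm⟩

private theorem exists_isotropic {K : Type} [Field K] [CharZero K] (hK : Sol K) {V : Type} [AddCommGroup V] [Module K V]
    [FiniteDimensional K V] (hV : Module.finrank K V = 3) (H : V →ₗ[K] V →ₗ[K] K) (hH : ∀ u v, H u v = H v u) :
    ∃ e : V, e ≠ 0 ∧ H e e = 0 := by
  set B := Module.finBasisOfFinrankEq K V hV with hB
  by_cases hc : H (B 1) (B 1) = 0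
  · exact ⟨B 1, B.ne_zero 1, hc⟩
  · obtain ⟨t, ht⟩ := hK (Polynomial.C (H (B 1) (B 1)) * Polynomial.X ^ 2
      + Polynomial.C (2 * H (B 0) (B 1)) * Polynomial.X + Polynomial.C (H (B 0) (B 0)))
      (by rw [Polynomial.natDegree_quadratic hc]; norm_num) (by rw [Polynomial.natDegree_quadratic hc]; norm_num)
    refine ⟨B 0 + t • B 1, ?_, ?_⟩
    · intro h
      have h1 := congrArg (fun v => B.repr v 0) h
      simp at h1
    · simp only [Polynomial.eval_add, Polynomial.eval_mul, Polynomial.eval_C, Polynomial.eval_pow,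
        Polynomial.eval_X] at ht
      simp only [map_add, map_smul, LinearMap.add_apply, LinearMap.smul_apply, smul_eq_mul]
      rw [hH (B 1) (B 0)]
      linear_combination ht

theorem exists_conic_basis {K : Type} [Field K] [CharZero K] (hK : Sol K) {V : Type} [AddCommGroup V] [Module K V]
    [FiniteDimensional K V] (hV : Module.finrank K V = 3) (H : V →ₗ[K] V →ₗ[K] K) (hH : ∀ u v, H u v = H v u)
    (hN : ∀ u, u ≠ 0 → ∃ w, H u w ≠ 0) :
    ∃ e1 e2 e3 : V, LinearIndependent K ![e1, e2, e3] ∧ (∀ v, ∃ a b c : K, v = a • e1 + b • e2 + c • e3) ∧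
      H e1 e1 = 0 ∧ H e1 e2 = 0 ∧ H e2 e2 + 2 * H e1 e3 = 0 ∧ H e2 e3 = 0 ∧ H e3 e3 = 0 := by
  obtain ⟨e, he0, hee⟩ := exists_isotropic hK hV H hH
  obtain ⟨z0, hz0⟩ := hN e he0
  obtain ⟨z', hz'⟩ : ∃ z' : V, H e z' = 1 := by
    refine ⟨(H e z0)⁻¹ • z0, ?_⟩
    rw [map_smul, smul_eq_mul, inv_mul_cancel₀ hz0]
  obtain ⟨z, hez, hzz⟩ : ∃ z : V, H e z = 1 ∧ H z z = 0 := by
    refine ⟨z' - (H z' z' / 2) • e, ?_, ?_⟩
    · rw [map_sub, map_smul, hee, hz', smul_zero, sub_zero]
    · simp only [map_sub, map_smul, LinearMap.sub_apply, LinearMap.smul_apply, smul_eq_mul]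
      rw [hH z' e, hz', hee]
      ring
  have hze : H z e = 1 := by rw [hH, hez]
  obtain ⟨f, hf0, hef, hzf⟩ : ∃ f : V, f ≠ 0 ∧ H e f = 0 ∧ H z f = 0 := by
    have h1 : LinearMap.ker ((H e).prod (H z)) ≠ ⊥ := by
      apply LinearMap.ker_ne_bot_of_finrank_lt
      rw [hV, Module.finrank_prod, Module.finrank_self]
      norm_num
    obtain ⟨f, hf, hf0⟩ := Submodule.exists_mem_ne_zero_of_ne_bot h1
    have hf' : (H e f, H z f) = (0 : K × K) := hf
    exact ⟨f, hf0, congrArg Prod.fst hf', congrArg Prod.snd hf'⟩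
  have hli : LinearIndependent K ![e, z, f] := by
    rw [Fintype.linearIndependent_iff]
    intro g hg
    rw [Fin.sum_univ_three] at hg
    simp only [Matrix.cons_val_zero, Matrix.cons_val_one, Matrix.cons_val_two, Matrix.head_cons,
      Matrix.tail_cons] at hg
    have h1 := congrArg (H e) hg
    simp only [map_add, map_smul, smul_eq_mul, map_zero, hee, hez, hef] at h1
    have h2 := congrArg (H z) hg
    simp only [map_add, map_smul, smul_eq_mul, map_zero, hze, hzz, hzf] at h2
    have hg1 : g 1 = 0 := by linear_combination h1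
    have hg0 : g 0 = 0 := by linear_combination h2
    have hg2 : g 2 = 0 := by
      rw [hg0, hg1, zero_smul, zero_smul, zero_add, zero_add] at hg
      exact (smul_eq_zero.mp hg).resolve_right hf0
    intro i
    fin_cases i
    · exact hg0
    · exact hg1
    · exact hg2
  have hδ : H f f ≠ 0 := by
    intro hff
    obtain ⟨w, hw⟩ := hN f hf0
    obtain ⟨a, b, c, rfl⟩ := spanThree hV hli w
    apply hw
    simp only [map_add, map_smul, smul_eq_mul]
    rw [hH f e, hH f z, hef, hzf, hff]
    ring
  have hli2 : LinearIndependent K ![e, f, -(H f f / 2) • z] := by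
    rw [Fintype.linearIndependent_iff]
    intro g hg
    rw [Fin.sum_univ_three] at hg
    simp only [Matrix.cons_val_zero, Matrix.cons_val_one, Matrix.cons_val_two, Matrix.head_cons,
      Matrix.tail_cons] at hg
    have h1 := congrArg (H e) hg
    simp only [map_add, map_smul, smul_eq_mul, map_zero, hee, hez, hef] at h1
    have h2 := congrArg (H z) hg
    simp only [map_add, map_smul, smul_eq_mul, map_zero, hze, hzz, hzf] at h2
    have hg2 : g 2 = 0 := by
      have h3 : g 2 * H f f = 0 := by linear_combination (-2 : K) * h1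
      exact (mul_eq_zero.mp h3).resolve_right hδ
    have hg0 : g 0 = 0 := by linear_combination h2
    have hg1 : g 1 = 0 := by
      rw [hg0, hg2, zero_smul, zero_smul, zero_add, add_zero] at hg
      exact (smul_eq_zero.mp hg).resolve_right hf0
    intro i
    fin_cases i
    · exact hg0
    · exact hg1
    · exact hg2
  refine ⟨e, f, -(H f f / 2) • z, hli2, spanThree hV hli2, hee, hef, ?_, ?_, ?_⟩
  · rw [map_smul, hez, smul_eq_mul]
    ring
  · rw [map_smul, hH f z, hzf, smul_zero]
  · simp only [map_smul, LinearMap.smul_apply, hzz, smul_zero]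

end Pool.Agent.H8.SB
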