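import Pool.Agent.H8.SB.Cv

/-!
# SB ConicZ: a linear form which vanishes at the zeros of the cubic form on the conic is zero (tangent space of dimension 3)

`T = {v | grd F Q ⬝ᵥ v = 0}` has the basis `e1, e2, e3` over `K`, so `T_L = {v : Fin n → L | d1 F Q v = 0}` has it as a basis over `L` (clear
from `hspan`: `d1` is not zero, or count dimensions; only this is needed: a linear form `λ` on `Fin n → L` which vanishes at the images of
`e1, e2, e3` is a multiple of `d1 F Q`: test on the vectors `F_c e_a - F_a e_c`, `F_c = eval Q (pderiv c F) ≠ 0`, which are in `T`).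
`v = cv y`, `v' = cv' y`: `d2 F Q v v = 0` and `d2 F Q v v' = 0` for all `y` (coefficients).
(a) If `d3 v v v = 0` then `d3 v v v' ≠ 0`: otherwise the linear forms `β = d2 F Q v` and `γ = d3 F Q v v` vanish at `v` and `v'`, which are
independent over `L`; `T_L / (v, v')` has dimension 1, so `b β + c γ = 0` on `T_L` for some `(b, c) ≠ 0`, so `b β + c γ = - a d1 F Q`, against
`SmC` (`v ≠ 0`).  Concretely: `v = e1 + y e2 + y² e3`, `v' = e2 + 2 y e3`, `e3` is a complement: take `b = γ(e3)`, `c = - β(e3)` if not both are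
`0`, otherwise `b = 1, c = 0`.
(b) `p(y) = d3 v v v` is a polynomial in `y` of degree `≤ 6` with coefficients in `L`, `p'(y) = 3 d3 v v v'`.  By (a) `p` has only simple roots
(`p ≠ 0` too).  Its coefficients of `y^6` and `y^5` are `d3 e3 e3 e3` and `3 d3 e3 e3 e2`; they are not both `0`: the argument of (a) with
`v = e3`, `v' = e2` (`d2 e3 e3 = d2 e3 e2 = 0`), complement `e1`.  So `p` has degree `≥ 5` and `L` is algebraically closed: `p` has at least 5
distinct roots in `L`.
(c) `∑ i, l i * cv y i = l·e1 + y l·e2 + y² l·e3` vanishes at these `≥ 5` values, so it is the zero polynomial.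
-/

set_option autoImplicit false

open MvPolynomial Matrix

namespace Pool.Agent.H8.SB

open Pool.Agent.H8.SD

private theorem comm2 {K : Type} [Field K] {n : ℕ} (i j : Fin n) (F : MvPolynomial (Fin n) K) :
    pderiv i (pderiv j F) = pderiv j (pderiv i F) := by
  have h : ⁅pderiv (R := K) i, pderiv (R := K) j⁆ = 0 := by
    refine MvPolynomial.derivation_ext fun k => ?_
    rw [Derivation.commutator_apply]
    have h0 : ∀ a b : Fin n, pderiv (R := K) a (Pi.single (M := fun _ : Fin n => MvPolynomial (Fin n) K) b 1 k) = 0 := by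
      intro a b
      rw [Pi.single_apply]
      split_ifs
      · exact pderiv_one
      · exact map_zero _
    rw [pderiv_X, pderiv_X, h0, h0, sub_zero]
    rfl
  have h2 := congrArg (fun D : Derivation K (MvPolynomial (Fin n) K) (MvPolynomial (Fin n) K) => D F) h
  simp only [Derivation.commutator_apply, Derivation.coe_zero, Pi.zero_apply] at h2
  exact sub_eq_zero.1 h2

/-- (a) in the abstract form -/
private theorem no_tangent {L V : Type} [Field L] [AddCommGroup V] [Module L V] (A : V →ₗ[L] L)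
    (B : V →ₗ[L] V →ₗ[L] L) (T : V →ₗ[L] V →ₗ[L] V →ₗ[L] L) (hA : A ≠ 0)
    (hS : ∀ v : V, v ≠ 0 → A v = 0 → B v v = 0 → T v v v = 0 →
      ∀ a b c : L, (∀ w, a * A w + b * B v w + c * T v v w = 0) → a = 0 ∧ b = 0 ∧ c = 0)
    (v v' u : V) (hv : v ≠ 0) (hAv : A v = 0) (hsp : ∀ w, A w = 0 → ∃ a b c : L, w = a • v + b • v' + c • u)
    (h1 : B v v = 0) (h2 : B v v' = 0) (h3 : T v v v = 0) (h4 : T v v v' = 0) : False := by
  obtain ⟨w0, hw0⟩ : ∃ w0, A w0 ≠ 0 := by
    by_contra hcon
    push Not at hcon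
    exact hA (LinearMap.ext hcon)
  obtain ⟨b, c, hbc, hu⟩ : ∃ b c : L, (b ≠ 0 ∨ c ≠ 0) ∧ b * B v u + c * T v v u = 0 := by
    by_cases h : B v u = 0
    · exact ⟨1, 0, Or.inl one_ne_zero, by rw [h]; ring⟩
    · exact ⟨T v v u, -B v u, Or.inr (neg_ne_zero.2 h), by ring⟩
  have hker : ∀ w, A w = 0 → b * B v w + c * T v v w = 0 := by
    intro w hw
    obtain ⟨x, y, z, rfl⟩ := hsp w hw
    simp only [map_add, map_smul, smul_eq_mul, h1, h2, h3, h4]
    linear_combination z * hu
  have h5 := hS v hv hAv h1 h3 (-((b * B v w0 + c * T v v w0) / A w0)) b c (by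
    intro w
    have h6 := hker (w - (A w / A w0) • w0) (by
      rw [map_sub, map_smul, smul_eq_mul, div_mul_cancel₀ _ hw0, sub_self])
    simp only [map_sub, map_smul, smul_eq_mul] at h6
    have h7 : -((b * B v w0 + c * T v v w0) / A w0) * A w = -((A w / A w0) * (b * B v w0 + c * T v v w0)) := by
      field_simp
    rw [h7]
    linear_combination h6)
  rcases hbc with h | h
  · exact h h5.2.1
  · exact h h5.2.2

private theorem many_roots {L : Type} [Field L] [IsAlgClosed L] (P R : Polynomial L) (hP : 5 ≤ P.natDegree)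
    (hs : ∀ y, P.eval y = 0 → P.derivative.eval y ≠ 0) (hR : R.natDegree ≤ 2)
    (hRz : ∀ y, P.eval y = 0 → R.eval y = 0) : R = 0 := by
  classical
  have hP0 : P ≠ 0 := by
    rintro rfl
    simp at hP
  have hnd : P.roots.Nodup := by
    rw [Multiset.nodup_iff_count_le_one]
    intro y
    rw [Polynomial.count_roots]
    by_contra hcon
    push Not at hcon
    obtain ⟨h1, h2⟩ := (Polynomial.one_lt_rootMultiplicity_iff_isRoot hP0).1 hcon
    exact hs y h1 h2
  have hcard : P.roots.toFinset.card = P.natDegree := by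
    rw [Multiset.toFinset_card_of_nodup hnd, (IsAlgClosed.splits P).natDegree_eq_card_roots]
  refine Polynomial.eq_zero_of_natDegree_lt_card_of_eval_eq_zero' R P.roots.toFinset ?_ (by omega)
  intro y hy
  exact hRz y (Polynomial.isRoot_of_mem_roots (Multiset.mem_toFinset.1 hy))

private theorem coeff56 {L : Type} [Field L] (a0 a1 a2 a3 a4 a5 a6 : L) :
    (Polynomial.C a0 + Polynomial.C a1 * Polynomial.X + Polynomial.C a2 * Polynomial.X ^ 2 + Polynomial.C a3 * Polynomial.X ^ 3 +
      Polynomial.C a4 * Polynomial.X ^ 4 + Polynomial.C a5 * Polynomial.X ^ 5 + Polynomial.C a6 * Polynomial.X ^ 6).coeff 5 = a5 ∧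
    (Polynomial.C a0 + Polynomial.C a1 * Polynomial.X + Polynomial.C a2 * Polynomial.X ^ 2 + Polynomial.C a3 * Polynomial.X ^ 3 +
      Polynomial.C a4 * Polynomial.X ^ 4 + Polynomial.C a5 * Polynomial.X ^ 5 + Polynomial.C a6 * Polynomial.X ^ 6).coeff 6 = a6 := by
  constructor <;> simp [Polynomial.coeff_X, Polynomial.coeff_C, Polynomial.coeff_X_pow]

private theorem coeff012 {L : Type} [Field L] (a0 a1 a2 : L)
    (h : Polynomial.C a0 + Polynomial.C a1 * Polynomial.X + Polynomial.C a2 * Polynomial.X ^ 2 = 0) : a0 = 0 ∧ a1 = 0 ∧ a2 = 0 := by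
  have c0 := congrArg (fun p => Polynomial.coeff p 0) h
  have c1 := congrArg (fun p => Polynomial.coeff p 1) h
  have c2 := congrArg (fun p => Polynomial.coeff p 2) h
  simp [Polynomial.coeff_X, Polynomial.coeff_C, Polynomial.coeff_X_pow] at c0 c1 c2
  exact ⟨c0, c1, c2⟩

private theorem evalD {L : Type} [Field L] (a0 a1 a2 a3 a4 a5 a6 y : L) :
    (Polynomial.C a0 + Polynomial.C a1 * Polynomial.X + Polynomial.C a2 * Polynomial.X ^ 2 + Polynomial.C a3 * Polynomial.X ^ 3 +
      Polynomial.C a4 * Polynomial.X ^ 4 + Polynomial.C a5 * Polynomial.X ^ 5 +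
      Polynomial.C a6 * Polynomial.X ^ 6).derivative.eval y =
    a1 + 2 * a2 * y + 3 * a3 * y ^ 2 + 4 * a4 * y ^ 3 + 5 * a5 * y ^ 4 + 6 * a6 * y ^ 5 := by
  simp only [Polynomial.derivative_add, Polynomial.derivative_C_mul, Polynomial.derivative_C, Polynomial.derivative_X,
    Polynomial.derivative_X_pow, Polynomial.eval_add, Polynomial.eval_mul, Polynomial.eval_C, Polynomial.eval_X,
    Polynomial.eval_pow, Polynomial.eval_zero, Polynomial.eval_one]
  push_cast
  ring

/-- `d1` as a linear map -/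
private noncomputable def lA {K : Type} [Field K] (L : Type) [Field L] [Algebra K L] {n : ℕ} (F : MvPolynomial (Fin n) K)
    (Q : Fin n → K) : (Fin n → L) →ₗ[L] L :=
  ∑ i, algebraMap K L (eval Q (pderiv i F)) • LinearMap.proj i

private theorem lA_apply {K : Type} [Field K] {L : Type} [Field L] [Algebra K L] {n : ℕ} (F : MvPolynomial (Fin n) K)
    (Q : Fin n → K) (v : Fin n → L) : lA L F Q v = d1 F Q v := by
  simp only [lA, d1, LinearMap.sum_apply, LinearMap.smul_apply, LinearMap.proj_apply, smul_eq_mul]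

/-- `d2` as a bilinear map -/
private noncomputable def lB {K : Type} [Field K] (L : Type) [Field L] [Algebra K L] {n : ℕ} (F : MvPolynomial (Fin n) K)
    (Q : Fin n → K) : (Fin n → L) →ₗ[L] (Fin n → L) →ₗ[L] L :=
  ∑ i, ∑ j, (LinearMap.proj (R := L) (φ := fun _ : Fin n => L) i).smulRight
    (algebraMap K L (eval Q (pderiv i (pderiv j F))) • LinearMap.proj (R := L) (φ := fun _ : Fin n => L) j)

private theorem lB_apply {K : Type} [Field K] {L : Type} [Field L] [Algebra K L] {n : ℕ} (F : MvPolynomial (Fin n) K)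
    (Q : Fin n → K) (v w : Fin n → L) : lB L F Q v w = d2 F Q v w := by
  simp only [lB, d2, LinearMap.sum_apply, LinearMap.smulRight_apply, LinearMap.smul_apply, LinearMap.proj_apply, smul_eq_mul]
  refine Finset.sum_congr rfl fun i _ => Finset.sum_congr rfl fun j _ => ?_
  ring

/-- `d3` as a trilinear map -/
private noncomputable def lT {K : Type} [Field K] (L : Type) [Field L] [Algebra K L] {n : ℕ} (F : MvPolynomial (Fin n) K)
    (Q : Fin n → K) : (Fin n → L) →ₗ[L] (Fin n → L) →ₗ[L] (Fin n → L) →ₗ[L] L :=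
  ∑ i, ∑ j, ∑ k, (LinearMap.proj (R := L) (φ := fun _ : Fin n => L) i).smulRight
    ((LinearMap.proj (R := L) (φ := fun _ : Fin n => L) j).smulRight
      (algebraMap K L (eval Q (pderiv i (pderiv j (pderiv k F)))) • LinearMap.proj (R := L) (φ := fun _ : Fin n => L) k))

private theorem lT_apply {K : Type} [Field K] {L : Type} [Field L] [Algebra K L] {n : ℕ} (F : MvPolynomial (Fin n) K)
    (Q : Fin n → K) (u v w : Fin n → L) : lT L F Q u v w = d3 F Q u v w := by
  simp only [lT, d3, LinearMap.sum_apply, LinearMap.smulRight_apply, LinearMap.smul_apply, LinearMap.proj_apply, smul_eq_mul]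
  refine Finset.sum_congr rfl fun i _ => Finset.sum_congr rfl fun j _ => Finset.sum_congr rfl fun k _ => ?_
  ring

private theorem lT12 {K : Type} [Field K] {L : Type} [Field L] [Algebra K L] {n : ℕ} (F : MvPolynomial (Fin n) K)
    (Q : Fin n → K) (u v w : Fin n → L) : lT L F Q u v w = lT L F Q v u w := by
  rw [lT_apply, lT_apply]
  unfold d3
  rw [Finset.sum_comm]
  refine Finset.sum_congr rfl fun i _ => Finset.sum_congr rfl fun j _ => Finset.sum_congr rfl fun k _ => ?_
  rw [comm2 j i]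
  ring

private theorem lT23 {K : Type} [Field K] {L : Type} [Field L] [Algebra K L] {n : ℕ} (F : MvPolynomial (Fin n) K)
    (Q : Fin n → K) (u v w : Fin n → L) : lT L F Q u v w = lT L F Q u w v := by
  rw [lT_apply, lT_apply]
  unfold d3
  refine Finset.sum_congr rfl fun i _ => ?_
  rw [Finset.sum_comm]
  refine Finset.sum_congr rfl fun j _ => Finset.sum_congr rfl fun k _ => ?_
  rw [comm2 k j]
  ring

private theorem lB12 {K : Type} [Field K] {L : Type} [Field L] [Algebra K L] {n : ℕ} (F : MvPolynomial (Fin n) K)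
    (Q : Fin n → K) (v w : Fin n → L) : lB L F Q v w = lB L F Q w v := by
  rw [lB_apply, lB_apply]
  unfold d2
  rw [Finset.sum_comm]
  refine Finset.sum_congr rfl fun i _ => Finset.sum_congr rfl fun j _ => ?_
  rw [comm2 j i]
  ring

/-- the image of a vector over `K` -/
private def im {K : Type} [Field K] (L : Type) [Field L] [Algebra K L] {n : ℕ} (e : Fin n → K) : Fin n → L :=
  fun i => algebraMap K L (e i)

private theorem lB_im {K : Type} [Field K] {L : Type} [Field L] [Algebra K L] {n : ℕ} (F : MvPolynomial (Fin n) K)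
    (Q : Fin n → K) (e f : Fin n → K) : lB L F Q (im L e) (im L f) = algebraMap K L (hes F Q e f) := by
  rw [lB_apply]
  simp only [d2, hes, im, map_sum, map_mul]
  refine Finset.sum_congr rfl fun i _ => Finset.sum_congr rfl fun j _ => ?_
  ring

private theorem lA_im {K : Type} [Field K] {L : Type} [Field L] [Algebra K L] {n : ℕ} (F : MvPolynomial (Fin n) K)
    (Q : Fin n → K) (e : Fin n → K) : lA L F Q (im L e) = algebraMap K L (grd F Q ⬝ᵥ e) := by
  rw [lA_apply]
  simp only [d1, im, grd, dotProduct, map_sum, map_mul]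

private theorem span_L {K L : Type} [Field K] [Field L] [Algebra K L] {n : ℕ} {F : MvPolynomial (Fin n) K}
    {Q : Fin n → K} (hgr : grd F Q ≠ 0) {e1 e2 e3 : Fin n → K}
    (hspan : ∀ v, grd F Q ⬝ᵥ v = 0 ↔ ∃ a b c : K, v = a • e1 + b • e2 + c • e3) (w : Fin n → L) (hw : lA L F Q w = 0) :
    ∃ a b c : L, w = a • im L e1 + b • im L e2 + c • im L e3 := by
  classical
  obtain ⟨k, hk⟩ : ∃ k, grd F Q k ≠ 0 := by
    by_contra hcon
    push Not at hcon
    exact hgr (funext hcon)
  have h1 : ∀ i, ∃ a b c : K, (Pi.single i 1 - (grd F Q i / grd F Q k) • Pi.single k 1 : Fin n → K) = a • e1 + b • e2 + c • e3 := by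
    intro i
    rw [← hspan, dotProduct_sub, dotProduct_smul, dotProduct_single_one, dotProduct_single_one, smul_eq_mul, div_mul_cancel₀ _ hk, sub_self]
  choose a b c h using h1
  refine ⟨∑ i, w i * algebraMap K L (a i), ∑ i, w i * algebraMap K L (b i), ∑ i, w i * algebraMap K L (c i), ?_⟩
  have h2 : ∑ i, w i * algebraMap K L (grd F Q i) = 0 := by
    rw [lA_apply] at hw
    rw [← hw]
    unfold d1 grd
    refine Finset.sum_congr rfl fun i _ => mul_comm _ _
  have hk' : algebraMap K L (grd F Q k) ≠ 0 := by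
    rw [Ne, map_eq_zero]
    exact hk
  funext j
  have h3 : ∀ i, w i * ((Pi.single i 1 : Fin n → L) j - algebraMap K L (grd F Q i) / algebraMap K L (grd F Q k) * (Pi.single k 1 : Fin n → L) j) =
      w i * algebraMap K L (a i) * algebraMap K L (e1 j) + w i * algebraMap K L (b i) * algebraMap K L (e2 j) +
        w i * algebraMap K L (c i) * algebraMap K L (e3 j) := by
    intro i
    have h4 := congrArg (algebraMap K L) (congrFun (h i) j)
    have h5 : ∀ m : Fin n, algebraMap K L ((Pi.single m 1 : Fin n → K) j) = (Pi.single m 1 : Fin n → L) j := by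
      intro m
      rw [Pi.single_apply, Pi.single_apply]
      split_ifs
      · exact map_one _
      · exact map_zero _
    simp only [Pi.sub_apply, Pi.smul_apply, Pi.add_apply, smul_eq_mul, map_sub, map_mul, map_add, map_div₀, h5] at h4
    rw [h4]
    ring
  have h6 := Finset.sum_congr rfl fun i (_ : i ∈ Finset.univ) => h3 i
  rw [Finset.sum_add_distrib, Finset.sum_add_distrib, ← Finset.sum_mul, ← Finset.sum_mul, ← Finset.sum_mul] at h6
  simp only [Pi.add_apply, Pi.smul_apply, smul_eq_mul, im]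
  rw [← h6]
  simp only [mul_sub, Finset.sum_sub_distrib]
  have h7 : ∑ i, w i * (algebraMap K L (grd F Q i) / algebraMap K L (grd F Q k) * (Pi.single k 1 : Fin n → L) j) = 0 := by
    have h8 : ∀ i, w i * (algebraMap K L (grd F Q i) / algebraMap K L (grd F Q k) * (Pi.single k 1 : Fin n → L) j) =
        w i * algebraMap K L (grd F Q i) * ((algebraMap K L (grd F Q k))⁻¹ * (Pi.single k 1 : Fin n → L) j) := by
      intro i
      rw [div_eq_mul_inv]
      ring
    rw [Finset.sum_congr rfl fun i _ => h8 i, ← Finset.sum_mul, h2, zero_mul]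
  rw [h7, sub_zero]
  have h9 : ∀ i, w i * (Pi.single i 1 : Fin n → L) j = if i = j then w i else 0 := by
    intro i
    rw [Pi.single_apply]
    by_cases hij : i = j
    · rw [if_pos hij, if_pos hij.symm, mul_one]
    · rw [if_neg hij, if_neg (Ne.symm hij), mul_zero]
  rw [Finset.sum_congr rfl fun i _ => h9 i, Finset.sum_ite_eq' Finset.univ j, if_pos (Finset.mem_univ _)]

/-- a linear form with the value `1` at `e1` and `0` at `e2`, `e3` -/
private theorem dual_one {K : Type} [Field K] {n : ℕ} {e1 e2 e3 : Fin n → K} (hind : LinearIndependent K ![e1, e2, e3]) :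
    ∃ m : Fin n → K, m ⬝ᵥ e1 = 1 ∧ m ⬝ᵥ e2 = 0 ∧ m ⬝ᵥ e3 = 0 := by
  classical
  have hn : e1 ∉ Submodule.span K {e2, e3} := by
    intro h
    obtain ⟨a, b, hab⟩ := Submodule.mem_span_pair.1 h
    rw [Fintype.linearIndependent_iff] at hind
    have h1 := hind ![-1, a, b] (by
      rw [Fin.sum_univ_three]
      simp only [Matrix.cons_val_zero, Matrix.cons_val_one, Matrix.cons_val_two, Matrix.head_cons, Matrix.tail_cons]
      rw [← hab]
      show (-1 : K) • (a • e2 + b • e3) + a • e2 + b • e3 = 0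
      rw [neg_smul, one_smul]
      abel) 0
    simp at h1
  obtain ⟨f, hf1, hf2⟩ := Submodule.exists_le_ker_of_notMem hn
  have hf : ∀ v : Fin n → K, f v = ∑ i, f (Pi.single i 1) * v i := by
    intro v
    rw [LinearMap.pi_apply_eq_sum_univ f v]
    refine Finset.sum_congr rfl fun i _ => ?_
    have h1 : (fun j => if i = j then (1 : K) else 0) = (Pi.single i 1 : Fin n → K) := by
      funext j
      rw [Pi.single_apply]
      simp only [eq_comm]
    rw [h1, smul_eq_mul, mul_comm]
  have h2 : f e2 = 0 := hf2 (Submodule.subset_span (by simp))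
  have h3 : f e3 = 0 := hf2 (Submodule.subset_span (by simp))
  refine ⟨fun i => (f e1)⁻¹ * f (Pi.single i 1), ?_, ?_, ?_⟩
  · simp only [dotProduct, mul_assoc]
    rw [← Finset.mul_sum, ← hf, inv_mul_cancel₀ hf1]
  · simp only [dotProduct, mul_assoc]
    rw [← Finset.mul_sum, ← hf, h2, mul_zero]
  · simp only [dotProduct, mul_assoc]
    rw [← Finset.mul_sum, ← hf, h3, mul_zero]

theorem conic_zero {K L : Type} [Field K] [CharZero K] [Field L] [Algebra K L] [IsAlgClosed L] {n : ℕ} {F : MvPolynomial (Fin n) K}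
    {Q : Fin n → K} (hS : SmC L F Q) (hgr : grd F Q ≠ 0) {e1 e2 e3 : Fin n → K} (hind : LinearIndependent K ![e1, e2, e3])
    (hspan : ∀ v, grd F Q ⬝ᵥ v = 0 ↔ ∃ a b c : K, v = a • e1 + b • e2 + c • e3)
    (h11 : hes F Q e1 e1 = 0) (h12 : hes F Q e1 e2 = 0) (h22 : hes F Q e2 e2 + 2 * hes F Q e1 e3 = 0) (h23 : hes F Q e2 e3 = 0)
    (h33 : hes F Q e3 e3 = 0) (l : Fin n → K)
    (hl : ∀ y : L, d3 F Q (cv e1 e2 e3 y) (cv e1 e2 e3 y) (cv e1 e2 e3 y) = 0 →
      d3 F Q (cv e1 e2 e3 y) (cv e1 e2 e3 y) (cv' e2 e3 y) ≠ 0 → ∑ i, algebraMap K L (l i) * cv e1 e2 e3 y i = 0) :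
    l ⬝ᵥ e1 = 0 ∧ l ⬝ᵥ e2 = 0 ∧ l ⬝ᵥ e3 = 0 := by
  classical
  have hcz : CharZero L := charZero_of_injective_algebraMap (algebraMap K L).injective
  have cv_eq : ∀ y : L, cv e1 e2 e3 y = im L e1 + y • im L e2 + y ^ 2 • im L e3 := fun y => rfl
  have cv'_eq : ∀ y : L, cv' e2 e3 y = im L e2 + (2 * y) • im L e3 := fun y => rfl
  have hA : lA L F Q ≠ 0 := by
    intro h0
    apply hgr
    funext i
    have h1 := lA_im (L := L) F Q (Pi.single i 1)
    rw [h0, LinearMap.zero_apply, dotProduct_single_one] at h1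
    exact (map_eq_zero _).1 h1.symm
  have hS' : ∀ v : Fin n → L, v ≠ 0 → lA L F Q v = 0 → lB L F Q v v = 0 → lT L F Q v v v = 0 →
      ∀ a b c : L, (∀ w, a * lA L F Q w + b * lB L F Q v w + c * lT L F Q v v w = 0) → a = 0 ∧ b = 0 ∧ c = 0 := by
    intro v hv h1 h2 h3 a b c h4
    refine hS v hv (by rw [← lA_apply]; exact h1) (by rw [← lB_apply]; exact h2) (by rw [← lT_apply]; exact h3) a b c ?_
    intro w
    have := h4 w
    rwa [lA_apply, lB_apply, lT_apply] at this
  have hA1 : lA L F Q (im L e1) = 0 := by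
    rw [lA_im, (hspan e1).2 ⟨1, 0, 0, by simp⟩, map_zero]
  have hA2 : lA L F Q (im L e2) = 0 := by
    rw [lA_im, (hspan e2).2 ⟨0, 1, 0, by simp⟩, map_zero]
  have hA3 : lA L F Q (im L e3) = 0 := by
    rw [lA_im, (hspan e3).2 ⟨0, 0, 1, by simp⟩, map_zero]
  have B11 : lB L F Q (im L e1) (im L e1) = 0 := by rw [lB_im, h11, map_zero]
  have B12 : lB L F Q (im L e1) (im L e2) = 0 := by rw [lB_im, h12, map_zero]
  have B21 : lB L F Q (im L e2) (im L e1) = 0 := by rw [lB12, B12]
  have B23 : lB L F Q (im L e2) (im L e3) = 0 := by rw [lB_im, h23, map_zero]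
  have B32 : lB L F Q (im L e3) (im L e2) = 0 := by rw [lB12, B23]
  have B33 : lB L F Q (im L e3) (im L e3) = 0 := by rw [lB_im, h33, map_zero]
  have B22 : lB L F Q (im L e2) (im L e2) + 2 * lB L F Q (im L e1) (im L e3) = 0 := by
    rw [lB_im, lB_im, ← map_zero (algebraMap K L), ← h22, map_add, map_mul, map_ofNat]
  have B31 : lB L F Q (im L e3) (im L e1) = lB L F Q (im L e1) (im L e3) := lB12 F Q _ _
  obtain ⟨m, m1, m2, m3⟩ := dual_one hind
  have hcv : ∀ y : L, cv e1 e2 e3 y ≠ 0 := by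
    intro y h0
    have h1 : ∑ i, algebraMap K L (m i) * cv e1 e2 e3 y i = 0 := by
      rw [h0]
      simp
    have h2 : ∑ i, algebraMap K L (m i) * cv e1 e2 e3 y i =
        algebraMap K L (m ⬝ᵥ e1) + y * algebraMap K L (m ⬝ᵥ e2) + y ^ 2 * algebraMap K L (m ⬝ᵥ e3) := by
      simp only [dotProduct, map_sum, map_mul, cv, Finset.mul_sum]
      rw [← Finset.sum_add_distrib, ← Finset.sum_add_distrib]
      refine Finset.sum_congr rfl fun i _ => ?_
      ring
    rw [h1, m1, m2, m3, map_one, map_zero] at h2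
    simp at h2
  have he3 : im L e3 ≠ 0 := by
    intro h0
    have h1 : e3 ≠ 0 := hind.ne_zero 2
    apply h1
    funext i
    exact (map_eq_zero (algebraMap K L)).1 (congrFun h0 i)
  -- (a) on the conic
  have key : ∀ y : L, lT L F Q (cv e1 e2 e3 y) (cv e1 e2 e3 y) (cv e1 e2 e3 y) = 0 →
      lT L F Q (cv e1 e2 e3 y) (cv e1 e2 e3 y) (cv' e2 e3 y) ≠ 0 := by
    intro y h1 h2
    refine no_tangent (lA L F Q) (lB L F Q) (lT L F Q) hA hS' (cv e1 e2 e3 y) (cv' e2 e3 y) (im L e3) (hcv y) ?_ ?_ ?_ ?_ h1 h2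
    · rw [cv_eq]
      simp only [map_add, map_smul, hA1, hA2, hA3, smul_zero, add_zero]
    · intro w hw
      obtain ⟨a, b, c, h3⟩ := span_L hgr hspan w hw
      refine ⟨a, b - a * y, c - a * y ^ 2 - 2 * y * (b - a * y), ?_⟩
      rw [h3, cv_eq, cv'_eq]
      funext i
      simp only [Pi.add_apply, Pi.smul_apply, smul_eq_mul]
      ring
    · rw [cv_eq]
      simp only [map_add, map_smul, LinearMap.add_apply, LinearMap.smul_apply, smul_eq_mul, B11, B12, B21, B23, B32, B33, B31]
      linear_combination y ^ 2 * B22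
    · rw [cv_eq, cv'_eq]
      simp only [map_add, map_smul, LinearMap.add_apply, LinearMap.smul_apply, smul_eq_mul, B11, B12, B21, B23, B32, B33, B31]
      linear_combination y * B22
  -- the symmetry of `T`
  set T := lT L F Q with hT
  have s12 : ∀ u v w, T u v w = T v u w := fun u v w => lT12 F Q u v w
  have s23 : ∀ u v w, T u v w = T u w v := fun u v w => lT23 F Q u v w
  set E1 := im L e1 with hE1
  set E2 := im L e2 with hE2
  set E3 := im L e3 with hE3
  have t121 : T E1 E2 E1 = T E1 E1 E2 := s23 _ _ _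
  have t211 : T E2 E1 E1 = T E1 E1 E2 := by rw [s12, s23]
  have t131 : T E1 E3 E1 = T E1 E1 E3 := s23 _ _ _
  have t311 : T E3 E1 E1 = T E1 E1 E3 := by rw [s12, s23]
  have t212 : T E2 E1 E2 = T E1 E2 E2 := s12 _ _ _
  have t221 : T E2 E2 E1 = T E1 E2 E2 := by rw [s23, s12]
  have t132 : T E1 E3 E2 = T E1 E2 E3 := s23 _ _ _
  have t213 : T E2 E1 E3 = T E1 E2 E3 := s12 _ _ _
  have t231 : T E2 E3 E1 = T E1 E2 E3 := by rw [s23, s12]
  have t312 : T E3 E1 E2 = T E1 E2 E3 := by rw [s12, s23]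
  have t321 : T E3 E2 E1 = T E1 E2 E3 := by rw [s23, s12, s23]
  have t313 : T E3 E1 E3 = T E1 E3 E3 := s12 _ _ _
  have t331 : T E3 E3 E1 = T E1 E3 E3 := by rw [s23, s12]
  have t232 : T E2 E3 E2 = T E2 E2 E3 := s23 _ _ _
  have t322 : T E3 E2 E2 = T E2 E2 E3 := by rw [s12, s23]
  have t323 : T E3 E2 E3 = T E2 E3 E3 := s12 _ _ _
  have t332 : T E3 E3 E2 = T E2 E3 E3 := by rw [s23, s12]
  let P : Polynomial L := Polynomial.C (T E1 E1 E1) + Polynomial.C (3 * T E1 E1 E2) * Polynomial.X +
    Polynomial.C (3 * T E1 E1 E3 + 3 * T E1 E2 E2) * Polynomial.X ^ 2 + Polynomial.C (6 * T E1 E2 E3 + T E2 E2 E2) * Polynomial.X ^ 3 +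
    Polynomial.C (3 * T E1 E3 E3 + 3 * T E2 E2 E3) * Polynomial.X ^ 4 + Polynomial.C (3 * T E2 E3 E3) * Polynomial.X ^ 5 +
    Polynomial.C (T E3 E3 E3) * Polynomial.X ^ 6
  have hPe : ∀ y, P.eval y = T (cv e1 e2 e3 y) (cv e1 e2 e3 y) (cv e1 e2 e3 y) := by
    intro y
    rw [cv_eq]
    simp only [P, map_add, map_smul, LinearMap.add_apply, LinearMap.smul_apply, smul_eq_mul, t121, t211, t131, t311, t212, t221, t132,
      t213, t231, t312, t321, t313, t331, t232, t322, t323, t332, Polynomial.eval_add, Polynomial.eval_mul, Polynomial.eval_C,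
      Polynomial.eval_X, Polynomial.eval_pow]
    ring
  have hPd : ∀ y, P.derivative.eval y = 3 * T (cv e1 e2 e3 y) (cv e1 e2 e3 y) (cv' e2 e3 y) := by
    intro y
    rw [cv_eq, cv'_eq]
    rw [evalD]
    simp only [map_add, map_smul, LinearMap.add_apply, LinearMap.smul_apply, smul_eq_mul, t121, t211, t131, t311, t212, t221, t132,
      t213, t231, t312, t321, t313, t331, t232, t322, t323, t332]
    ring
  have h5 : T E3 E3 E3 ≠ 0 ∨ T E2 E3 E3 ≠ 0 := by
    by_contra hcon
    push Not at hcon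
    refine no_tangent (lA L F Q) (lB L F Q) T hA hS' E3 E2 E1 he3 hA3 ?_ B33 B32 hcon.1 (by rw [t332]; exact hcon.2)
    intro w hw
    obtain ⟨a, b, c, h3⟩ := span_L hgr hspan w hw
    refine ⟨c, b, a, ?_⟩
    rw [h3]
    abel
  have hdeg : 5 ≤ P.natDegree := by
    by_cases h6 : T E3 E3 E3 = 0
    · have h7 : T E2 E3 E3 ≠ 0 := by
        rcases h5 with h5 | h5
        · exact absurd h6 h5
        · exact h5
      refine Polynomial.le_natDegree_of_ne_zero ?_
      have h8 : P.coeff 5 = 3 * T E2 E3 E3 := (coeff56 _ _ _ _ _ _ _).1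
      rw [h8]
      exact mul_ne_zero (by norm_num) h7
    · refine le_trans (by norm_num : 5 ≤ 6) (Polynomial.le_natDegree_of_ne_zero ?_)
      have h8 : P.coeff 6 = T E3 E3 E3 := (coeff56 _ _ _ _ _ _ _).2
      rw [h8]
      exact h6
  let R : Polynomial L := Polynomial.C (algebraMap K L (l ⬝ᵥ e1)) + Polynomial.C (algebraMap K L (l ⬝ᵥ e2)) * Polynomial.X +
    Polynomial.C (algebraMap K L (l ⬝ᵥ e3)) * Polynomial.X ^ 2
  have hR0 : R = 0 := by
    refine many_roots P R hdeg ?_ ?_ ?_
    · intro y hy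
      rw [hPe] at hy
      rw [hPd]
      exact mul_ne_zero (by norm_num) (key y hy)
    · simp only [R]
      compute_degree
    · intro y hy
      rw [hPe] at hy
      have h6 := hl y (by rw [← lT_apply]; exact hy) (by rw [← lT_apply]; exact key y hy)
      rw [← h6]
      have h7 : R.eval y = algebraMap K L (l ⬝ᵥ e1) + algebraMap K L (l ⬝ᵥ e2) * y + algebraMap K L (l ⬝ᵥ e3) * y ^ 2 := by
        simp only [R, Polynomial.eval_add, Polynomial.eval_mul, Polynomial.eval_C, Polynomial.eval_X, Polynomial.eval_pow]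
      rw [h7]
      simp only [dotProduct, map_sum, map_mul, cv, Finset.sum_mul]
      rw [← Finset.sum_add_distrib, ← Finset.sum_add_distrib]
      refine Finset.sum_congr rfl fun i _ => ?_
      ring
  obtain ⟨c0, c1, c2⟩ := coeff012 _ _ _ hR0
  exact ⟨(map_eq_zero (algebraMap K L)).1 c0, (map_eq_zero (algebraMap K L)).1 c1, (map_eq_zero (algebraMap K L)).1 c2⟩

end Pool.Agent.H8.SB
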