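import Pool.Agent.H8.SD.MainA

/-!
# SB Cub: the third derivative tensor (project SB, note 5712, MP_90ca13_nt: hypersurfaces of degree at most 7)

`K` has characteristic 0 and roots of polynomials of degree 1..4 (`Sol K`), `L` is an algebraically closed extension.
-/

set_option autoImplicit false

open MvPolynomial Matrix

namespace Pool.Agent.H8.SB

open Pool.Agent.H8.SD

/-- The third derivative of `F` at `Q` in the directions `u, v, w`. -/
noncomputable def cub {K : Type} [Field K] {n : ℕ} (F : MvPolynomial (Fin n) K) (Q u v w : Fin n → K) : K :=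
  ∑ i, ∑ j, ∑ k, u i * v j * w k * eval Q (pderiv i (pderiv j (pderiv k F)))

/-- The first derivative of `F` at `Q` in the direction `v`, `v` over `L`. -/
noncomputable def d1 {K : Type} [Field K] {L : Type} [Field L] [Algebra K L] {n : ℕ} (F : MvPolynomial (Fin n) K) (Q : Fin n → K)
    (v : Fin n → L) : L :=
  ∑ i, algebraMap K L (eval Q (pderiv i F)) * v i

/-- The second derivative of `F` at `Q` in the directions `v, w` over `L`. -/
noncomputable def d2 {K : Type} [Field K] {L : Type} [Field L] [Algebra K L] {n : ℕ} (F : MvPolynomial (Fin n) K) (Q : Fin n → K)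
    (v w : Fin n → L) : L :=
  ∑ i, ∑ j, algebraMap K L (eval Q (pderiv i (pderiv j F))) * (v i * w j)

/-- The third derivative of `F` at `Q` in the directions `u, v, w` over `L`. -/
noncomputable def d3 {K : Type} [Field K] {L : Type} [Field L] [Algebra K L] {n : ℕ} (F : MvPolynomial (Fin n) K) (Q : Fin n → K)
    (u v w : Fin n → L) : L :=
  ∑ i, ∑ j, ∑ k, algebraMap K L (eval Q (pderiv i (pderiv j (pderiv k F)))) * (u i * v j * w k)

/-- The lines with contact of order at least 4 at `Q` form a smooth complete intersection of type `(1, 2, 3)`. -/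
def SmC (L : Type) [Field L] {K : Type} [Field K] [Algebra K L] {n : ℕ} (F : MvPolynomial (Fin n) K) (Q : Fin n → K) : Prop :=
  ∀ v : Fin n → L, v ≠ 0 → d1 F Q v = 0 → d2 F Q v v = 0 → d3 F Q v v v = 0 →
    ∀ a b c : L, (∀ w : Fin n → L, a * d1 F Q w + b * d2 F Q v w + c * d3 F Q v v w = 0) → a = 0 ∧ b = 0 ∧ c = 0

end Pool.Agent.H8.SB
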