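import Mathlib

/-!
# SB CubP: `l ^ 3 + H m = 0` is impossible for a quadratic form of rank at least 3 (note 5836, (O'), `s = 0`); polarisation of a cubic form

`cube_zero`.  (a) If `f, g` are polynomial functions (`H x x` and a linear form) with `H x x * m x = 0` for all `x` in a subspace `W`, then `H x x = 0` on
`W` or `m = 0` on `W`: for `x, y ∈ W` with `H x x ≠ 0`, `m y ≠ 0` the product at `x + t y` is a product of two non-zero polynomials in `t`.
(b) Let `l ≠ 0`.  On `W = ker l`: `H x x * m x = 0`.  If `H x x = 0` on `W`: `H x y = 0` on `W` (polarise), so `H x` is a multiple of `l` for `x ∈ W`,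
and `range H` is spanned by `l` and `H e`, `l e ≠ 0`: dimension `≤ 2`.  If `m = 0` on `W`: `m = μ l`, `l x * (l x ^ 2 + μ H x x) = 0` for all `x`,
so (as in (a)) `l x ^ 2 + μ H x x = 0` for all `x`, `μ ≠ 0`, `H x x = - l x ^ 2 / μ`, `H x y = - l x * l y / μ`: dimension `≤ 1`.  So `l = 0`,
`H x x * m x = 0` for all `x`, `H ≠ 0`, so `m = 0` by (a).

`polar_three`: a symmetric trilinear form which vanishes on the diagonal is zero (characteristic 0):
`6 T u v w = T(u+v+w) - T(u+v) - T(u+w) - T(v+w) + T(u) + T(v) + T(w)`, `T(x) = T x x x`.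
-/

set_option autoImplicit false

namespace Pool.Agent.H8.SB

private lemma cp_two {L : Type} [Field L] [CharZero L] {V : Type} [AddCommGroup V] [Module L V] [FiniteDimensional L V]
    (H : V →ₗ[L] V →ₗ[L] L) (hrk : 3 ≤ Module.finrank L (LinearMap.range H)) (a b : V →ₗ[L] L)
    (h : ∀ v, ∃ c d : L, H v = c • a + d • b) : False := by
  let g : (L × L) →ₗ[L] (V →ₗ[L] L) :=
    (LinearMap.toSpanSingleton L _ a).coprod (LinearMap.toSpanSingleton L _ b)
  have hle : LinearMap.range H ≤ LinearMap.range g := by
    rintro _ ⟨v, rfl⟩
    obtain ⟨c, d, hcd⟩ := h v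
    exact ⟨(c, d), by simp [g, hcd]⟩
  have h1 := Submodule.finrank_mono hle
  have h2 := LinearMap.finrank_range_le g
  have h3 : Module.finrank L (L × L) = 2 := by simp
  omega

private lemma cp_prod {L : Type} [Field L] [CharZero L] {V : Type} [AddCommGroup V] [Module L V]
    (H : V → V → L) (m : V →ₗ[L] L) (W : Submodule L V)
    (hadd : ∀ x y, H (x + y) (x + y) = H x x + 2 * H x y + H y y)
    (hsub : ∀ x y, H (x - y) (x - y) = H x x - 2 * H x y + H y y)
    (h : ∀ x ∈ W, H x x * m x = 0) : (∀ x ∈ W, H x x = 0) ∨ (∀ x ∈ W, m x = 0) := by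
  by_contra hc
  rw [not_or] at hc
  obtain ⟨hc1, hc2⟩ := hc
  push Not at hc1 hc2
  obtain ⟨x, hx, hx0⟩ := hc1
  obtain ⟨y, hy, hy0⟩ := hc2
  have mx : m x = 0 := (mul_eq_zero.1 (h x hx)).resolve_left hx0
  have Hy : H y y = 0 := (mul_eq_zero.1 (h y hy)).resolve_right hy0
  have p1 := h (x + y) (W.add_mem hx hy)
  have p2 := h (x - y) (W.sub_mem hx hy)
  rw [hadd, map_add, mx, zero_add, Hy] at p1
  rw [hsub, map_sub, mx, zero_sub, Hy] at p2
  have q1 : H x x + 2 * H x y + 0 = 0 := (mul_eq_zero.1 p1).resolve_right hy0
  have q2 : H x x - 2 * H x y + 0 = 0 := (mul_eq_zero.1 p2).resolve_right (neg_ne_zero.2 hy0)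
  apply hx0
  have : (2 : L) * H x x = 0 := by linear_combination q1 + q2
  exact (mul_eq_zero.1 this).resolve_left two_ne_zero

theorem cube_zero {L : Type} [Field L] [CharZero L] {V : Type} [AddCommGroup V] [Module L V] [FiniteDimensional L V]
    (H : V →ₗ[L] V →ₗ[L] L) (hH : ∀ u v, H u v = H v u) (hrk : 3 ≤ Module.finrank L (LinearMap.range H))
    (l m : V →ₗ[L] L) (h : ∀ x, l x ^ 3 + H x x * m x = 0) : l = 0 ∧ m = 0 := by
  have hadd : ∀ x y, H (x + y) (x + y) = H x x + 2 * H x y + H y y := by
    intro x y
    simp only [map_add, LinearMap.add_apply, hH y x]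
    ring
  have hsub : ∀ x y, H (x - y) (x - y) = H x x - 2 * H x y + H y y := by
    intro x y
    simp only [map_sub, LinearMap.sub_apply, hH y x]
    ring
  have hl : l = 0 := by
    by_contra hl
    obtain ⟨e, he⟩ : ∃ e, l e ≠ 0 := by
      by_contra hc
      push Not at hc
      exact hl (LinearMap.ext hc)
    have hdec : ∀ v, l (v - (l v / l e) • e) = 0 := by
      intro v
      simp only [map_sub, map_smul, smul_eq_mul]
      field_simp
      ring
    rcases cp_prod (fun x y => H x y) m (LinearMap.ker l) hadd hsub
      (fun x hx => by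
        have := h x
        rw [LinearMap.mem_ker.1 hx] at this
        simpa using this) with h1 | h1
    · have h2 : ∀ x y, l x = 0 → l y = 0 → H x y = 0 := by
        intro x y hx hy
        have a1 := h1 (x + y) (LinearMap.mem_ker.2 (by rw [map_add, hx, hy, add_zero]))
        have a2 := h1 x (LinearMap.mem_ker.2 hx)
        have a3 := h1 y (LinearMap.mem_ker.2 hy)
        rw [hadd, a2, a3] at a1
        have : (2 : L) * H x y = 0 := by linear_combination a1
        exact (mul_eq_zero.1 this).resolve_left two_ne_zero
      refine cp_two H hrk l (H e) fun v => ?_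
      refine ⟨H (v - (l v / l e) • e) e / l e, l v / l e, ?_⟩
      ext w
      have b1 : H (v - (l v / l e) • e) (w - (l w / l e) • e) = 0 := h2 _ _ (hdec v) (hdec w)
      have b2 : H v = H (v - (l v / l e) • e) + (l v / l e) • H e := by
        rw [map_sub, map_smul, sub_add_cancel]
      rw [b2]
      simp only [LinearMap.add_apply, LinearMap.smul_apply, smul_eq_mul]
      congr 1
      rw [map_sub, map_smul, smul_eq_mul, sub_eq_zero] at b1
      rw [b1]
      ring
    · have hm : ∀ v, m v = (m e / l e) * l v := by
        intro v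
        have := h1 (v - (l v / l e) • e) (LinearMap.mem_ker.2 (hdec v))
        rw [map_sub, map_smul, smul_eq_mul, sub_eq_zero] at this
        rw [this]
        ring
      set μ : L := m e / l e with hμ
      rcases cp_prod (fun x y => l x * l y + μ * H x y) l ⊤
        (fun x y => by
          rw [hadd, map_add]
          ring)
        (fun x y => by
          rw [hsub, map_sub]
          ring)
        (fun x _ => by
          have := h x
          rw [hm x] at this
          linear_combination this) with h3 | h3
      · have h4 : ∀ x y, l x * l y + μ * H x y = 0 := by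
          intro x y
          have a1 := h3 (x + y) Submodule.mem_top
          have a2 := h3 x Submodule.mem_top
          have a3 := h3 y Submodule.mem_top
          rw [hadd, map_add] at a1
          have : (2 : L) * (l x * l y + μ * H x y) = 0 := by linear_combination a1 - a2 - a3
          exact (mul_eq_zero.1 this).resolve_left two_ne_zero
        have hμ0 : μ ≠ 0 := by
          intro h0
          have := h4 e e
          rw [h0, zero_mul, add_zero] at this
          exact he (mul_self_eq_zero.1 this)
        refine cp_two H hrk l 0 fun v => ⟨-(l v) / μ, 0, ?_⟩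
        ext w
        simp only [LinearMap.add_apply, LinearMap.smul_apply, smul_eq_mul, LinearMap.zero_apply, mul_zero, add_zero]
        have := h4 v w
        field_simp
        linear_combination this
      · exact he (h3 e Submodule.mem_top)
  refine ⟨hl, ?_⟩
  rcases cp_prod (fun x y => H x y) m ⊤ hadd hsub (fun x _ => by
      have := h x
      rw [hl] at this
      simpa using this) with h1 | h1
  · exfalso
    refine cp_two H hrk 0 0 fun v => ⟨0, 0, ?_⟩
    ext w
    have a1 := h1 (v + w) Submodule.mem_top
    have a2 := h1 v Submodule.mem_top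
    have a3 := h1 w Submodule.mem_top
    rw [hadd, a2, a3] at a1
    have : (2 : L) * H v w = 0 := by linear_combination a1
    simpa using (mul_eq_zero.1 this).resolve_left two_ne_zero
  · exact LinearMap.ext fun x => h1 x Submodule.mem_top

theorem polar_three {L : Type} [Field L] [CharZero L] {V : Type} [AddCommGroup V] [Module L V]
    (T : V → V → V → L) (hadd : ∀ u u' v w, T (u + u') v w = T u v w + T u' v w)
    (h1 : ∀ u v w, T u v w = T v u w) (h2 : ∀ u v w, T u v w = T u w v) (h0 : ∀ x, T x x x = 0) (u v w : V) : T u v w = 0 := by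
  have hadd2 : ∀ u v v' w, T u (v + v') w = T u v w + T u v' w := by
    intro u v v' w
    rw [h1 u (v + v') w, hadd, h1 v u w, h1 v' u w]
  have hadd3 : ∀ u v w w', T u v (w + w') = T u v w + T u v w' := by
    intro u v w w'
    rw [h2 u v (w + w'), hadd2, h2 u w v, h2 u w' v]
  have key : ∀ x y, T x x y + T x y y = 0 := by
    intro x y
    have e := h0 (x + y)
    simp only [hadd, hadd2, hadd3, h0] at e
    have e1 : T x y x = T x x y := h2 x y x
    have e2 : T y x x = T x x y := by rw [h1 y x x, h2 x y x]
    have e3 : T y x y = T x y y := h1 y x y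
    have e4 : T y y x = T x y y := by rw [h2 y y x, h1 y x y]
    rw [e1, e2, e3, e4] at e
    have : (3 : L) * (T x x y + T x y y) = 0 := by linear_combination e
    exact (mul_eq_zero.1 this).resolve_left three_ne_zero
  have key2 : ∀ x y, T x x y = 0 := by
    intro x y
    have a := key x y
    have b := key (x + x) y
    simp only [hadd, hadd2] at b
    have : (2 : L) * T x x y = 0 := by linear_combination b - 2 * a
    exact (mul_eq_zero.1 this).resolve_left two_ne_zero
  have c := key2 (u + v) w
  simp only [hadd, hadd2, key2] at c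
  rw [h1 v u w] at c
  have : (2 : L) * T u v w = 0 := by linear_combination c
  exact (mul_eq_zero.1 this).resolve_left two_ne_zero

end Pool.Agent.H8.SB
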