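import Pool.Agent.H8.SB.Cub

/-!
# SB Cv: the conic `e1 + y e2 + y ^ 2 e3` over `L` (part (B4) of note 5712: four variables, tangent space of dimension 3)
-/

set_option autoImplicit false

open MvPolynomial Matrix

namespace Pool.Agent.H8.SB

/-- the point `e1 + y e2 + y ^ 2 e3` -/
noncomputable def cv {K L : Type} [Field K] [Field L] [Algebra K L] {n : ℕ} (e1 e2 e3 : Fin n → K) (y : L) : Fin n → L :=
  fun i => algebraMap K L (e1 i) + y * algebraMap K L (e2 i) + y ^ 2 * algebraMap K L (e3 i)

/-- its derivative `e2 + 2 y e3` -/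
noncomputable def cv' {K L : Type} [Field K] [Field L] [Algebra K L] {n : ℕ} (e2 e3 : Fin n → K) (y : L) : Fin n → L :=
  fun i => algebraMap K L (e2 i) + 2 * y * algebraMap K L (e3 i)

end Pool.Agent.H8.SB
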