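import Pool.Agent.H8.SD.Defs

/-!
# SB Deg2: dimension 3, degenerate quadratic form

`r ≠ 0` is in the radical of `H`.  `C r r r ≠ 0` (otherwise `hS` for `u = r` with `b = 1, c = 0`).  Let `r, x, x'` be a basis of `V`.  The form
`H` on `⟨x, x'⟩` has an isotropic vector `x1 ≠ 0` (`Sol`, quadratic).  (i) If `H x1 · = 0` on `V`, then the binary cubic `C (s r + x1)^3`
(leading coefficient `C r r r ≠ 0`) has a root `s ∈ K`, `u = s r + x1 ≠ 0` is in the radical: contradiction to `hS` (`b = 1, c = 0`).
(ii) So there is `y` with `H x1 y = 1`, `H y y = 0` (normalise as usual: `y = y' - (H y' y' / 2) • x1`); `r, x1, y` are independent, so a basis.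
(iii) For `x ∈ {x1, y}` let `W = ⟨r, x⟩` (`H = 0` on `W`).  Claim `l r = 0` and `l x = 0`.  The cubic `C (s r + x)^3` in `s` (leading coefficient
`C r r r ≠ 0`) splits over `K`; at each root `u = s r + x` has `H u u = 0`, `C u u u = 0`, so `l u = s l r + l x = 0`.  Two different roots:
`l r = 0`, `l x = 0`.  Otherwise it has a triple root `s0`, so for `u = s0 r + x`: `C u u r = 0` and `C u u u = 0` (the first is `1/3` of the
derivative), so `C u u ·` vanishes on `W`; also `H u ·` vanishes on `W`; `V / W` has dimension 1, so some `(b, c) ≠ 0` has `b H u + c C u u = 0` on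
`V`: contradiction to `hS`.
-/

set_option autoImplicit false

namespace Pool.Agent.H8.SB

open Pool.Agent.H8.SD

private theorem sol_quad {K : Type} [Field K] (hK : Sol K) {a : K} (ha : a ≠ 0) (b c : K) :
    ∃ s, a * s ^ 2 + b * s + c = 0 := by
  have hd := Polynomial.natDegree_quadratic (a := a) (b := b) (c := c) ha
  obtain ⟨s, hs⟩ := hK _ (by rw [hd]; norm_num) (by rw [hd]; norm_num)
  refine ⟨s, ?_⟩
  simpa using hs

private theorem sol_cub {K : Type} [Field K] (hK : Sol K) {a : K} (ha : a ≠ 0) (b c d : K) :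
    ∃ s, a * s ^ 3 + b * s ^ 2 + c * s + d = 0 := by
  have hd := Polynomial.natDegree_cubic (a := a) (b := b) (c := c) (d := d) ha
  obtain ⟨s, hs⟩ := hK _ (by rw [hd]; norm_num) (by rw [hd]; norm_num)
  refine ⟨s, ?_⟩
  simpa using hs

private theorem span3 {K : Type} [Field K] {V : Type} [AddCommGroup V] [Module K V]
    [FiniteDimensional K V] (hV : Module.finrank K V = 3) {p q t : V}
    (h : ∀ a b c : K, a • p + b • q + c • t = 0 → a = 0 ∧ b = 0 ∧ c = 0) (w : V) :
    ∃ a b c : K, w = a • p + b • q + c • t := by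
  have hli : LinearIndependent K ![p, q, t] := by
    rw [Fintype.linearIndependent_iff]
    intro g hg
    rw [Fin.sum_univ_three] at hg
    obtain ⟨h0, h1, h2⟩ := h (g 0) (g 1) (g 2) (by simpa using hg)
    intro i
    fin_cases i
    · exact h0
    · exact h1
    · exact h2
  have hb := (basisOfLinearIndependentOfCardEqFinrank hli (by simp [hV])).sum_repr w
  rw [Fin.sum_univ_three, coe_basisOfLinearIndependentOfCardEqFinrank] at hb
  exact ⟨_, _, _, hb.symm⟩

theorem span_degenerate {K : Type} [Field K] [CharZero K] (hK : Sol K) {V : Type} [AddCommGroup V] [Module K V]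
    [FiniteDimensional K V] (hV : Module.finrank K V = 3) (H : V →ₗ[K] V →ₗ[K] K) (hH : ∀ u v, H u v = H v u)
    (C : V →ₗ[K] V →ₗ[K] V →ₗ[K] K) (hC1 : ∀ u v w, C u v w = C v u w) (hC2 : ∀ u v w, C u v w = C u w v)
    (hS : ∀ u, u ≠ 0 → H u u = 0 → C u u u = 0 → ∀ b c : K, (∀ w, b * H u w + c * C u u w = 0) → b = 0 ∧ c = 0)
    (r : V) (hr : r ≠ 0) (hr' : ∀ w, H r w = 0)
    (l : V →ₗ[K] K) (hl : ∀ u, H u u = 0 → C u u u = 0 → l u = 0) : l = 0 := by
  have hr'' : ∀ w, H w r = 0 := fun w => by rw [hH, hr']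
  have hCr : C r r r ≠ 0 := by
    intro h
    exact one_ne_zero (hS r hr (hr' r) h 1 0 (fun w => by rw [hr' w]; ring)).1
  have hexp : ∀ (s : K) (x : V), C (s • r + x) (s • r + x) (s • r + x) =
      C r r r * s ^ 3 + (3 * C r r x) * s ^ 2 + (3 * C r x x) * s + C x x x := by
    intro s x
    have e1 : C r x r = C r r x := hC2 r x r
    have e2 : C x r r = C r r x := (hC1 x r r).trans e1
    have e3 : C x r x = C r x x := hC1 x r x
    have e4 : C x x r = C r x x := (hC2 x x r).trans e3
    simp only [map_add, map_smul, LinearMap.add_apply, LinearMap.smul_apply, smul_eq_mul, e1, e2,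
      e3, e4]
    ring
  have hexp2 : ∀ (s : K) (x : V), C (s • r + x) (s • r + x) r =
      C r r r * s ^ 2 + 2 * C r r x * s + C r x x := by
    intro s x
    have e1 : C r x r = C r r x := hC2 r x r
    have e2 : C x r r = C r r x := (hC1 x r r).trans e1
    have e3 : C x r x = C r x x := hC1 x r x
    have e4 : C x x r = C r x x := (hC2 x x r).trans e3
    simp only [map_add, map_smul, LinearMap.add_apply, LinearMap.smul_apply, smul_eq_mul, e1, e2,
      e4]
    ring
  have hHu : ∀ (s : K) (x w : V), H (s • r + x) w = H x w := by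
    intro s x w
    simp only [map_add, map_smul, LinearMap.add_apply, LinearMap.smul_apply, hr', smul_zero,
      zero_add]
  have hHuu : ∀ (s : K) (x : V), H (s • r + x) (s • r + x) = H x x := by
    intro s x
    rw [hHu, hH, hHu]
  -- stage (iii)
  have key : ∀ x : V, H x x = 0 → (∀ a b : K, a • r + b • x = 0 → a = 0 ∧ b = 0) →
      l r = 0 ∧ l x = 0 := by
    intro x hx hind
    obtain ⟨s0, hs0⟩ := sol_cub hK hCr (3 * C r r x) (3 * C r x x) (C x x x)
    obtain ⟨s1, hs1⟩ := sol_quad hK hCr (3 * C r r x + C r r r * s0)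
      (3 * C r x x + 3 * C r r x * s0 + C r r r * s0 ^ 2)
    have hl0 : l (s0 • r + x) = 0 := hl _ (by rw [hHuu, hx]) (by rw [hexp, hs0])
    have hs1' : C r r r * s1 ^ 3 + (3 * C r r x) * s1 ^ 2 + (3 * C r x x) * s1 + C x x x = 0 := by
      linear_combination hs0 + (s1 - s0) * hs1
    have hl1 : l (s1 • r + x) = 0 := hl _ (by rw [hHuu, hx]) (by rw [hexp, hs1'])
    rw [map_add, map_smul, smul_eq_mul] at hl0 hl1
    by_cases hne : s0 = s1
    · exfalso
      subst hne
      set u := s0 • r + x with hu
      have hu0 : u ≠ 0 := by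
        intro h
        have h1 := hind s0 1 (by rw [one_smul]; exact h)
        exact one_ne_zero h1.2
      have hCur : C u u r = 0 := by
        rw [hu, hexp2]
        have h3 : (3 : K) ≠ 0 := by norm_num
        apply mul_left_cancel₀ h3
        linear_combination hs1
      have hCuu : C u u u = 0 := by rw [hu, hexp, hs0]
      have hHuu' : H u u = 0 := by rw [hu, hHuu, hx]
      have hCux : C u u x = 0 := by
        have h1 : x = u - s0 • r := by rw [hu]; abel
        rw [h1, map_sub, map_smul, hCur, hCuu, smul_zero, sub_zero]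
      have hHur : H u r = 0 := hr'' u
      have hHux : H u x = 0 := by rw [hu, hHu, hx]
      -- the two functionals are dependent
      by_cases hz : ∀ w, H u w = 0
      · exact one_ne_zero (hS u hu0 hHuu' hCuu 1 0 (fun w => by rw [hz w]; ring)).1
      · push Not at hz
        obtain ⟨w0, hw0⟩ := hz
        have h1 := hS u hu0 hHuu' hCuu (C u u w0) (-(H u w0)) (fun w => by
          obtain ⟨a, b, c, rfl⟩ := span3 hV (p := r) (q := x) (t := w0) (by
            intro a b c habc
            have h2 : H u (a • r + b • x + c • w0) = 0 := by rw [habc, map_zero]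
            rw [map_add, map_add, map_smul, map_smul, map_smul, hHur, hHux] at h2
            simp only [smul_eq_mul, mul_zero, zero_add] at h2
            have hc : c = 0 := (mul_eq_zero.1 h2).resolve_right hw0
            rw [hc, zero_smul, add_zero] at habc
            obtain ⟨ha, hb⟩ := hind a b habc
            exact ⟨ha, hb, hc⟩) w
          simp only [map_add, map_smul, smul_eq_mul, hHur, hHux, hCur, hCux]
          ring)
        exact hw0 (neg_eq_zero.1 h1.2)
    · have h1 : (s0 - s1) * l r = 0 := by linear_combination hl0 - hl1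
      have h2 : l r = 0 := (mul_eq_zero.1 h1).resolve_left (sub_ne_zero.2 hne)
      exact ⟨h2, by rw [h2] at hl0; linear_combination hl0⟩
  -- an isotropic vector outside the radical line
  obtain ⟨x1, hx1, hind1⟩ : ∃ x1 : V, H x1 x1 = 0 ∧
      ∀ a b : K, a • r + b • x1 = 0 → a = 0 ∧ b = 0 := by
    obtain ⟨W, hW⟩ := Submodule.exists_isCompl (K ∙ r)
    have hf := Submodule.finrank_add_eq_of_isCompl hW
    rw [finrank_span_singleton hr, hV] at hf
    have hf2 : Module.finrank K W = 2 := by omega
    let b := Module.finBasisOfFinrankEq K W hf2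
    have hb := b.linearIndependent
    rw [linearIndependent_fin2] at hb
    obtain ⟨hb1, hb2⟩ := hb
    have main : ∀ x : W, x ≠ 0 → H x x = 0 → ∃ x1 : V, H x1 x1 = 0 ∧
        ∀ a b : K, a • r + b • x1 = 0 → a = 0 ∧ b = 0 := by
      intro x hx hxx
      refine ⟨x, hxx, fun a c hac => ?_⟩
      have h1 : c • (x : V) ∈ (K ∙ r) := by
        have h2 : c • (x : V) = (-a) • r := by
          rw [neg_smul]
          exact (neg_eq_of_add_eq_zero_right hac).symm
        rw [h2]
        exact Submodule.smul_mem _ _ (Submodule.mem_span_singleton_self r)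
      have h2 : c • (x : V) ∈ W := W.smul_mem c x.2
      have h3 : c • (x : V) = 0 := Submodule.disjoint_def.1 hW.disjoint _ h1 h2
      have hx' : (x : V) ≠ 0 := fun h => hx (Subtype.ext h)
      have hc : c = 0 := (smul_eq_zero.1 h3).resolve_right hx'
      rw [hc, zero_smul, add_zero] at hac
      exact ⟨(smul_eq_zero.1 hac).resolve_right hr, hc⟩
    by_cases h1 : H (b 1 : V) (b 1 : V) = 0
    · exact main (b 1) hb1 h1
    · obtain ⟨s, hs⟩ := sol_quad hK h1 (2 * H (b 0 : V) (b 1 : V)) (H (b 0 : V) (b 0 : V))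
      refine main (b 0 + s • b 1) ?_ ?_
      · intro h
        apply hb2 (-s)
        rw [neg_smul]
        exact (eq_neg_of_add_eq_zero_left h).symm
      · have e : H (b 1 : V) (b 0 : V) = H (b 0 : V) (b 1 : V) := hH _ _
        simp only [Submodule.coe_add, Submodule.coe_smul, map_add, map_smul, LinearMap.add_apply,
          LinearMap.smul_apply, smul_eq_mul, e]
        linear_combination hs
  -- stage (i)
  obtain ⟨y', hy'⟩ : ∃ y', H x1 y' ≠ 0 := by
    by_contra hcon
    push Not at hcon
    obtain ⟨s, hs⟩ := sol_cub hK hCr (3 * C r r x1) (3 * C r x1 x1) (C x1 x1 x1)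
    have hu0 : s • r + x1 ≠ 0 := by
      intro h
      have h1 := hind1 s 1 (by rw [one_smul]; exact h)
      exact one_ne_zero h1.2
    exact one_ne_zero (hS (s • r + x1) hu0 (by rw [hHuu, hx1]) (by rw [hexp, hs]) 1 0
      (fun w => by rw [hHu, hcon w]; ring)).1
  -- stage (ii)
  obtain ⟨y, hxy, hyy⟩ : ∃ y, H x1 y = 1 ∧ H y y = 0 := by
    have e1 : H x1 ((H x1 y')⁻¹ • y') = 1 := by
      rw [map_smul, smul_eq_mul, inv_mul_cancel₀ hy']
    generalize (H x1 y')⁻¹ • y' = z at e1
    have e2 : H z x1 = 1 := by rw [hH, e1]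
    refine ⟨z - (H z z / 2) • x1, ?_, ?_⟩
    · rw [map_sub, map_smul, hx1, e1, smul_zero, sub_zero]
    · simp only [map_sub, map_smul, LinearMap.sub_apply, LinearMap.smul_apply, smul_eq_mul, hx1,
        e1, e2]
      ring
  have hindy : ∀ a b : K, a • r + b • y = 0 → a = 0 ∧ b = 0 := by
    intro a b hab
    have h1 : H x1 (a • r + b • y) = 0 := by rw [hab, map_zero]
    rw [map_add, map_smul, map_smul, hr'', hxy] at h1
    simp only [smul_eq_mul, mul_zero, zero_add, mul_one] at h1
    rw [h1, zero_smul, add_zero] at hab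
    exact ⟨(smul_eq_zero.1 hab).resolve_right hr, h1⟩
  obtain ⟨hlr, hlx⟩ := key x1 hx1 hind1
  obtain ⟨-, hly⟩ := key y hyy hindy
  apply LinearMap.ext
  intro w
  obtain ⟨a, b, c, rfl⟩ := span3 hV (p := r) (q := x1) (t := y) (by
    intro a b c habc
    have h1 : H x1 (a • r + b • x1 + c • y) = 0 := by rw [habc, map_zero]
    rw [map_add, map_add, map_smul, map_smul, map_smul, hr'', hx1, hxy] at h1
    simp only [smul_eq_mul, mul_zero, zero_add, mul_one] at h1
    rw [h1, zero_smul, add_zero] at habc
    obtain ⟨ha, hb⟩ := hind1 a b habc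
    exact ⟨ha, hb, h1⟩) w
  rw [map_add, map_add, map_smul, map_smul, map_smul, hlr, hlx, hly]
  simp

end Pool.Agent.H8.SB
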