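import Mathlib

/-!
# SB Hyp: a hyperplane through a point which contains none of finitely many planes
-/

set_option autoImplicit false

namespace Pool.Agent.H8.SB

theorem exists_hyperplane {L V : Type} [Field L] [Infinite L] [AddCommGroup V] [Module L V] [FiniteDimensional L V] {d : ℕ}
    (hd : 1 ≤ d) (hV : Module.finrank L V = d + 1) {S : Set (Submodule L V)} (hS : S.Finite) {p : V}
    (h2 : ∀ W ∈ S, Module.finrank L W = 2) :
    ∃ U : Submodule L V, Module.finrank L U = d ∧ p ∈ U ∧ ∀ W ∈ S, ¬ W ≤ U := by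
  classical
  have hspan : Module.finrank L (Submodule.span L {p}) ≤ 1 := by
    refine (finrank_span_le_card ({p} : Set V)).trans ?_
    simp
  have hw : ∀ W ∈ S, ∃ w ∈ W, w ∉ Submodule.span L {p} := by
    intro W hW
    by_contra hcon
    push Not at hcon
    have h3 : W ≤ Submodule.span L {p} := hcon
    have h4 := Submodule.finrank_mono h3
    rw [h2 W hW] at h4
    omega
  choose! w hw1 hw2 using hw
  obtain ⟨x0, hx0⟩ : ∃ x0 : V, x0 ∉ Submodule.span L {p} := by
    by_contra hcon
    push Not at hcon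
    have h3 : (⊤ : Submodule L V) ≤ Submodule.span L {p} := fun x _ => hcon x
    have h4 := Submodule.finrank_mono h3
    rw [finrank_top, hV] at h4
    omega
  let q : Submodule L V := Submodule.span L {p}
  let ev : V → Submodule L (Module.Dual L (V ⧸ q)) := fun x => LinearMap.ker (Module.Dual.eval L (V ⧸ q) (q.mkQ x))
  let T : Finset (Submodule L (Module.Dual L (V ⧸ q))) := insert (ev x0) (hS.toFinset.image fun W => ev (w W))
  have hev : ∀ x, x ∉ q → ev x ≠ ⊤ := by
    intro x hx htop
    have h5 : q.mkQ x = 0 := by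
      refine (Module.forall_dual_apply_eq_zero_iff L (q.mkQ x)).1 fun φ => ?_
      have h6 : φ ∈ ev x := by rw [htop]; trivial
      exact LinearMap.mem_ker.1 h6
    rw [Submodule.mkQ_apply, Submodule.Quotient.mk_eq_zero] at h5
    exact hx h5
  have hT : ⊤ ∉ T := by
    intro h
    rw [Finset.mem_insert, Finset.mem_image] at h
    rcases h with h | ⟨W, hW, h⟩
    · exact hev x0 hx0 h.symm
    · exact hev (w W) (hw2 W (hS.mem_toFinset.1 hW)) h
  have hne := Subspace.biUnion_ne_univ_of_top_notMem hT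
  obtain ⟨φ, hφ⟩ := (Set.ne_univ_iff_exists_notMem _).1 hne
  have hφ' : ∀ A ∈ T, φ ∉ A := by
    intro A hA hA2
    exact hφ (Set.mem_iUnion₂.2 ⟨A, hA, hA2⟩)
  refine ⟨LinearMap.ker (φ.comp q.mkQ), ?_, ?_, ?_⟩
  · have h7 : LinearMap.range (φ.comp q.mkQ) = ⊤ := by
      have h8 : φ (q.mkQ x0) ≠ 0 := by
        intro h
        exact hφ' (ev x0) (Finset.mem_insert_self _ _) (LinearMap.mem_ker.2 h)
      refine LinearMap.range_eq_top.2 fun y => ⟨(y / φ (q.mkQ x0)) • x0, ?_⟩
      rw [LinearMap.comp_apply, map_smul, map_smul, smul_eq_mul]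
      exact div_mul_cancel₀ _ h8
    have h9 := LinearMap.finrank_range_add_finrank_ker (φ.comp q.mkQ)
    rw [h7, finrank_top, Module.finrank_self, hV] at h9
    omega
  · rw [LinearMap.mem_ker, LinearMap.comp_apply]
    have : q.mkQ p = 0 := by
      rw [Submodule.mkQ_apply, Submodule.Quotient.mk_eq_zero]
      exact Submodule.mem_span_singleton_self p
    rw [this, map_zero]
  · intro W hW hWU
    have h10 := hWU (hw1 W hW)
    rw [LinearMap.mem_ker, LinearMap.comp_apply] at h10
    exact hφ' (ev (w W)) (Finset.mem_insert_of_mem (Finset.mem_image.2 ⟨W, hS.mem_toFinset.2 hW, rfl⟩)) (LinearMap.mem_ker.2 h10)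

end Pool.Agent.H8.SB
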