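import Pool.Agent.H8.SB.Cub

/-!
# SB Loc3: a branch of zeros through `Q` with an asymptotic tangent direction `u` (degree at most 7)

Same pattern as `SD/LocA.lean` (helper46), one order higher.  Put `v(y) = u + y w + κ y ^ 2 z`, `κ = - hes F Q w w / 2`, over `K[y]`.
`grd F Q · v(y) = 0` and `hes F Q v(y) v(y) = 0` identically in `y`: the coefficients are `hes u u = 0`, `2 hes u w = 0`,
`hes w w + 2 κ hes u z = 0`, `2 κ hes w z = 0`, `κ ^ 2 hes z z = 0`.
In `MvPolynomial (Fin 2) K` (`t = X 0`, `y = X 1`) let `s i = C (Q i) + X 0 * (C (u i) + C (w i) * X 1 + C (κ * z i) * X 1 ^ 2)`,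
`f = aeval s F`.  `f`, `∂_0 f`, `∂_0 ∂_0 f` vanish at `t = 0` (as polynomials in `y`), so `f = X 0 ^ 3 * e`; `degreeOf 0 f ≤ 7`, so
`degreeOf 0 e ≤ 4`.  `∂_0 ∂_0 ∂_0 f` at `t = 0` is `6 e(0, y) = cub F Q v(y) v(y) v(y)`, so `e(0,0) = 0` and
`(∂_1 e)(0,0) = cub F Q u u w / 2 ≠ 0`.  The rest is as in `SD/LocA.lean`: the irreducible factor `φ` of `e` with `φ(0,0) = 0` has
`(∂_1 φ)(0,0) ≠ 0`; if `degreeOf 0 φ ≠ 0` then `φ ∣ k = aeval s (g * h)` by `dens`, and `k(0,y) = 0` gives `(∂_0 k)(0,0) = 0`;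
if `degreeOf 0 φ = 0` then `φ(t,0) = 0` for all `t`, `F (Q + t u) = 0` for all `t`, same conclusion.
`(∂_0 k)(0,0) = h(Q) * (grd g Q ⬝ᵥ u)`.
-/

set_option autoImplicit false

open MvPolynomial Matrix

namespace Pool.Agent.H8.SB

open Pool.Agent.H8.SD

section
variable {K : Type} [Field K]

/-- The chain rule. -/
private theorem chain3 {n m : ℕ} (s : Fin n → MvPolynomial (Fin m) K) (j : Fin m) (G : MvPolynomial (Fin n) K) :
    pderiv j (aeval s G) = ∑ i, aeval s (pderiv i G) * pderiv j (s i) := by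
  induction G using MvPolynomial.induction_on with
  | C a =>
    have h : aeval s (C a : MvPolynomial (Fin n) K) = (C a : MvPolynomial (Fin m) K) := by simp
    rw [h, pderiv_C]
    simp
  | add p q hp hq =>
    rw [map_add, map_add, hp, hq, ← Finset.sum_add_distrib]
    refine Finset.sum_congr rfl fun i _ => ?_
    rw [map_add, map_add, add_mul]
  | mul_X p k hp =>
    rw [map_mul, pderiv_mul, hp, aeval_X]
    have h : ∀ i : Fin n, aeval s (pderiv i (p * X k)) * pderiv j (s i) =
        aeval s (pderiv i p) * pderiv j (s i) * s k + (if i = k then aeval s p * pderiv j (s i) else 0) := by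
      intro i
      rw [pderiv_mul, map_add, map_mul, map_mul, aeval_X]
      by_cases hik : i = k
      · subst hik
        rw [pderiv_X_self, map_one, if_pos rfl]
        ring
      · rw [pderiv_X_of_ne (Ne.symm hik), map_zero, if_neg hik]
        ring
    rw [Finset.sum_congr rfl fun i _ => h i, Finset.sum_add_distrib, Finset.sum_mul, Finset.sum_ite_eq' Finset.univ k,
      if_pos (Finset.mem_univ _)]

/-- The second derivatives commute. -/
private theorem comm3 {n : ℕ} (i j : Fin n) (F : MvPolynomial (Fin n) K) : pderiv i (pderiv j F) = pderiv j (pderiv i F) := by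
  have h : ⁅pderiv (R := K) i, pderiv (R := K) j⁆ = 0 := by
    refine MvPolynomial.derivation_ext fun k => ?_
    rw [Derivation.commutator_apply]
    have h0 : ∀ a b : Fin n, pderiv (R := K) a (Pi.single (M := fun _ : Fin n => MvPolynomial (Fin n) K) b 1 k) = 0 := by
      intro a b
      rw [Pi.single_apply]
      split_ifs
      · exact pderiv_one
      · exact map_zero _
    rw [pderiv_X, pderiv_X, h0, h0, sub_zero]
    rfl
  have h2 := congrArg (fun D : Derivation K (MvPolynomial (Fin n) K) (MvPolynomial (Fin n) K) => D F) h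
  simp only [Derivation.commutator_apply, Derivation.coe_zero, Pi.zero_apply] at h2
  exact sub_eq_zero.1 h2

/-- A polynomial which vanishes at `X 0 = 0` is divisible by `X 0`. -/
private theorem X_dvd3 [CharZero K] {m : ℕ} {p : MvPolynomial (Fin (m + 1)) K}
    (hp : ∀ y : Fin m → K, eval (Fin.cons 0 y : Fin (m + 1) → K) p = 0) : X 0 ∣ p := by
  have h : Polynomial.X ∣ finSuccEquiv K m p := by
    rw [Polynomial.X_dvd_iff]
    refine MvPolynomial.funext fun y => ?_
    have h1 := hp y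
    rw [eval_eq_eval_mv_eval', ← Polynomial.coeff_zero_eq_eval_zero, Polynomial.coeff_map] at h1
    rw [h1, map_zero]
  rw [← finSuccEquiv_X_zero] at h
  exact (map_dvd_iff (finSuccEquiv K m)).1 h

private theorem deg3 {n m : ℕ} (s : Fin n → MvPolynomial (Fin m) K) (j : Fin m) (hs : ∀ i, degreeOf j (s i) ≤ 1)
    (F : MvPolynomial (Fin n) K) : degreeOf j (aeval s F) ≤ F.totalDegree := by
  rw [aeval_def, eval₂_eq]
  refine (degreeOf_sum_le _ _ _).trans (Finset.sup_le fun d hd => ?_)
  refine (degreeOf_mul_le _ _ _).trans ?_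
  rw [algebraMap_eq, degreeOf_C, zero_add]
  refine (degreeOf_prod_le _ _ _).trans ?_
  refine le_trans ?_ (le_totalDegree hd)
  rw [Finsupp.sum]
  refine Finset.sum_le_sum fun i _ => ?_
  exact (degreeOf_pow_le _ _ _).trans ((Nat.mul_le_mul_left _ (hs i)).trans_eq (mul_one _))

private theorem deg_mul3 {m : ℕ} {p q : MvPolynomial (Fin (m + 1)) K} (hp : p ≠ 0) (hq : q ≠ 0) :
    degreeOf 0 (p * q) = degreeOf 0 p + degreeOf 0 q := by
  rw [← natDegree_finSuccEquiv, ← natDegree_finSuccEquiv, ← natDegree_finSuccEquiv, map_mul]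
  refine Polynomial.natDegree_mul ?_ ?_
  · exact fun h => hp ((map_eq_zero_iff _ (finSuccEquiv K m).injective).1 h)
  · exact fun h => hq ((map_eq_zero_iff _ (finSuccEquiv K m).injective).1 h)

/-- `v(y) = u + y w + y ^ 2 c`. -/
private noncomputable def pv {n : ℕ} (u w c : Fin n → K) (i : Fin n) : MvPolynomial (Fin 2) K :=
  C (u i) + C (w i) * X 1 + C (c i) * X 1 ^ 2

/-- The substitution `x = Q + t v(y)`, `t = X 0`, `y = X 1`. -/
private noncomputable def sb {n : ℕ} (Q u w c : Fin n → K) (i : Fin n) : MvPolynomial (Fin 2) K :=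
  C (Q i) + X 0 * pv u w c i

private theorem pv_d0 {n : ℕ} (u w c : Fin n → K) (i : Fin n) : pderiv 0 (pv u w c i) = 0 := by
  unfold pv
  rw [map_add, map_add, pderiv_C, pderiv_C_mul, pderiv_C_mul, pderiv_pow, pderiv_X_of_ne (by decide)]
  ring

private theorem pv_d1 {n : ℕ} (u w c : Fin n → K) (i : Fin n) : pderiv 1 (pv u w c i) = C (w i) + C (2 * c i) * X 1 := by
  unfold pv
  rw [map_add, map_add, pderiv_C, pderiv_C_mul, pderiv_C_mul, pderiv_pow, pderiv_X_self, C_mul]
  have h2 : (C 2 : MvPolynomial (Fin 2) K) = 2 := map_ofNat C 2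
  rw [h2]
  norm_num
  ring

private theorem eval_pv {n : ℕ} (u w c : Fin n → K) (i : Fin n) (x : Fin 2 → K) : eval x (pv u w c i) = u i + w i * x 1 + c i * x 1 ^ 2 := by
  simp [pv]

private theorem sb_d0 {n : ℕ} (Q u w c : Fin n → K) (i : Fin n) : pderiv 0 (sb Q u w c i) = pv u w c i := by
  unfold sb
  rw [map_add, pderiv_C, pderiv_mul, pderiv_X_self, pv_d0]
  ring

private theorem sb_d1 {n : ℕ} (Q u w c : Fin n → K) (i : Fin n) : pderiv 1 (sb Q u w c i) = X 0 * pderiv 1 (pv u w c i) := by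
  unfold sb
  rw [map_add, pderiv_C, pderiv_mul, pderiv_X_of_ne (by decide)]
  ring

private theorem sb_deg {n : ℕ} (Q u w c : Fin n → K) (i : Fin n) : degreeOf 0 (sb Q u w c i) ≤ 1 := by
  unfold sb
  refine (degreeOf_add_le _ _ _).trans (max_le ?_ ?_)
  · rw [degreeOf_C]
    exact Nat.zero_le _
  · refine (degreeOf_mul_le _ _ _).trans ?_
    have h1 : degreeOf 0 (X 0 : MvPolynomial (Fin 2) K) = 1 := by
      rw [degreeOf_X]
      simp
    have hX : degreeOf 0 (X 1 : MvPolynomial (Fin 2) K) = 0 := by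
      rw [degreeOf_X]
      simp
    have h2 : degreeOf 0 (pv u w c i) = 0 := by
      unfold pv
      refine Nat.le_zero.1 ((degreeOf_add_le _ _ _).trans (max_le ((degreeOf_add_le _ _ _).trans (max_le ?_ ?_)) ?_))
      · rw [degreeOf_C]
      · refine (degreeOf_mul_le _ _ _).trans ?_
        rw [degreeOf_C, hX]
      · refine (degreeOf_mul_le _ _ _).trans ?_
        rw [degreeOf_C]
        refine (Nat.add_le_add_left (degreeOf_pow_le _ _ _) _).trans ?_
        rw [hX]
    rw [h1, h2]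

private theorem eval_sb {n : ℕ} (Q u w c : Fin n → K) (x : Fin 2 → K) (G : MvPolynomial (Fin n) K) :
    eval x (aeval (sb Q u w c) G) = eval (fun i => Q i + x 0 * (u i + w i * x 1 + c i * x 1 ^ 2)) G := by
  have h : (aeval x : MvPolynomial (Fin 2) K →ₐ[K] K).comp (aeval (sb Q u w c)) =
      aeval (fun i => Q i + x 0 * (u i + w i * x 1 + c i * x 1 ^ 2)) := by
    ext i
    simp [sb, pv]
  have h2 := DFunLike.congr_fun h G
  simpa [MvPolynomial.aeval_eq_eval] using h2

/-- The symmetries of the third derivative. -/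
private theorem cub_sym {n : ℕ} (F : MvPolynomial (Fin n) K) (Q u v w : Fin n → K) : cub F Q u v w = cub F Q v u w := by
  unfold cub
  rw [Finset.sum_comm]
  refine Finset.sum_congr rfl fun i _ => Finset.sum_congr rfl fun j _ => Finset.sum_congr rfl fun k _ => ?_
  rw [comm3 j i]
  ring

private theorem cub_sym' {n : ℕ} (F : MvPolynomial (Fin n) K) (Q u v w : Fin n → K) : cub F Q u v w = cub F Q u w v := by
  unfold cub
  refine Finset.sum_congr rfl fun i _ => ?_
  rw [Finset.sum_comm]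
  refine Finset.sum_congr rfl fun j _ => Finset.sum_congr rfl fun k _ => ?_
  rw [comm3 k j]
  ring

end

theorem loc_three {K : Type} [Field K] [CharZero K] (hK : Sol K) {n : ℕ} {F : MvPolynomial (Fin n) K} (hF : F.totalDegree ≤ 7)
    {g h : MvPolynomial (Fin n) K} {Q : Fin n → K} (hQ : eval Q F = 0) (hh : eval Q h ≠ 0)
    (hg : ∀ x, eval x F = 0 → eval x h ≠ 0 → eval x g = 0) {u w z : Fin n → K}
    (hu : grd F Q ⬝ᵥ u = 0) (hw : grd F Q ⬝ᵥ w = 0) (hz : grd F Q ⬝ᵥ z = 0)
    (huu : hes F Q u u = 0) (huw : hes F Q u w = 0) (huz : hes F Q u z = 1) (hwz : hes F Q w z = 0) (hzz : hes F Q z z = 0)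
    (h0 : cub F Q u u u = 0) (h1 : cub F Q u u w ≠ 0) : grd g Q ⬝ᵥ u = 0 := by
  classical
  have hgQ : eval Q g = 0 := hg Q hQ hh
  set κ : K := - hes F Q w w / 2 with hκd
  set c : Fin n → K := κ • z with hc
  -- evaluation at points with first coordinate `0`
  have ev0 : ∀ (x : Fin 2 → K), x 0 = 0 → ∀ G : MvPolynomial (Fin n) K, eval x (aeval (sb Q u w c) G) = eval Q G := by
    intro x hx G
    rw [eval_sb, hx]
    simp
  have hc2 : grd F Q ⬝ᵥ c = 0 := by rw [hc, dotProduct_smul, hz, smul_zero]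
  -- derivatives
  have d0 : ∀ G : MvPolynomial (Fin n) K, pderiv 0 (aeval (sb Q u w c) G) =
      ∑ i, aeval (sb Q u w c) (pderiv i G) * pv u w c i := by
    intro G
    rw [chain3]
    exact Finset.sum_congr rfl fun i _ => by rw [sb_d0]
  have d1 : ∀ G : MvPolynomial (Fin n) K, pderiv 1 (aeval (sb Q u w c) G) =
      ∑ i, aeval (sb Q u w c) (pderiv i G) * (X 0 * pderiv 1 (pv u w c i)) := by
    intro G
    rw [chain3]
    exact Finset.sum_congr rfl fun i _ => by rw [sb_d1]
  have d1z : ∀ G : MvPolynomial (Fin n) K, eval 0 (pderiv 1 (aeval (sb Q u w c) G)) = 0 := by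
    intro G
    rw [d1, map_sum]
    refine Finset.sum_eq_zero fun i _ => ?_
    rw [RingHom.map_mul, RingHom.map_mul, eval_X]
    simp
  set f : MvPolynomial (Fin 2) K := aeval (sb Q u w c) F with hf
  have hdd : pderiv 0 (pderiv 0 f) = ∑ i, ∑ j, aeval (sb Q u w c) (pderiv j (pderiv i F)) * (pv u w c j * pv u w c i) := by
    rw [hf, d0, map_sum]
    refine Finset.sum_congr rfl fun i _ => ?_
    rw [pderiv_mul, pv_d0, mul_zero, add_zero, d0, Finset.sum_mul]
    refine Finset.sum_congr rfl fun j _ => ?_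
    ring
  have hddd : pderiv 0 (pderiv 0 (pderiv 0 f)) = ∑ i, ∑ j, ∑ k, aeval (sb Q u w c) (pderiv k (pderiv j (pderiv i F))) *
      (pv u w c k * (pv u w c j * pv u w c i)) := by
    rw [hdd, map_sum]
    refine Finset.sum_congr rfl fun i _ => ?_
    rw [map_sum]
    refine Finset.sum_congr rfl fun j _ => ?_
    rw [pderiv_mul, pderiv_mul, pv_d0, pv_d0, zero_mul, mul_zero, add_zero, mul_zero, add_zero, d0, Finset.sum_mul]
    refine Finset.sum_congr rfl fun k _ => ?_
    ring
  have hX : ∀ q : MvPolynomial (Fin 2) K, pderiv 0 (X 0 * q) = q + X 0 * pderiv 0 q := by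
    intro q
    rw [pderiv_mul, pderiv_X_self, one_mul]
  -- `f = X 0 ^ 3 * e`
  obtain ⟨f1, hf1⟩ : X 0 ∣ f := X_dvd3 fun y => by rw [hf, ev0 _ (by simp), hQ]
  have hd0 : ∀ x : Fin 2 → K, x 0 = 0 → eval x (pderiv 0 f) = 0 := by
    intro x hx
    rw [hf, d0, map_sum]
    have h1 : ∀ i : Fin n, eval x (aeval (sb Q u w c) (pderiv i F) * pv u w c i) =
        grd F Q i * u i + grd F Q i * w i * x 1 + grd F Q i * c i * x 1 ^ 2 := by
      intro i
      rw [RingHom.map_mul, ev0 x hx, eval_pv, grd]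
      ring
    rw [Finset.sum_congr rfl fun i _ => h1 i, Finset.sum_add_distrib, Finset.sum_add_distrib, ← Finset.sum_mul, ← Finset.sum_mul]
    simp only [dotProduct] at hu hw hc2
    rw [hu, hw, hc2, zero_mul, zero_mul, add_zero, add_zero]
  obtain ⟨f2, hf2⟩ : X 0 ∣ f1 := X_dvd3 fun y => by
    have h1 := hd0 (Fin.cons 0 y) (by simp)
    rw [hf1, hX, map_add, map_mul, eval_X, Fin.cons_zero, zero_mul, add_zero] at h1
    exact h1
  have hd00 : ∀ x : Fin 2 → K, x 0 = 0 → eval x (pderiv 0 (pderiv 0 f)) = 0 := by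
    intro x hx
    have h1 : eval x (pderiv 0 (pderiv 0 f)) = hes F Q (u + x 1 • w + (x 1 ^ 2) • c) (u + x 1 • w + (x 1 ^ 2) • c) := by
      rw [hdd, map_sum]
      unfold hes
      refine Finset.sum_congr rfl fun i _ => ?_
      rw [map_sum]
      refine Finset.sum_congr rfl fun j _ => ?_
      rw [RingHom.map_mul, RingHom.map_mul, ev0 x hx, comm3 j i, eval_pv, eval_pv]
      simp only [Pi.add_apply, Pi.smul_apply, smul_eq_mul]
      ring
    have h2 : hes F Q w u = 0 := by rw [hes_symm, huw]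
    have h3 : hes F Q z u = 1 := by rw [hes_symm, huz]
    have h4 : hes F Q z w = 0 := by rw [hes_symm, hwz]
    rw [h1, hc]
    simp only [hes_add_left, hes_add_right, hes_smul_left, hes_smul_right, huu, huw, h2, huz, h3, hwz, h4, hzz]
    rw [hκd]
    field_simp
    ring
  obtain ⟨e, he2⟩ : X 0 ∣ f2 := X_dvd3 fun y => by
    have h1 := hd00 (Fin.cons 0 y) (by simp)
    rw [hf1, hf2] at h1
    simp only [hX, map_add, map_mul, eval_X, Fin.cons_zero, zero_mul, add_zero] at h1
    have h2 : (2 : K) * eval (Fin.cons 0 y : Fin 2 → K) f2 = 0 := by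
      rw [two_mul]
      exact h1
    exact (mul_eq_zero.1 h2).resolve_left two_ne_zero
  have he : f = X 0 * (X 0 * (X 0 * e)) := by rw [hf1, hf2, he2]
  have hde : pderiv 0 (pderiv 0 (pderiv 0 f)) = 6 * e + X 0 * (18 * pderiv 0 e + 9 * (X 0 * pderiv 0 (pderiv 0 e)) +
      X 0 * (X 0 * pderiv 0 (pderiv 0 (pderiv 0 e)))) := by
    rw [he]
    simp only [hX, map_add]
    ring
  have hx : ∀ (p q : MvPolynomial (Fin 2) K), eval 0 (p + X 0 * q) = eval 0 p := by
    intro p q
    rw [map_add, map_mul, eval_X]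
    simp
  have hpv0 : ∀ i, eval (0 : Fin 2 → K) (pv u w c i) = u i := by
    intro i
    rw [eval_pv]
    simp
  have hpv1 : ∀ i, eval (0 : Fin 2 → K) (pderiv 1 (pv u w c i)) = w i := by
    intro i
    rw [pv_d1]
    simp
  -- `e (0,0) = 0`
  have he00 : eval 0 e = 0 := by
    have h5 := congrArg (eval (0 : Fin 2 → K)) (hde.symm.trans hddd)
    rw [hx, map_mul, map_sum] at h5
    have h2 : ∑ i, eval (0 : Fin 2 → K) (∑ j, ∑ k, aeval (sb Q u w c) (pderiv k (pderiv j (pderiv i F))) *
        (pv u w c k * (pv u w c j * pv u w c i))) = cub F Q u u u := by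
      unfold cub
      refine Finset.sum_congr rfl fun i _ => ?_
      rw [map_sum]
      refine Finset.sum_congr rfl fun j _ => ?_
      rw [map_sum]
      refine Finset.sum_congr rfl fun k _ => ?_
      rw [RingHom.map_mul, RingHom.map_mul, RingHom.map_mul, ev0 0 rfl, hpv0, hpv0, hpv0, comm3 j i, comm3 k i, comm3 k j]
      ring
    rw [h2, h0] at h5
    have h3 : eval (0 : Fin 2 → K) (6 : MvPolynomial (Fin 2) K) ≠ 0 := by
      rw [map_ofNat]
      norm_num
    exact (mul_eq_zero.1 h5).resolve_left h3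
  have he01 : eval 0 (pderiv 1 e) ≠ 0 := by
    have h5 := congrArg (fun p => eval (0 : Fin 2 → K) (pderiv 1 p)) (hde.symm.trans hddd)
    have h4 : ∀ q : MvPolynomial (Fin 2) K, pderiv 1 (X 0 * q) = X 0 * pderiv 1 q := by
      intro q
      rw [pderiv_mul, pderiv_X_of_ne (by decide)]
      ring
    have h6 : pderiv 1 (6 * e) = 6 * pderiv 1 e := by
      have h9 : (6 : MvPolynomial (Fin 2) K) = C 6 := (map_ofNat C 6).symm
      rw [h9, pderiv_C_mul]
    beta_reduce at h5
    rw [map_add (pderiv (R := K) (1 : Fin 2)) (6 * e), h4, h6, hx, map_mul, map_sum, map_sum] at h5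
    have h2 : ∑ i, eval (0 : Fin 2 → K) (pderiv 1 (∑ j, ∑ k, aeval (sb Q u w c) (pderiv k (pderiv j (pderiv i F))) *
        (pv u w c k * (pv u w c j * pv u w c i)))) = cub F Q u u w + cub F Q u w u + cub F Q w u u := by
      unfold cub
      rw [← Finset.sum_add_distrib, ← Finset.sum_add_distrib]
      refine Finset.sum_congr rfl fun i _ => ?_
      rw [map_sum, map_sum, ← Finset.sum_add_distrib, ← Finset.sum_add_distrib]
      refine Finset.sum_congr rfl fun j _ => ?_
      rw [map_sum, map_sum, ← Finset.sum_add_distrib, ← Finset.sum_add_distrib]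
      refine Finset.sum_congr rfl fun k _ => ?_
      rw [pderiv_mul, pderiv_mul, pderiv_mul, map_add, RingHom.map_mul, d1z, zero_mul, zero_add, RingHom.map_mul, ev0 0 rfl, comm3 j i,
        comm3 k i, comm3 k j]
      simp only [map_add, map_mul, hpv0, hpv1]
      ring
    rw [h2, cub_sym F Q w u u, cub_sym' F Q u w u, map_ofNat] at h5
    intro h7
    rw [h7, mul_zero] at h5
    apply h1
    have h8 : (3 : K) * cub F Q u u w = 0 := by rw [h5]; ring
    exact (mul_eq_zero.1 h8).resolve_left (by norm_num)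
  have hene : e ≠ 0 := by
    rintro rfl
    apply he01
    rw [map_zero, map_zero]
  -- the irreducible factor
  obtain ⟨φ, hφi, hφe, hφ0⟩ : ∃ φ : MvPolynomial (Fin 2) K, Irreducible φ ∧ φ ∣ e ∧ eval 0 φ = 0 := by
    obtain ⟨s, hs, hse⟩ := UniqueFactorizationMonoid.exists_prime_factors e hene
    have h1 : eval (0 : Fin 2 → K) s.prod = 0 := by
      obtain ⟨v, hv⟩ := hse
      rw [← hv, map_mul] at he00
      refine (mul_eq_zero.1 he00).resolve_right ?_
      exact (v.isUnit.map (eval (0 : Fin 2 → K))).ne_zero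
    rw [map_multiset_prod, Multiset.prod_eq_zero_iff, Multiset.mem_map] at h1
    obtain ⟨φ, hφs, hφ0⟩ := h1
    exact ⟨φ, (hs φ hφs).irreducible, (Multiset.dvd_prod hφs).trans hse.dvd, hφ0⟩
  obtain ⟨η, hη⟩ := hφe
  have hφ1 : eval 0 (pderiv 1 φ) ≠ 0 := by
    intro h1
    apply he01
    rw [hη, pderiv_mul, map_add, map_mul, map_mul, h1, hφ0, zero_mul, zero_mul, add_zero]
  -- degrees
  have hφ4 : φ.degreeOf 0 ≤ 4 := by
    have hφne : φ ≠ 0 := hφi.ne_zero
    have hηne : η ≠ 0 := by
      rintro rfl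
      exact hene (by rw [hη, mul_zero])
    have h1 : degreeOf 0 f ≤ 7 := (deg3 (sb Q u w c) 0 (sb_deg Q u w c) F).trans hF
    have hX0 : (X 0 : MvPolynomial (Fin 2) K) ≠ 0 := X_ne_zero 0
    have hXd : degreeOf 0 (X 0 : MvPolynomial (Fin 2) K) = 1 := by
      rw [degreeOf_X]
      simp
    rw [he, deg_mul3 hX0 (mul_ne_zero hX0 (mul_ne_zero hX0 hene)), deg_mul3 hX0 (mul_ne_zero hX0 hene), deg_mul3 hX0 hene, hXd, hη,
      deg_mul3 hφne hηne] at h1
    omega
  -- zeros of `φ` are zeros of `f`, so of `g h`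
  have hz : ∀ x : Fin 2 → K, eval x φ = 0 → eval x (aeval (sb Q u w c) (g * h)) = 0 := by
    intro x hx0
    have h1 : eval x f = 0 := by
      rw [he, hη, map_mul, map_mul, map_mul, map_mul, hx0]
      simp
    rw [hf, eval_sb] at h1
    rw [eval_sb, map_mul]
    by_cases h2 : eval (fun i => Q i + x 0 * (u i + w i * x 1 + c i * x 1 ^ 2)) h = 0
    · rw [h2, mul_zero]
    · rw [hg _ h1 h2, zero_mul]
  -- it is enough to know the derivative of `g h`
  suffices hfin : ∑ i, eval Q (pderiv i (g * h)) * u i = 0 by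
    have h1 : ∀ i : Fin n, eval Q (pderiv i (g * h)) * u i = eval Q h * (grd g Q i * u i) := by
      intro i
      rw [pderiv_mul, map_add, map_mul, map_mul, hgQ, zero_mul, add_zero, grd]
      ring
    rw [Finset.sum_congr rfl fun i _ => h1 i, ← Finset.mul_sum] at hfin
    exact (mul_eq_zero.1 hfin).resolve_left hh
  by_cases hφd : φ.degreeOf 0 = 0
  · -- `φ (t, 0) = 0` for all `t`
    have h1 : ∀ t : K, eval (Fin.cons t 0 : Fin 2 → K) φ = 0 := by
      intro t
      rw [← natDegree_finSuccEquiv] at hφd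
      obtain ⟨b, hb⟩ := Polynomial.natDegree_eq_zero.1 hφd
      have h2 : ∀ t : K, eval (Fin.cons t 0 : Fin 2 → K) φ = eval 0 b := by
        intro t
        rw [eval_eq_eval_mv_eval', ← hb, Polynomial.map_C, Polynomial.eval_C]
      have h3 : (Fin.cons 0 0 : Fin 2 → K) = 0 := by
        ext i
        refine Fin.cases ?_ (fun j => ?_) i <;> simp
      rw [h2 t, ← h2 0, h3, hφ0]
    -- the line `Q + t u`
    have h4 : (aeval (sb Q u 0 0) (g * h) : MvPolynomial (Fin 2) K) = 0 := by
      refine MvPolynomial.funext fun x => ?_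
      have h5 := hz (Fin.cons (x 0) 0) (h1 (x 0))
      rw [eval_sb] at h5
      rw [eval_sb, map_zero, ← h5]
      congr 1
      congr 1
      ext i
      have h6 : (Fin.cons (x 0) 0 : Fin 2 → K) 1 = 0 := rfl
      rw [h6]
      simp
    have h7 := congrArg (fun p => eval (0 : Fin 2 → K) (pderiv 0 p)) h4
    simp only [map_zero] at h7
    rw [chain3, map_sum] at h7
    rw [← h7]
    refine Finset.sum_congr rfl fun i _ => ?_
    rw [RingHom.map_mul, eval_sb, sb_d0, eval_pv]
    simp
  · obtain ⟨κ', hκ⟩ := dens hK hφi hφd hφ4 hz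
    have h1 := d1z (g * h)
    rw [hκ, pderiv_mul, map_add, map_mul, map_mul, hφ0, zero_mul, add_zero] at h1
    have h2 : eval 0 κ' = 0 := (mul_eq_zero.1 h1).resolve_left hφ1
    have h3 : eval (0 : Fin 2 → K) (pderiv 0 (aeval (sb Q u w c) (g * h))) = 0 := by
      rw [hκ, pderiv_mul, map_add, map_mul, map_mul, hφ0, h2, zero_mul, mul_zero, add_zero]
    rw [d0, map_sum] at h3
    rw [← h3]
    refine Finset.sum_congr rfl fun i _ => ?_
    rw [RingHom.map_mul, ev0 0 rfl, hpv0]

end Pool.Agent.H8.SB
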