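import Pool.Agent.H8.SB.Cv

/-!
# SB LocL: a branch of zeros through `Q` with an asymptotic tangent direction `v(y0)`, `y0` in `L` (degree at most 7)

Same pattern as `SD/LocA.lean` (helper46) and `SB/Loc3.lean`.  `v(y) = e1 + y e2 + y ^ 2 e3` satisfies `grd F Q · v(y) = 0` and
`hes F Q v(y) v(y) = 0` identically (coefficients `h11, .., h33`).  In `MvPolynomial (Fin 2) K` (`t = X 0`, `y = X 1`) let
`s i = C (Q i) + X 0 * (C (e1 i) + C (e2 i) * X 1 + C (e3 i) * X 1 ^ 2)`, `f = aeval s F`.  `f`, `∂_0 f`, `∂_0 ∂_0 f` vanish at `t = 0`, so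
`f = X 0 ^ 3 * e`, `degreeOf 0 e ≤ 4`, `6 e(0, y) = cub F Q v(y) v(y) v(y)`, so `e(0, y0) = 0`, `(∂_1 e)(0, y0) = d3 F Q v v v' / 2 ≠ 0` for the
evaluation `aeval ![0, y0]` with values in `L`.  `φ` = an irreducible factor of `e` over `K` with `φ(0, y0) = 0` (a factor of the product of
the prime factors must vanish); `(∂_1 φ)(0, y0) ≠ 0`.
`degreeOf 0 φ ≠ 0`: `φ ∣ k = aeval s (g * h)` by `dens`, `k = φ κ`; `k(0, y) = 0` as a polynomial in `y`, so `(∂_1 k)(0, y0) = 0`, so
`κ(0, y0) = 0`, so `(∂_0 k)(0, y0) = 0`; this is `h(Q) * ∑ i, grd g Q i * v(y0) i` (as `g(Q) = 0`).  (Or: `X 0 ∣ k`, `k = X 0 * k1`,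
`φ ∣ k1` as `φ` is prime and does not divide `X 0`; `k1(0, y0) = 0`.)
`degreeOf 0 φ = 0`: then `φ(t, y0) = φ(0, y0) = 0` for all `t ∈ L`, so `F (Q + t v(y0)) = 0` for all `t ∈ L`, against `hline`.
-/

set_option autoImplicit false

open MvPolynomial Matrix

namespace Pool.Agent.H8.SB

open Pool.Agent.H8.SD

section
variable {K : Type} [Field K]

/-- The chain rule. -/
private theorem chainL {n m : ℕ} (s : Fin n → MvPolynomial (Fin m) K) (j : Fin m) (G : MvPolynomial (Fin n) K) :
    pderiv j (aeval s G) = ∑ i, aeval s (pderiv i G) * pderiv j (s i) := by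
  induction G using MvPolynomial.induction_on with
  | C a =>
    have h : aeval s (C a : MvPolynomial (Fin n) K) = (C a : MvPolynomial (Fin m) K) := by simp
    rw [h, pderiv_C]
    simp
  | add p q hp hq =>
    rw [map_add, map_add, hp, hq, ← Finset.sum_add_distrib]
    refine Finset.sum_congr rfl fun i _ => ?_
    rw [map_add, map_add, add_mul]
  | mul_X p k hp =>
    rw [map_mul, pderiv_mul, hp, aeval_X]
    have h : ∀ i : Fin n, aeval s (pderiv i (p * X k)) * pderiv j (s i) =
        aeval s (pderiv i p) * pderiv j (s i) * s k + (if i = k then aeval s p * pderiv j (s i) else 0) := by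
      intro i
      rw [pderiv_mul, map_add, map_mul, map_mul, aeval_X]
      by_cases hik : i = k
      · subst hik
        rw [pderiv_X_self, map_one, if_pos rfl]
        ring
      · rw [pderiv_X_of_ne (Ne.symm hik), map_zero, if_neg hik]
        ring
    rw [Finset.sum_congr rfl fun i _ => h i, Finset.sum_add_distrib, Finset.sum_mul, Finset.sum_ite_eq' Finset.univ k,
      if_pos (Finset.mem_univ _)]

/-- The second derivatives commute. -/
private theorem commL {n : ℕ} (i j : Fin n) (F : MvPolynomial (Fin n) K) : pderiv i (pderiv j F) = pderiv j (pderiv i F) := by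
  have h : ⁅pderiv (R := K) i, pderiv (R := K) j⁆ = 0 := by
    refine MvPolynomial.derivation_ext fun k => ?_
    rw [Derivation.commutator_apply]
    have h0 : ∀ a b : Fin n, pderiv (R := K) a (Pi.single (M := fun _ : Fin n => MvPolynomial (Fin n) K) b 1 k) = 0 := by
      intro a b
      rw [Pi.single_apply]
      split_ifs
      · exact pderiv_one
      · exact map_zero _
    rw [pderiv_X, pderiv_X, h0, h0, sub_zero]
    rfl
  have h2 := congrArg (fun D : Derivation K (MvPolynomial (Fin n) K) (MvPolynomial (Fin n) K) => D F) h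
  simp only [Derivation.commutator_apply, Derivation.coe_zero, Pi.zero_apply] at h2
  exact sub_eq_zero.1 h2

/-- A polynomial which vanishes at `X 0 = 0` is divisible by `X 0`. -/
private theorem X_dvdL [CharZero K] {m : ℕ} {p : MvPolynomial (Fin (m + 1)) K}
    (hp : ∀ y : Fin m → K, eval (Fin.cons 0 y : Fin (m + 1) → K) p = 0) : X 0 ∣ p := by
  have h : Polynomial.X ∣ finSuccEquiv K m p := by
    rw [Polynomial.X_dvd_iff]
    refine MvPolynomial.funext fun y => ?_
    have h1 := hp y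
    rw [eval_eq_eval_mv_eval', ← Polynomial.coeff_zero_eq_eval_zero, Polynomial.coeff_map] at h1
    rw [h1, map_zero]
  rw [← finSuccEquiv_X_zero] at h
  exact (map_dvd_iff (finSuccEquiv K m)).1 h

private theorem degL {n m : ℕ} (s : Fin n → MvPolynomial (Fin m) K) (j : Fin m) (hs : ∀ i, degreeOf j (s i) ≤ 1)
    (F : MvPolynomial (Fin n) K) : degreeOf j (aeval s F) ≤ F.totalDegree := by
  rw [aeval_def, eval₂_eq]
  refine (degreeOf_sum_le _ _ _).trans (Finset.sup_le fun d hd => ?_)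
  refine (degreeOf_mul_le _ _ _).trans ?_
  rw [algebraMap_eq, degreeOf_C, zero_add]
  refine (degreeOf_prod_le _ _ _).trans ?_
  refine le_trans ?_ (le_totalDegree hd)
  rw [Finsupp.sum]
  refine Finset.sum_le_sum fun i _ => ?_
  exact (degreeOf_pow_le _ _ _).trans ((Nat.mul_le_mul_left _ (hs i)).trans_eq (mul_one _))

private theorem deg_mulL {m : ℕ} {p q : MvPolynomial (Fin (m + 1)) K} (hp : p ≠ 0) (hq : q ≠ 0) :
    degreeOf 0 (p * q) = degreeOf 0 p + degreeOf 0 q := by
  rw [← natDegree_finSuccEquiv, ← natDegree_finSuccEquiv, ← natDegree_finSuccEquiv, map_mul]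
  refine Polynomial.natDegree_mul ?_ ?_
  · exact fun h => hp ((map_eq_zero_iff _ (finSuccEquiv K m).injective).1 h)
  · exact fun h => hq ((map_eq_zero_iff _ (finSuccEquiv K m).injective).1 h)

/-- `v(y) = u + y w + y ^ 2 c`. -/
private noncomputable def pv {n : ℕ} (u w c : Fin n → K) (i : Fin n) : MvPolynomial (Fin 2) K :=
  C (u i) + C (w i) * X 1 + C (c i) * X 1 ^ 2

/-- The substitution `x = Q + t v(y)`, `t = X 0`, `y = X 1`. -/
private noncomputable def sb {n : ℕ} (Q u w c : Fin n → K) (i : Fin n) : MvPolynomial (Fin 2) K :=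
  C (Q i) + X 0 * pv u w c i

private theorem pv_d0 {n : ℕ} (u w c : Fin n → K) (i : Fin n) : pderiv 0 (pv u w c i) = 0 := by
  unfold pv
  rw [map_add, map_add, pderiv_C, pderiv_C_mul, pderiv_C_mul, pderiv_pow, pderiv_X_of_ne (by decide)]
  ring

private theorem pv_d1 {n : ℕ} (u w c : Fin n → K) (i : Fin n) : pderiv 1 (pv u w c i) = C (w i) + C (2 * c i) * X 1 := by
  unfold pv
  rw [map_add, map_add, pderiv_C, pderiv_C_mul, pderiv_C_mul, pderiv_pow, pderiv_X_self, C_mul]
  have h2 : (C 2 : MvPolynomial (Fin 2) K) = 2 := map_ofNat C 2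
  rw [h2]
  norm_num
  ring

private theorem eval_pv {n : ℕ} (u w c : Fin n → K) (i : Fin n) (x : Fin 2 → K) : eval x (pv u w c i) = u i + w i * x 1 + c i * x 1 ^ 2 := by
  simp [pv]

private theorem sb_d0 {n : ℕ} (Q u w c : Fin n → K) (i : Fin n) : pderiv 0 (sb Q u w c i) = pv u w c i := by
  unfold sb
  rw [map_add, pderiv_C, pderiv_mul, pderiv_X_self, pv_d0]
  ring

private theorem sb_d1 {n : ℕ} (Q u w c : Fin n → K) (i : Fin n) : pderiv 1 (sb Q u w c i) = X 0 * pderiv 1 (pv u w c i) := by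
  unfold sb
  rw [map_add, pderiv_C, pderiv_mul, pderiv_X_of_ne (by decide)]
  ring

private theorem sb_deg {n : ℕ} (Q u w c : Fin n → K) (i : Fin n) : degreeOf 0 (sb Q u w c i) ≤ 1 := by
  unfold sb
  refine (degreeOf_add_le _ _ _).trans (max_le ?_ ?_)
  · rw [degreeOf_C]
    exact Nat.zero_le _
  · refine (degreeOf_mul_le _ _ _).trans ?_
    have h1 : degreeOf 0 (X 0 : MvPolynomial (Fin 2) K) = 1 := by
      rw [degreeOf_X]
      simp
    have hX : degreeOf 0 (X 1 : MvPolynomial (Fin 2) K) = 0 := by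
      rw [degreeOf_X]
      simp
    have h2 : degreeOf 0 (pv u w c i) = 0 := by
      unfold pv
      refine Nat.le_zero.1 ((degreeOf_add_le _ _ _).trans (max_le ((degreeOf_add_le _ _ _).trans (max_le ?_ ?_)) ?_))
      · rw [degreeOf_C]
      · refine (degreeOf_mul_le _ _ _).trans ?_
        rw [degreeOf_C, hX]
      · refine (degreeOf_mul_le _ _ _).trans ?_
        rw [degreeOf_C]
        refine (Nat.add_le_add_left (degreeOf_pow_le _ _ _) _).trans ?_
        rw [hX]
    rw [h1, h2]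

private theorem eval_sb {n : ℕ} (Q u w c : Fin n → K) (x : Fin 2 → K) (G : MvPolynomial (Fin n) K) :
    eval x (aeval (sb Q u w c) G) = eval (fun i => Q i + x 0 * (u i + w i * x 1 + c i * x 1 ^ 2)) G := by
  have h : (aeval x : MvPolynomial (Fin 2) K →ₐ[K] K).comp (aeval (sb Q u w c)) =
      aeval (fun i => Q i + x 0 * (u i + w i * x 1 + c i * x 1 ^ 2)) := by
    ext i
    simp [sb, pv]
  have h2 := DFunLike.congr_fun h G
  simpa [MvPolynomial.aeval_eq_eval] using h2

/-- Evaluation over `L`. -/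
private theorem aeval_pv {L : Type} [Field L] [Algebra K L] {n : ℕ} (u w c : Fin n → K) (i : Fin n) (x : Fin 2 → L) :
    aeval x (pv u w c i) = cv u w c (x 1) i := by
  simp only [pv, cv, map_add, map_mul, map_pow, aeval_C, aeval_X]
  ring

private theorem aeval_pv' {L : Type} [Field L] [Algebra K L] {n : ℕ} (u w c : Fin n → K) (i : Fin n) (x : Fin 2 → L) :
    aeval x (pderiv 1 (pv u w c i)) = cv' w c (x 1) i := by
  rw [pv_d1]
  simp only [cv', map_add, map_mul, aeval_C, aeval_X, map_ofNat]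
  ring

private theorem aeval_sb {L : Type} [Field L] [Algebra K L] {n : ℕ} (Q u w c : Fin n → K) (x : Fin 2 → L) (G : MvPolynomial (Fin n) K) :
    aeval x (aeval (sb Q u w c) G) = aeval (fun i => algebraMap K L (Q i) + x 0 * cv u w c (x 1) i) G := by
  have h : (aeval x : MvPolynomial (Fin 2) K →ₐ[K] L).comp (aeval (sb Q u w c)) =
      aeval (fun i => algebraMap K L (Q i) + x 0 * cv u w c (x 1) i) := by
    refine MvPolynomial.algHom_ext fun i => ?_
    rw [AlgHom.comp_apply, aeval_X, aeval_X, sb, map_add, map_mul, aeval_C, aeval_X, aeval_pv]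
  exact DFunLike.congr_fun h G

/-- The symmetries of the third derivative. -/
private theorem d3_sym {L : Type} [Field L] [Algebra K L] {n : ℕ} (F : MvPolynomial (Fin n) K) (Q : Fin n → K) (u v w : Fin n → L) :
    d3 F Q u v w = d3 F Q v u w := by
  unfold d3
  rw [Finset.sum_comm]
  refine Finset.sum_congr rfl fun i _ => Finset.sum_congr rfl fun j _ => Finset.sum_congr rfl fun k _ => ?_
  rw [commL j i]
  ring

private theorem d3_sym' {L : Type} [Field L] [Algebra K L] {n : ℕ} (F : MvPolynomial (Fin n) K) (Q : Fin n → K) (u v w : Fin n → L) :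
    d3 F Q u v w = d3 F Q u w v := by
  unfold d3
  refine Finset.sum_congr rfl fun i _ => ?_
  rw [Finset.sum_comm]
  refine Finset.sum_congr rfl fun j _ => Finset.sum_congr rfl fun k _ => ?_
  rw [commL k j]
  ring

/-- A polynomial of degree `0` in `X 0` does not depend on `X 0`. -/
private theorem indep0 {L : Type} [Field L] [Algebra K L] {φ : MvPolynomial (Fin 2) K} (hφ : φ.degreeOf 0 = 0) (t y : L) :
    aeval (![t, y] : Fin 2 → L) φ = aeval (![0, y] : Fin 2 → L) φ := by
  rw [← natDegree_finSuccEquiv] at hφ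
  obtain ⟨b, hb⟩ := Polynomial.natDegree_eq_zero.1 hφ
  have key : ∀ b : MvPolynomial (Fin 1) K, finSuccEquiv K 1 (rename Fin.succ b) = Polynomial.C b := by
    intro b
    induction b using MvPolynomial.induction_on with
    | C a =>
      rw [rename_C]
      exact (finSuccEquiv K 1).commutes a
    | add p q hp hq => rw [map_add, map_add, hp, hq, Polynomial.C_add]
    | mul_X p i hp => rw [map_mul, map_mul, hp, rename_X, finSuccEquiv_X_succ, Polynomial.C_mul]
  have h1 : φ = rename Fin.succ b := by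
    apply (finSuccEquiv K 1).injective
    rw [key, hb]
  rw [h1, aeval_rename, aeval_rename]
  rfl

end

theorem loc_curve {K L : Type} [Field K] [CharZero K] [Field L] [Algebra K L] (hK : Sol K) {n : ℕ} {F : MvPolynomial (Fin n) K}
    (hF : F.totalDegree ≤ 7) {g h : MvPolynomial (Fin n) K} {Q : Fin n → K} (hQ : eval Q F = 0) (hh : eval Q h ≠ 0)
    (hg : ∀ x, eval x F = 0 → eval x h ≠ 0 → eval x g = 0) {e1 e2 e3 : Fin n → K}
    (h1 : grd F Q ⬝ᵥ e1 = 0) (h2 : grd F Q ⬝ᵥ e2 = 0) (h3 : grd F Q ⬝ᵥ e3 = 0)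
    (h11 : hes F Q e1 e1 = 0) (h12 : hes F Q e1 e2 = 0) (h22 : hes F Q e2 e2 + 2 * hes F Q e1 e3 = 0) (h23 : hes F Q e2 e3 = 0)
    (h33 : hes F Q e3 e3 = 0) (y : L) (hc : d3 F Q (cv e1 e2 e3 y) (cv e1 e2 e3 y) (cv e1 e2 e3 y) = 0)
    (hc' : d3 F Q (cv e1 e2 e3 y) (cv e1 e2 e3 y) (cv' e2 e3 y) ≠ 0)
    (hline : ∃ t : L, aeval (fun i => algebraMap K L (Q i) + t * cv e1 e2 e3 y i) F ≠ 0) :
    ∑ i, algebraMap K L (grd g Q i) * cv e1 e2 e3 y i = 0 := by
  classical
  have hgQ : eval Q g = 0 := hg Q hQ hh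
  have inj : Function.Injective (algebraMap K L) := (algebraMap K L).injective
  set v : Fin n → L := cv e1 e2 e3 y with hv
  set v' : Fin n → L := cv' e2 e3 y with hv'
  set x0 : Fin 2 → L := ![0, y] with hx0
  have x00 : x0 0 = 0 := rfl
  have x01 : x0 1 = y := rfl
  -- evaluation at points with first coordinate `0`
  have ev0 : ∀ (x : Fin 2 → K), x 0 = 0 → ∀ G : MvPolynomial (Fin n) K, eval x (aeval (sb Q e1 e2 e3) G) = eval Q G := by
    intro x hx G
    rw [eval_sb, hx]
    simp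
  have evL : ∀ G : MvPolynomial (Fin n) K, aeval x0 (aeval (sb Q e1 e2 e3) G) = algebraMap K L (eval Q G) := by
    intro G
    rw [aeval_sb, x00]
    simp only [zero_mul, add_zero]
    have h4 := MvPolynomial.aeval_algebraMap_apply (A := K) L Q G
    rw [MvPolynomial.aeval_eq_eval] at h4
    exact h4
  have epv : ∀ i, aeval x0 (pv e1 e2 e3 i) = v i := fun i => by rw [aeval_pv, x01]
  have epv' : ∀ i, aeval x0 (pderiv 1 (pv e1 e2 e3 i)) = v' i := fun i => by rw [aeval_pv', x01]
  -- derivatives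
  have d0 : ∀ G : MvPolynomial (Fin n) K, pderiv 0 (aeval (sb Q e1 e2 e3) G) =
      ∑ i, aeval (sb Q e1 e2 e3) (pderiv i G) * pv e1 e2 e3 i := by
    intro G
    rw [chainL]
    exact Finset.sum_congr rfl fun i _ => by rw [sb_d0]
  have d1' : ∀ G : MvPolynomial (Fin n) K, pderiv 1 (aeval (sb Q e1 e2 e3) G) =
      ∑ i, aeval (sb Q e1 e2 e3) (pderiv i G) * (X 0 * pderiv 1 (pv e1 e2 e3 i)) := by
    intro G
    rw [chainL]
    exact Finset.sum_congr rfl fun i _ => by rw [sb_d1]
  have d1z : ∀ G : MvPolynomial (Fin n) K, aeval x0 (pderiv 1 (aeval (sb Q e1 e2 e3) G)) = 0 := by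
    intro G
    rw [d1', map_sum]
    refine Finset.sum_eq_zero fun i _ => ?_
    rw [map_mul, map_mul, aeval_X, x00, zero_mul, mul_zero]
  set f : MvPolynomial (Fin 2) K := aeval (sb Q e1 e2 e3) F with hf
  have hdd : pderiv 0 (pderiv 0 f) = ∑ i, ∑ j, aeval (sb Q e1 e2 e3) (pderiv j (pderiv i F)) * (pv e1 e2 e3 j * pv e1 e2 e3 i) := by
    rw [hf, d0, map_sum]
    refine Finset.sum_congr rfl fun i _ => ?_
    rw [pderiv_mul, pv_d0, mul_zero, add_zero, d0, Finset.sum_mul]
    refine Finset.sum_congr rfl fun j _ => ?_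
    ring
  have hddd : pderiv 0 (pderiv 0 (pderiv 0 f)) = ∑ i, ∑ j, ∑ k, aeval (sb Q e1 e2 e3) (pderiv k (pderiv j (pderiv i F))) *
      (pv e1 e2 e3 k * (pv e1 e2 e3 j * pv e1 e2 e3 i)) := by
    rw [hdd, map_sum]
    refine Finset.sum_congr rfl fun i _ => ?_
    rw [map_sum]
    refine Finset.sum_congr rfl fun j _ => ?_
    rw [pderiv_mul, pderiv_mul, pv_d0, pv_d0, zero_mul, mul_zero, add_zero, mul_zero, add_zero, d0, Finset.sum_mul]
    refine Finset.sum_congr rfl fun k _ => ?_
    ring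
  have hX : ∀ q : MvPolynomial (Fin 2) K, pderiv 0 (X 0 * q) = q + X 0 * pderiv 0 q := by
    intro q
    rw [pderiv_mul, pderiv_X_self, one_mul]
  -- `f = X 0 ^ 3 * e`
  obtain ⟨f1, hf1⟩ : X 0 ∣ f := X_dvdL fun z => by rw [hf, ev0 _ (by simp), hQ]
  have hd0 : ∀ x : Fin 2 → K, x 0 = 0 → eval x (pderiv 0 f) = 0 := by
    intro x hx
    rw [hf, d0, map_sum]
    have h4 : ∀ i : Fin n, eval x (aeval (sb Q e1 e2 e3) (pderiv i F) * pv e1 e2 e3 i) =
        grd F Q i * e1 i + grd F Q i * e2 i * x 1 + grd F Q i * e3 i * x 1 ^ 2 := by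
      intro i
      rw [RingHom.map_mul, ev0 x hx, eval_pv, grd]
      ring
    rw [Finset.sum_congr rfl fun i _ => h4 i, Finset.sum_add_distrib, Finset.sum_add_distrib, ← Finset.sum_mul, ← Finset.sum_mul]
    simp only [dotProduct] at h1 h2 h3
    rw [h1, h2, h3, zero_mul, zero_mul, add_zero, add_zero]
  obtain ⟨f2, hf2⟩ : X 0 ∣ f1 := X_dvdL fun z => by
    have h4 := hd0 (Fin.cons 0 z) (by simp)
    rw [hf1, hX, map_add, map_mul, eval_X, Fin.cons_zero, zero_mul, add_zero] at h4
    exact h4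
  have hd00 : ∀ x : Fin 2 → K, x 0 = 0 → eval x (pderiv 0 (pderiv 0 f)) = 0 := by
    intro x hx
    have h4 : eval x (pderiv 0 (pderiv 0 f)) =
        hes F Q (e1 + x 1 • e2 + (x 1 ^ 2) • e3) (e1 + x 1 • e2 + (x 1 ^ 2) • e3) := by
      rw [hdd, map_sum]
      unfold hes
      refine Finset.sum_congr rfl fun i _ => ?_
      rw [map_sum]
      refine Finset.sum_congr rfl fun j _ => ?_
      rw [RingHom.map_mul, RingHom.map_mul, ev0 x hx, commL j i, eval_pv, eval_pv]
      simp only [Pi.add_apply, Pi.smul_apply, smul_eq_mul]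
      ring
    have h5 : hes F Q e2 e1 = 0 := by rw [hes_symm, h12]
    have h6 : hes F Q e3 e1 = hes F Q e1 e3 := hes_symm _ _ _ _
    have h7 : hes F Q e3 e2 = 0 := by rw [hes_symm, h23]
    rw [h4]
    simp only [hes_add_left, hes_add_right, hes_smul_left, hes_smul_right, h11, h12, h5, h6, h23, h7, h33]
    linear_combination (x 1 ^ 2) * h22
  obtain ⟨e, he2⟩ : X 0 ∣ f2 := X_dvdL fun z => by
    have h4 := hd00 (Fin.cons 0 z) (by simp)
    rw [hf1, hf2] at h4
    simp only [hX, map_add, map_mul, eval_X, Fin.cons_zero, zero_mul, add_zero] at h4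
    have h5 : (2 : K) * eval (Fin.cons 0 z : Fin 2 → K) f2 = 0 := by
      rw [two_mul]
      exact h4
    exact (mul_eq_zero.1 h5).resolve_left two_ne_zero
  have he : f = X 0 * (X 0 * (X 0 * e)) := by rw [hf1, hf2, he2]
  have hde : pderiv 0 (pderiv 0 (pderiv 0 f)) = 6 * e + X 0 * (18 * pderiv 0 e + 9 * (X 0 * pderiv 0 (pderiv 0 e)) +
      X 0 * (X 0 * pderiv 0 (pderiv 0 (pderiv 0 e)))) := by
    rw [he]
    simp only [hX, map_add]
    ring
  have hx : ∀ (p q : MvPolynomial (Fin 2) K), aeval x0 (p + X 0 * q) = aeval x0 p := by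
    intro p q
    rw [map_add, map_mul, aeval_X, x00, zero_mul, add_zero]
  have num : ∀ m : ℕ, m ≠ 0 → ((m : ℕ) : L) ≠ 0 := by
    intro m hm h4
    have h5 : algebraMap K L ((m : ℕ) : K) = 0 := by rw [map_natCast, h4]
    have h6 := inj (h5.trans (map_zero _).symm)
    exact hm (by exact_mod_cast h6)
  -- `e (0, y) = 0`
  have he00 : aeval x0 e = 0 := by
    have h5 := congrArg (aeval x0) (hde.symm.trans hddd)
    rw [hx, map_mul, map_sum] at h5
    have h6 : ∑ i, aeval x0 (∑ j, ∑ k, aeval (sb Q e1 e2 e3) (pderiv k (pderiv j (pderiv i F))) *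
        (pv e1 e2 e3 k * (pv e1 e2 e3 j * pv e1 e2 e3 i))) = d3 F Q v v v := by
      unfold d3
      refine Finset.sum_congr rfl fun i _ => ?_
      rw [map_sum]
      refine Finset.sum_congr rfl fun j _ => ?_
      rw [map_sum]
      refine Finset.sum_congr rfl fun k _ => ?_
      rw [map_mul, map_mul, map_mul, evL, epv, epv, epv, commL j i, commL k i, commL k j]
      ring
    rw [h6, hc] at h5
    have h7 : aeval x0 (6 : MvPolynomial (Fin 2) K) ≠ 0 := by
      rw [map_ofNat]
      exact_mod_cast num 6 (by norm_num)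
    exact (mul_eq_zero.1 h5).resolve_left h7
  have he01 : aeval x0 (pderiv 1 e) ≠ 0 := by
    have h5 := congrArg (fun p => aeval x0 (pderiv 1 p)) (hde.symm.trans hddd)
    have h4 : ∀ q : MvPolynomial (Fin 2) K, pderiv 1 (X 0 * q) = X 0 * pderiv 1 q := by
      intro q
      rw [pderiv_mul, pderiv_X_of_ne (by decide)]
      ring
    have h6 : pderiv 1 (6 * e) = 6 * pderiv 1 e := by
      have h9 : (6 : MvPolynomial (Fin 2) K) = C 6 := (map_ofNat C 6).symm
      rw [h9, pderiv_C_mul]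
    beta_reduce at h5
    rw [map_add (pderiv (R := K) (1 : Fin 2)) (6 * e), h4, h6, hx, map_mul, map_sum, map_sum] at h5
    have h7 : ∑ i, aeval x0 (pderiv 1 (∑ j, ∑ k, aeval (sb Q e1 e2 e3) (pderiv k (pderiv j (pderiv i F))) *
        (pv e1 e2 e3 k * (pv e1 e2 e3 j * pv e1 e2 e3 i)))) = d3 F Q v v v' + d3 F Q v v' v + d3 F Q v' v v := by
      unfold d3
      rw [← Finset.sum_add_distrib, ← Finset.sum_add_distrib]
      refine Finset.sum_congr rfl fun i _ => ?_
      rw [map_sum, map_sum, ← Finset.sum_add_distrib, ← Finset.sum_add_distrib]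
      refine Finset.sum_congr rfl fun j _ => ?_
      rw [map_sum, map_sum, ← Finset.sum_add_distrib, ← Finset.sum_add_distrib]
      refine Finset.sum_congr rfl fun k _ => ?_
      rw [pderiv_mul, pderiv_mul, pderiv_mul, map_add, map_mul, d1z, zero_mul, zero_add, map_mul, evL, commL j i,
        commL k i, commL k j]
      simp only [map_add, map_mul, epv, epv']
      ring
    rw [h7, d3_sym F Q v' v v, d3_sym' F Q v v' v, map_ofNat] at h5
    intro h8
    rw [h8, mul_zero] at h5
    apply hc'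
    have h9 : (3 : L) * d3 F Q v v v' = 0 := by rw [h5]; ring
    refine (mul_eq_zero.1 h9).resolve_left ?_
    exact_mod_cast num 3 (by norm_num)
  have hene : e ≠ 0 := by
    rintro rfl
    apply he01
    rw [map_zero, map_zero]
  -- the irreducible factor
  obtain ⟨φ, hφi, hφe, hφ0⟩ : ∃ φ : MvPolynomial (Fin 2) K, Irreducible φ ∧ φ ∣ e ∧ aeval x0 φ = 0 := by
    obtain ⟨s, hs, hse⟩ := UniqueFactorizationMonoid.exists_prime_factors e hene
    have h4 : aeval x0 s.prod = 0 := by
      obtain ⟨r, hr⟩ := hse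
      rw [← hr, map_mul] at he00
      refine (mul_eq_zero.1 he00).resolve_right ?_
      exact (r.isUnit.map (aeval x0 : MvPolynomial (Fin 2) K →ₐ[K] L)).ne_zero
    rw [map_multiset_prod, Multiset.prod_eq_zero_iff, Multiset.mem_map] at h4
    obtain ⟨φ, hφs, hφ0⟩ := h4
    exact ⟨φ, (hs φ hφs).irreducible, (Multiset.dvd_prod hφs).trans hse.dvd, hφ0⟩
  obtain ⟨η, hη⟩ := hφe
  have hφ1 : aeval x0 (pderiv 1 φ) ≠ 0 := by
    intro h4
    apply he01
    rw [hη, pderiv_mul, map_add, map_mul, map_mul, h4, hφ0, zero_mul, zero_mul, add_zero]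
  -- degrees
  have hφ4 : φ.degreeOf 0 ≤ 4 := by
    have hφne : φ ≠ 0 := hφi.ne_zero
    have hηne : η ≠ 0 := by
      rintro rfl
      exact hene (by rw [hη, mul_zero])
    have h4 : degreeOf 0 f ≤ 7 := (degL (sb Q e1 e2 e3) 0 (sb_deg Q e1 e2 e3) F).trans hF
    have hX0 : (X 0 : MvPolynomial (Fin 2) K) ≠ 0 := X_ne_zero 0
    have hXd : degreeOf 0 (X 0 : MvPolynomial (Fin 2) K) = 1 := by
      rw [degreeOf_X]
      simp
    rw [he, deg_mulL hX0 (mul_ne_zero hX0 (mul_ne_zero hX0 hene)), deg_mulL hX0 (mul_ne_zero hX0 hene), deg_mulL hX0 hene, hXd, hη,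
      deg_mulL hφne hηne] at h4
    omega
  -- zeros of `φ` are zeros of `f`, so of `g h`
  have hz : ∀ x : Fin 2 → K, eval x φ = 0 → eval x (aeval (sb Q e1 e2 e3) (g * h)) = 0 := by
    intro x hx0'
    have h4 : eval x f = 0 := by
      rw [he, hη, map_mul, map_mul, map_mul, map_mul, hx0']
      simp
    rw [hf, eval_sb] at h4
    rw [eval_sb, map_mul]
    by_cases h5 : eval (fun i => Q i + x 0 * (e1 i + e2 i * x 1 + e3 i * x 1 ^ 2)) h = 0
    · rw [h5, mul_zero]
    · rw [hg _ h4 h5, zero_mul]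
  by_cases hφd : φ.degreeOf 0 = 0
  · -- `F (Q + t v) = 0` for all `t`
    exfalso
    obtain ⟨t, ht⟩ := hline
    apply ht
    have h4 : aeval (![t, y] : Fin 2 → L) φ = 0 := by rw [indep0 hφd t y]; exact hφ0
    have h5 : aeval (![t, y] : Fin 2 → L) f = 0 := by
      rw [he, hη, map_mul, map_mul, map_mul, map_mul, h4]
      simp
    rw [hf, aeval_sb] at h5
    exact h5
  · obtain ⟨κ', hκ⟩ := dens hK hφi hφd hφ4 hz
    have h4 := d1z (g * h)
    rw [hκ, pderiv_mul, map_add, map_mul, map_mul, hφ0, zero_mul, add_zero] at h4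
    have h5 : aeval x0 κ' = 0 := (mul_eq_zero.1 h4).resolve_left hφ1
    have h6 : aeval x0 (pderiv 0 (aeval (sb Q e1 e2 e3) (g * h))) = 0 := by
      rw [hκ, pderiv_mul, map_add, map_mul, map_mul, hφ0, h5, zero_mul, mul_zero, add_zero]
    rw [d0, map_sum] at h6
    have h7 : ∀ i : Fin n, aeval x0 (aeval (sb Q e1 e2 e3) (pderiv i (g * h)) * pv e1 e2 e3 i) =
        algebraMap K L (eval Q h) * (algebraMap K L (grd g Q i) * v i) := by
      intro i
      rw [map_mul, evL, epv, pderiv_mul, map_add, map_mul, map_mul, hgQ, zero_mul, add_zero, grd, map_mul]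
      ring
    rw [Finset.sum_congr rfl fun i _ => h7 i, ← Finset.mul_sum] at h6
    refine (mul_eq_zero.1 h6).resolve_left ?_
    intro h8
    exact hh (inj (h8.trans (map_zero _).symm))

end Pool.Agent.H8.SB
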