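import Pool.Agent.H8.SB.Open
import Pool.Agent.H8.SB.Cub

/-!
# SB Min3: the condition `SmC` is open

Apply `exists_open` with `m = n`, `ι = Fin 3 ⊕ (Fin n × Fin n × Fin n)`: the forms `∑ i, C (∂_i F) * X i` (degree 1),
`∑ i j, C (∂_i ∂_j F) * (X i * X j)` (degree 2), `∑ i j k, C (∂_i ∂_j ∂_k F) * (X i * X j * X k)` (degree 3), and, for `(a, b, c)`, the
determinant (degree `0 + 1 + 2 = 3`) of the `3 × 3` matrix with the columns `a, b, c` of the matrix with the rows
`j ↦ C (∂_j F)`, `j ↦ ∑ i, C (∂_i ∂_j F) * X i`, `k ↦ ∑ i j, C (∂_i ∂_j ∂_k F) * (X i * X j)`.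
At `P`: if `v ≠ 0` is a zero of the first three forms, then by `SmC` the three rows over `L` are linearly independent (a relation
`a, b, c` of the rows is a relation for all `w`, since `d1 F P w`, `d2 F P v w`, `d3 F P v v w` are the dot products of the rows with `w`), so
some `3 × 3` minor is not `0` (the columns span `L^3`: choose three columns which are a basis).
At `Q` with `eval Q r ≠ 0`: if `v ≠ 0` is a zero of the first three forms, some minor is not `0`, so the rows are independent: `SmC L F Q`.
-/

set_option autoImplicit false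

open MvPolynomial Matrix

namespace Pool.Agent.H8.SB

open Pool.Agent.H8.SD

private noncomputable def row3 {K L : Type} [Field K] [Field L] [Algebra K L] {n : ℕ} (F : MvPolynomial (Fin n) K)
    (Q : Fin n → K) (v : Fin n → L) : Matrix (Fin 3) (Fin n) L :=
  ![fun j => algebraMap K L (eval Q (pderiv j F)),
    fun j => ∑ i, algebraMap K L (eval Q (pderiv i (pderiv j F))) * v i,
    fun k => ∑ i, ∑ j, algebraMap K L (eval Q (pderiv i (pderiv j (pderiv k F)))) * (v i * v j)]

private noncomputable def prow3 {K : Type} [Field K] {n : ℕ} (F : MvPolynomial (Fin n) K) :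
    Matrix (Fin 3) (Fin n) (MvPolynomial (Fin n) (MvPolynomial (Fin n) K)) :=
  ![fun j => C (pderiv j F),
    fun j => ∑ i, C (pderiv i (pderiv j F)) * X i,
    fun k => ∑ i, ∑ j, C (pderiv i (pderiv j (pderiv k F))) * (X i * X j)]

private theorem aeval_prow {K L : Type} [Field K] [Field L] [Algebra K L] {n : ℕ} (F : MvPolynomial (Fin n) K)
    (Q : Fin n → K) (v : Fin n → L) (s : Fin 3) (j : Fin n) :
    aeval v (map (eval Q) (prow3 F s j)) = row3 F Q v s j := by
  fin_cases s
  · simp [prow3, row3]
  · simp [prow3, row3]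
  · simp [prow3, row3]

private theorem prow_hom {K : Type} [Field K] {n : ℕ} (F : MvPolynomial (Fin n) K) (s : Fin 3) (j : Fin n) :
    (prow3 F s j).IsHomogeneous (s : ℕ) := by
  fin_cases s
  · exact isHomogeneous_C _ _
  · show (∑ i, C (pderiv i (pderiv j F)) * X i : MvPolynomial (Fin n) (MvPolynomial (Fin n) K)).IsHomogeneous 1
    refine IsHomogeneous.sum _ _ _ fun i _ => ?_
    have := (isHomogeneous_C (Fin n) (pderiv i (pderiv j F))).mul (isHomogeneous_X (MvPolynomial (Fin n) K) i)
    simpa using this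
  · show (∑ i, ∑ k, C (pderiv i (pderiv k (pderiv j F))) * (X i * X k) :
      MvPolynomial (Fin n) (MvPolynomial (Fin n) K)).IsHomogeneous 2
    refine IsHomogeneous.sum _ _ _ fun i _ => IsHomogeneous.sum _ _ _ fun k _ => ?_
    have := (isHomogeneous_C (Fin n) (pderiv i (pderiv k (pderiv j F)))).mul
      ((isHomogeneous_X (MvPolynomial (Fin n) K) i).mul (isHomogeneous_X (MvPolynomial (Fin n) K) k))
    simpa using this

private theorem d1_eq {K L : Type} [Field K] [Field L] [Algebra K L] {n : ℕ} (F : MvPolynomial (Fin n) K)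
    (Q : Fin n → K) (v w : Fin n → L) : ∑ j, row3 F Q v 0 j * w j = d1 F Q w := by
  simp [row3, d1]

private theorem d2_eq {K L : Type} [Field K] [Field L] [Algebra K L] {n : ℕ} (F : MvPolynomial (Fin n) K)
    (Q : Fin n → K) (v w : Fin n → L) : ∑ j, row3 F Q v 1 j * w j = d2 F Q v w := by
  simp only [row3, d2, Matrix.cons_val_one, Matrix.cons_val_zero, Finset.sum_mul]
  rw [Finset.sum_comm]
  refine Finset.sum_congr rfl fun i _ => Finset.sum_congr rfl fun j _ => ?_
  ring

private theorem d3_eq {K L : Type} [Field K] [Field L] [Algebra K L] {n : ℕ} (F : MvPolynomial (Fin n) K)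
    (Q : Fin n → K) (v w : Fin n → L) : ∑ j, row3 F Q v 2 j * w j = d3 F Q v v w := by
  simp only [row3, d3, Matrix.cons_val, Finset.sum_mul]
  rw [Finset.sum_comm]
  refine Finset.sum_congr rfl fun i _ => ?_
  rw [Finset.sum_comm]
  refine Finset.sum_congr rfl fun j _ => Finset.sum_congr rfl fun k _ => ?_
  ring

private theorem exists_minor {L : Type} [Field L] {n : ℕ} (R : Matrix (Fin 3) (Fin n) L)
    (h : ∀ a : Fin 3 → L, a ᵥ* R = 0 → a = 0) :
    ∃ c : Fin 3 → Fin n, (Matrix.of fun s t => R s (c t)).det ≠ 0 := by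
  have hli : LinearIndependent L R.row := by
    rw [Fintype.linearIndependent_iff]
    intro g hg
    have : g ᵥ* R = 0 := by
      rw [← hg]
      ext j
      simp [Matrix.vecMul, dotProduct, Matrix.row]
    have h2 := h g this
    intro i
    rw [h2]
    rfl
  have hrank : R.rank = 3 := by
    simpa using hli.rank_matrix
  have hspan : Submodule.span L (Set.range R.col) = ⊤ := by
    apply Submodule.eq_top_of_finrank_eq
    rw [← Matrix.rank_eq_finrank_span_cols, hrank]
    simp
  obtain ⟨κ, a, ha, hs, hl⟩ := exists_linearIndependent' L R.col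
  rw [hspan] at hs
  have hfin : Finite κ := Finite.of_injective a ha
  have := Fintype.ofFinite κ
  let b : Module.Basis κ L (Fin 3 → L) := Module.Basis.mk hl hs.ge
  have hcard : Fintype.card κ = 3 := by
    have := Module.finrank_eq_card_basis b
    simpa using this.symm
  let e : κ ≃ Fin 3 := Fintype.equivFinOfCardEq hcard
  refine ⟨fun t => a (e.symm t), ?_⟩
  have hl2 : LinearIndependent L (fun t => R.col (a (e.symm t))) := by
    have := hl.comp e.symm e.symm.injective
    exact this
  have hu : IsUnit (Matrix.of fun s t => R s (a (e.symm t))) := by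
    rw [← Matrix.linearIndependent_cols_iff_isUnit]
    exact hl2
  exact ((Matrix.isUnit_iff_isUnit_det _).1 hu).ne_zero

theorem exists_SmC_open {K L : Type} [Field K] [Field L] [Algebra K L] [IsAlgClosed L] {n : ℕ} {F : MvPolynomial (Fin n) K}
    {P : Fin n → K} (hS : SmC L F P) :
    ∃ r : MvPolynomial (Fin n) K, eval P r ≠ 0 ∧ ∀ Q : Fin n → K, eval Q r ≠ 0 → SmC L F Q := by
  let f : Fin 3 ⊕ (Fin 3 → Fin n) → MvPolynomial (Fin n) (MvPolynomial (Fin n) K) :=
    Sum.elim (fun s => ∑ j, prow3 F s j * X j) fun c => (Matrix.of fun s t => prow3 F s (c t)).det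
  let d : Fin 3 ⊕ (Fin 3 → Fin n) → ℕ := Sum.elim (fun s => (s : ℕ) + 1) fun _ => 3
  have hd : ∀ i, (f i).IsHomogeneous (d i) := by
    rintro (s | c)
    · exact IsHomogeneous.sum _ _ _ fun j _ => (prow_hom F s j).mul (isHomogeneous_X _ j)
    · show ((Matrix.of fun s t => prow3 F s (c t)).det).IsHomogeneous 3
      rw [Matrix.det_apply]
      refine IsHomogeneous.sum _ _ _ fun σ _ => ?_
      have h1 : (∏ i, (Matrix.of fun s t => prow3 F s (c t)) (σ i) i).IsHomogeneous (∑ i, ((σ i : Fin 3) : ℕ)) :=
        IsHomogeneous.prod _ _ _ fun i _ => prow_hom F (σ i) (c i)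
      have h2 : ∑ i, ((σ i : Fin 3) : ℕ) = 3 := by
        rw [Equiv.sum_comp σ (fun i : Fin 3 => (i : ℕ))]
        simp [Fin.sum_univ_succ]
      rw [h2] at h1
      rcases Int.units_eq_one_or (Equiv.Perm.sign σ) with h | h
      · rw [h, one_smul]; exact h1
      · rw [h, Units.neg_smul, one_smul]; exact h1.neg
  have hval1 : ∀ (Q : Fin n → K) (v : Fin n → L) (s : Fin 3),
      aeval v (map (eval Q) (f (Sum.inl s))) = ∑ j, row3 F Q v s j * v j := by
    intro Q v s
    show aeval v (map (eval Q) (∑ j, prow3 F s j * X j)) = _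
    rw [map_sum, map_sum]
    refine Finset.sum_congr rfl fun j _ => ?_
    rw [map_mul, map_mul, aeval_prow, map_X, aeval_X]
  have hval2 : ∀ (Q : Fin n → K) (v : Fin n → L) (c : Fin 3 → Fin n),
      aeval v (map (eval Q) (f (Sum.inr c))) = (Matrix.of fun s t => row3 F Q v s (c t)).det := by
    intro Q v c
    have := RingHom.map_det ((aeval v : MvPolynomial (Fin n) K →ₐ[K] L).toRingHom.comp (map (eval Q)))
      (Matrix.of fun s t => prow3 F s (c t))
    refine this.trans ?_
    congr 1
    ext s t
    exact aeval_prow F Q v s (c t)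
  obtain ⟨r, hr, hrQ⟩ := exists_open (L := L) f d hd P (by
    intro v hv
    by_contra hcon
    push Not at hcon
    have e1 : d1 F P v = 0 := by rw [← d1_eq F P v v, ← hval1]; exact hcon _
    have e2 : d2 F P v v = 0 := by rw [← d2_eq F P v v, ← hval1]; exact hcon _
    have e3 : d3 F P v v v = 0 := by rw [← d3_eq F P v v, ← hval1]; exact hcon _
    obtain ⟨c, hc⟩ := exists_minor (row3 F P v) (by
      intro a ha
      have h := hS v hv e1 e2 e3 (a 0) (a 1) (a 2) (by
        intro w
        rw [← d1_eq F P v w, ← d2_eq, ← d3_eq, Finset.mul_sum, Finset.mul_sum, Finset.mul_sum, ← Finset.sum_add_distrib,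
          ← Finset.sum_add_distrib]
        refine Finset.sum_eq_zero fun j _ => ?_
        have hj := congrFun ha j
        simp only [Matrix.vecMul, dotProduct, Fin.sum_univ_three, Pi.zero_apply] at hj
        linear_combination w j * hj)
      funext s
      fin_cases s
      · exact h.1
      · exact h.2.1
      · exact h.2.2)
    exact hc ((hval2 P v c).symm.trans (hcon _)))
  refine ⟨r, hr, fun Q hQ v hv e1 e2 e3 a b c hrel => ?_⟩
  obtain ⟨i, hi⟩ := hrQ Q hQ v hv
  rcases i with s | t
  · exfalso
    apply hi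
    rw [hval1]
    fin_cases s
    · exact (d1_eq F Q v v).trans e1
    · exact (d2_eq F Q v v).trans e2
    · exact (d3_eq F Q v v).trans e3
  · rw [hval2] at hi
    have hz : (![a, b, c] : Fin 3 → L) ᵥ* (Matrix.of fun s j => row3 F Q v s (t j)) = 0 := by
      funext j
      have h := hrel (Pi.single (t j) 1)
      rw [← d1_eq F Q v, ← d2_eq, ← d3_eq] at h
      simp only [Pi.single_apply, mul_ite, mul_one, mul_zero, Finset.sum_ite_eq', Finset.mem_univ, if_true] at h
      simp only [Matrix.vecMul, dotProduct, Fin.sum_univ_three, Pi.zero_apply, Matrix.of_apply]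
      simpa using h
    have h0 := Matrix.eq_zero_of_vecMul_eq_zero hi hz
    refine ⟨by simpa using congrFun h0 0, by simpa using congrFun h0 1, by simpa using congrFun h0 2⟩

end Pool.Agent.H8.SB
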