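import Pool.Agent.H8.SD.Defs

/-!
# SB Span3: the common zeros of a quadratic and a cubic form span (dimension at least 4)

PROOF.  Let `l ≠ 0`.
(i) There is `a` with `H a a = 0`, `l a ≠ 0`.  Otherwise take `x` with `l x = 1`; so `H x x ≠ 0`.  For `v ∈ ker l` the quadratic polynomial
`H (v + t x) (v + t x) = H v v + 2 t H v x + t ^ 2 H x x` has a root `t` in `K` (`Sol K`), then `l (v + t x) = t = 0`, so `H v v = 0`, and
`t = - 2 H v x / H x x` is also a root, so it is `0`: `H v x = 0`.  So (polarise) `H v v' = 0` for `v, v' ∈ ker l` and `H v x = 0`: `ker l` is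
in the radical of `H`.  `ker l` has dimension `≥ 3`; take independent `r, s ∈ ker l`; the binary cubic `C (r + t s)^3` has a zero (`C s s s = 0`
or a root `t`): `u ≠ 0` in the radical with `C u u u = 0`, against `hS` (`∃ z, H u z ≠ 0`).
(ii) `ker (H a)` has dimension `≥ 3`, so it contains `b, c` with `a, b, c` independent; `c` or some `b + t c` is isotropic: `u1`.  Put
`u = u1 - (l u1 / l a) • a`: `u ≠ 0`, `H u u = 0`, `H a u = 0`, `l u = 0`.
(iii) `C a a a ≠ 0` (otherwise `l a = 0` by `hl`).  The cubic polynomial `C (s a + u)^3` in `s` has a root `s ∈ K`; `s a + u` is isotropic, so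
`l (s a + u) = s l a = 0`, `s = 0`, `C u u u = 0`.  `hS` gives `z0` with `H u z0 ≠ 0` and `w0` with `H u w0 = 0`, `C u u w0 ≠ 0`.
`z' = z0 / H u z0`, `z = z' - (H z' z' / 2) • u`: `H u z = 1`, `H z z = 0`; `w = w0 - H w0 z • u`: `H w z = 0`, `H u w = 0`,
`C u u w = C u u w0 ≠ 0`.
(iv) For `y ∈ K`: `b(y) = u + y • w - (y ^ 2 / 2 * H w w) • z`,
`a(y) = a + (y * H a z) • w - (y * H a w) • z - (y ^ 2 / 2 * H w w * H a z) • z`; `H b b = 0`, `H a(y) a(y) = 0`, `H a(y) b(y) = 0`
(expand).  Let `l (a(y)) ≠ 0`.  Then `C (a(y))^3 ≠ 0` (`hl`), and every root `s ∈ K` of the cubic `C (s a(y) + b(y))^3` is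
`- l (b(y)) / l (a(y))`; the cubic splits over `K` (`Sol K`), so it is `C (a(y))^3 (s - root)^3`; at `s = 0`:
`l (a(y)) ^ 3 * C (b(y))^3 = C (a(y))^3 * l (b(y)) ^ 3`.  Both sides are polynomials in `y`; the identity (times `l (a(y))`) holds for all `y`, so
it is an identity of polynomials (`K` infinite, `l (a(y))` is not the zero polynomial as `l (a(0)) = l a ≠ 0`).  Coefficient of `y`: on the
left `(l a) ^ 3 * 3 * C u u w`, on the right `0` (since `l (b(0)) = l u = 0`).  Contradiction.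
-/

set_option autoImplicit false

namespace Pool.Agent.H8.SB

open Pool.Agent.H8.SD

private theorem sp_quad {K : Type} [Field K] (hK : Sol K) (a b c : K) (ha : a ≠ 0) :
    ∃ t : K, a * t ^ 2 + b * t + c = 0 := by
  have hd := Polynomial.natDegree_quadratic (a := a) (b := b) (c := c) ha
  obtain ⟨t, ht⟩ := hK _ (by rw [hd]; norm_num) (by rw [hd]; norm_num)
  refine ⟨t, ?_⟩
  simpa using ht

private theorem sp_cub {K : Type} [Field K] (hK : Sol K) (a b c d : K) (ha : a ≠ 0) :
    ∃ t : K, a * t ^ 3 + b * t ^ 2 + c * t + d = 0 := by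
  have hd := Polynomial.natDegree_cubic (a := a) (b := b) (c := c) (d := d) ha
  obtain ⟨t, ht⟩ := hK _ (by rw [hd]; norm_num) (by rw [hd]; norm_num)
  refine ⟨t, ?_⟩
  simpa using ht

/-- a cubic polynomial with only one root. -/
private theorem sp_unique {K : Type} [Field K] (hK : Sol K) {a b c d ρ : K} (ha : a ≠ 0)
    (h : ∀ s, a * s ^ 3 + b * s ^ 2 + c * s + d = 0 → s = ρ) : d = -(a * ρ ^ 3) := by
  obtain ⟨s, hs⟩ := sp_cub hK a b c d ha
  have e1 := h s hs
  rw [e1] at hs
  obtain ⟨s1, hs1⟩ := sp_quad hK a (b + a * ρ) (c + ρ * (b + a * ρ)) ha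
  have e2 : s1 = ρ := by
    apply h
    linear_combination (s1 - ρ) * hs1 + hs
  rw [e2] at hs1
  have e3 : -(b + 2 * a * ρ) / a = ρ := by
    apply h
    have h1 : a * (-(b + 2 * a * ρ) / a) + (b + 2 * a * ρ) = 0 := by
      field_simp
      ring
    generalize -(b + 2 * a * ρ) / a = x at h1 ⊢
    linear_combination (x - ρ) ^ 2 * h1 + (x - ρ) * hs1 + hs
  have e4 : -(b + 2 * a * ρ) = ρ * a := by
    rw [div_eq_iff ha] at e3
    exact e3
  linear_combination hs - ρ * hs1 - ρ ^ 2 * e4

private theorem sp_pair {K : Type} [Field K] {V : Type} [AddCommGroup V] [Module K V]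
    [FiniteDimensional K V] (hV : 4 ≤ Module.finrank K V) (f g : V →ₗ[K] K) :
    ∃ r s : V, (f r = 0 ∧ g r = 0) ∧ (f s = 0 ∧ g s = 0) ∧ s ≠ 0 ∧ ∀ t : K, r + t • s ≠ 0 := by
  set φ : V →ₗ[K] K × K := f.prod g with hφ
  have h1 := φ.finrank_range_add_finrank_ker
  have h2 : Module.finrank K (LinearMap.range φ) ≤ 2 := by
    have h3 := Submodule.finrank_le (LinearMap.range φ)
    rw [Module.finrank_prod, Module.finrank_self] at h3
    exact h3
  have h4 : 1 < Module.finrank K (LinearMap.ker φ) := by omega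
  have : Nontrivial (LinearMap.ker φ) := Module.nontrivial_of_finrank_pos (R := K) (by omega)
  obtain ⟨s, hs⟩ := exists_ne (0 : LinearMap.ker φ)
  obtain ⟨r, hr⟩ := exists_linearIndependent_pair_of_one_lt_finrank h4 hs
  have hmem : ∀ x : LinearMap.ker φ, f x = 0 ∧ g x = 0 := by
    intro x
    have h5 : (f.prod g) (x : V) = 0 := LinearMap.mem_ker.1 x.2
    exact ⟨congrArg Prod.fst h5, congrArg Prod.snd h5⟩
  refine ⟨r, s, hmem r, hmem s, ?_, ?_⟩
  · intro h
    exact hs (Subtype.ext h)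
  · intro t h
    have h6 : t • s + (1 : K) • r = 0 := by
      apply Subtype.ext
      rw [one_smul, add_comm]
      exact h
    have h7 := LinearIndependent.pair_iff.1 hr t 1 h6
    exact one_ne_zero h7.2

private theorem sp_exp {K : Type} [Field K] {V : Type} [AddCommGroup V] [Module K V]
    (C : V →ₗ[K] V →ₗ[K] V →ₗ[K] K) (hC1 : ∀ u v w, C u v w = C v u w) (hC2 : ∀ u v w, C u v w = C u w v)
    (s : K) (a u : V) : C (s • a + u) (s • a + u) (s • a + u)
      = C a a a * s ^ 3 + 3 * C a a u * s ^ 2 + 3 * C a u u * s + C u u u := by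
  have e1 : C a u a = C a a u := hC2 a u a
  have e2 : C u a a = C a a u := by rw [hC1 u a a, e1]
  have e3 : C u a u = C a u u := hC1 u a u
  have e4 : C u u a = C a u u := by rw [hC2 u u a, e3]
  simp only [map_add, map_smul, LinearMap.add_apply, LinearMap.smul_apply, smul_eq_mul]
  rw [e1, e2, e3, e4]
  ring

private theorem sp_exp3 {K : Type} [Field K] {V : Type} [AddCommGroup V] [Module K V]
    (C : V →ₗ[K] V →ₗ[K] V →ₗ[K] K) (hC1 : ∀ u v w, C u v w = C v u w) (hC2 : ∀ u v w, C u v w = C u w v)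
    (y : K) (u w z : V) :
    C (u + y • w + y ^ 2 • z) (u + y • w + y ^ 2 • z) (u + y • w + y ^ 2 • z)
      = C u u u + 3 * C u u w * y + y ^ 2 * (3 * (C u w w + C u u z) + y * (C w w w + 6 * C u w z)
        + y ^ 2 * (3 * (C w w z + C u z z)) + y ^ 3 * (3 * C w z z) + y ^ 4 * C z z z) := by
  have a1 : C u w u = C u u w := hC2 u w u
  have a2 : C w u u = C u u w := by rw [hC1 w u u, a1]
  have a3 : C u z u = C u u z := hC2 u z u
  have a4 : C z u u = C u u z := by rw [hC1 z u u, a3]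
  have a5 : C w u w = C u w w := hC1 w u w
  have a6 : C w w u = C u w w := by rw [hC2 w w u, a5]
  have a7 : C u z w = C u w z := hC2 u z w
  have a8 : C w u z = C u w z := hC1 w u z
  have a9 : C w z u = C u w z := by rw [hC2 w z u, a8]
  have a10 : C z u w = C u w z := by rw [hC1 z u w, a7]
  have a11 : C z w u = C u w z := by rw [hC2 z w u, a10]
  have a12 : C z u z = C u z z := hC1 z u z
  have a13 : C z z u = C u z z := by rw [hC2 z z u, a12]
  have a14 : C w z w = C w w z := hC2 w z w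
  have a15 : C z w w = C w w z := by rw [hC1 z w w, a14]
  have a16 : C z w z = C w z z := hC1 z w z
  have a17 : C z z w = C w z z := by rw [hC2 z z w, a16]
  simp only [map_add, map_smul, LinearMap.add_apply, LinearMap.smul_apply, smul_eq_mul]
  rw [a1, a2, a3, a4, a5, a6, a7, a8, a9, a10, a11, a12, a13, a14, a15, a16, a17]
  ring

private theorem sp_iso {K : Type} [Field K] {V : Type} [AddCommGroup V] [Module K V]
    (H : V →ₗ[K] V →ₗ[K] K) (hH : ∀ u v, H u v = H v u) (s : K) (a u : V) :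
    H (s • a + u) (s • a + u) = H a a * s ^ 2 + 2 * H a u * s + H u u := by
  simp only [map_add, map_smul, LinearMap.add_apply, LinearMap.smul_apply, smul_eq_mul]
  rw [hH u a]
  ring

/-- step (i) -/
private theorem sp_one {K : Type} [Field K] [CharZero K] (hK : Sol K) {V : Type} [AddCommGroup V] [Module K V]
    [FiniteDimensional K V] (hV : 4 ≤ Module.finrank K V) (H : V →ₗ[K] V →ₗ[K] K) (hH : ∀ u v, H u v = H v u)
    (C : V →ₗ[K] V →ₗ[K] V →ₗ[K] K) (hC1 : ∀ u v w, C u v w = C v u w) (hC2 : ∀ u v w, C u v w = C u w v)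
    (hS : ∀ u, u ≠ 0 → H u u = 0 → C u u u = 0 → ∃ z, H u z ≠ 0)
    (l : V →ₗ[K] K) (hl0 : l ≠ 0) : ∃ a, H a a = 0 ∧ l a ≠ 0 := by
  by_contra hcon
  push Not at hcon
  obtain ⟨x0, hx0⟩ : ∃ x0, l x0 ≠ 0 := by
    by_contra h
    push Not at h
    exact hl0 (LinearMap.ext h)
  set x : V := (l x0)⁻¹ • x0 with hx
  have hlx : l x = 1 := by rw [hx, map_smul, smul_eq_mul, inv_mul_cancel₀ hx0]
  have hHx : H x x ≠ 0 := by
    intro h
    rw [hcon x h] at hlx
    exact zero_ne_one hlx
  have hroot : ∀ v, l v = 0 → ∀ t : K, H x x * t ^ 2 + 2 * H v x * t + H v v = 0 → t = 0 := by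
    intro v hv t ht
    have h1 : H (t • x + v) (t • x + v) = 0 := by
      rw [sp_iso H hH, hH x v]
      exact ht
    have h2 := hcon _ h1
    rw [map_add, map_smul, hlx, hv, smul_eq_mul, mul_one, add_zero] at h2
    exact h2
  have hker : ∀ v, l v = 0 → H v v = 0 ∧ H v x = 0 := by
    intro v hv
    obtain ⟨t, ht⟩ := sp_quad hK (H x x) (2 * H v x) (H v v) hHx
    have h1 := hroot v hv t ht
    rw [h1] at ht
    have h2 : H v v = 0 := by linear_combination ht
    refine ⟨h2, ?_⟩
    have h3 := hroot v hv (-(2 * H v x) / H x x) (by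
      rw [h2]
      field_simp
      ring)
    rw [div_eq_zero_iff, neg_eq_zero] at h3
    rcases h3 with h3 | h3
    · rcases mul_eq_zero.1 h3 with h4 | h4
      · exact absurd h4 two_ne_zero
      · exact h4
    · exact absurd h3 hHx
  have hrad : ∀ v, l v = 0 → ∀ z, H v z = 0 := by
    intro v hv z
    have hz : l (z - l z • x) = 0 := by
      rw [map_sub, map_smul, hlx, smul_eq_mul, mul_one, sub_self]
    have hpol : H v (z - l z • x) = 0 := by
      set z' := z - l z • x with hz'
      have h1 := (hker (v + z') (by rw [map_add, hv, hz, add_zero])).1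
      simp only [map_add, LinearMap.add_apply] at h1
      rw [(hker v hv).1, (hker z' hz).1, hH z' v] at h1
      have h2 : (2 : K) * H v z' = 0 := by linear_combination h1
      rcases mul_eq_zero.1 h2 with h4 | h4
      · exact absurd h4 two_ne_zero
      · exact h4
    rw [map_sub, map_smul, (hker v hv).2, smul_zero, sub_zero] at hpol
    exact hpol
  obtain ⟨r, s, hr, hs, hs0, hrs⟩ := sp_pair hV l l
  obtain ⟨u, hu0, hlu, hCu⟩ : ∃ u, u ≠ 0 ∧ l u = 0 ∧ C u u u = 0 := by
    by_cases hss : C s s s = 0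
    · exact ⟨s, hs0, hs.1, hss⟩
    · obtain ⟨t, ht⟩ := sp_cub hK (C s s s) (3 * C s s r) (3 * C s r r) (C r r r) hss
      refine ⟨t • s + r, ?_, ?_, ?_⟩
      · rw [add_comm]
        exact hrs t
      · rw [map_add, map_smul, hs.1, hr.1, smul_zero, add_zero]
      · rw [sp_exp C hC1 hC2]
        exact ht
  obtain ⟨z, hz⟩ := hS u hu0 (hrad u hlu u) hCu
  exact hz (hrad u hlu z)

/-- the cubic form along a quadratic curve is a polynomial. -/
private theorem sp_poly {K : Type} [Field K] {V : Type} [AddCommGroup V] [Module K V]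
    (C : V →ₗ[K] V →ₗ[K] V →ₗ[K] K) (hC1 : ∀ u v w, C u v w = C v u w) (hC2 : ∀ u v w, C u v w = C u w v)
    (u w z : V) : ∃ P G : Polynomial K, ∀ y : K,
      C (u + y • w + y ^ 2 • z) (u + y • w + y ^ 2 • z) (u + y • w + y ^ 2 • z) = P.eval y ∧
      P.eval y = C u u u + 3 * C u u w * y + y ^ 2 * G.eval y := by
  set G : Polynomial K := Polynomial.C (3 * (C u w w + C u u z)) + Polynomial.X * Polynomial.C (C w w w + 6 * C u w z)
        + Polynomial.X ^ 2 * Polynomial.C (3 * (C w w z + C u z z)) + Polynomial.X ^ 3 * Polynomial.C (3 * C w z z)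
        + Polynomial.X ^ 4 * Polynomial.C (C z z z) with hG
  refine ⟨Polynomial.C (C u u u) + Polynomial.C (3 * C u u w) * Polynomial.X + Polynomial.X ^ 2 * G, G,
    fun y => ⟨?_, ?_⟩⟩
  · rw [sp_exp3 C hC1 hC2, hG]
    simp only [Polynomial.eval_add, Polynomial.eval_mul, Polynomial.eval_pow, Polynomial.eval_X,
      Polynomial.eval_C]
  · simp only [Polynomial.eval_add, Polynomial.eval_mul, Polynomial.eval_pow, Polynomial.eval_X,
      Polynomial.eval_C]

/-- step (iv) -/
private theorem sp_four {K : Type} [Field K] [CharZero K] (hK : Sol K) {V : Type} [AddCommGroup V] [Module K V]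
    (H : V →ₗ[K] V →ₗ[K] K) (hH : ∀ u v, H u v = H v u)
    (C : V →ₗ[K] V →ₗ[K] V →ₗ[K] K) (hC1 : ∀ u v w, C u v w = C v u w) (hC2 : ∀ u v w, C u v w = C u w v)
    (l : V →ₗ[K] K) (hl : ∀ u, H u u = 0 → C u u u = 0 → l u = 0) {a u w z : V}
    (haa : H a a = 0) (hau : H a u = 0) (huu : H u u = 0) (huw : H u w = 0) (hwz : H w z = 0)
    (hzz : H z z = 0) (huz : H u z = 1) (hla : l a ≠ 0) (hlu : l u = 0) (hCu : C u u u = 0)
    (hCw : C u u w ≠ 0) : False := by
  set p : K := H a z with hp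
  set r : K := H a w with hr
  set q : K := H w w with hq
  have hua : H u a = 0 := by rw [hH, hau]
  have hwu : H w u = 0 := by rw [hH, huw]
  have hzw : H z w = 0 := by rw [hH, hwz]
  have hzu : H z u = 1 := by rw [hH, huz]
  have hza : H z a = p := by rw [hH, hp]
  have hwa : H w a = r := by rw [hH, hr]
  set w1 : V := p • w - r • z with hw1
  set z1 : V := -((q * p / 2) • z) with hz1
  set z2 : V := -((q / 2) • z) with hz2
  have hAA : ∀ y : K, H (a + y • w1 + y ^ 2 • z1) (a + y • w1 + y ^ 2 • z1) = 0 := by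
    intro y
    simp only [hw1, hz1, map_add, map_sub, map_neg, map_smul, LinearMap.add_apply, LinearMap.sub_apply,
      LinearMap.neg_apply, LinearMap.smul_apply, smul_eq_mul]
    rw [haa, ← hp, ← hr, ← hq, hwz, hzz, hzw, hza, hwa]
    ring
  have hBB : ∀ y : K, H (u + y • w + y ^ 2 • z2) (u + y • w + y ^ 2 • z2) = 0 := by
    intro y
    simp only [hz2, map_add, map_neg, map_smul, LinearMap.add_apply,
      LinearMap.neg_apply, LinearMap.smul_apply, smul_eq_mul]
    rw [huu, huw, hwu, huz, hzu, ← hq, hwz, hzz, hzw]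
    ring
  have hAB : ∀ y : K, H (a + y • w1 + y ^ 2 • z1) (u + y • w + y ^ 2 • z2) = 0 := by
    intro y
    simp only [hw1, hz1, hz2, map_add, map_sub, map_neg, map_smul, LinearMap.add_apply, LinearMap.sub_apply,
      LinearMap.neg_apply, LinearMap.smul_apply, smul_eq_mul]
    rw [hau, hwu, hzu, ← hp, ← hr, ← hq, hwz, hzz, hzw]
    ring
  obtain ⟨PA, GA, hPA⟩ := sp_poly C hC1 hC2 a w1 z1
  obtain ⟨PB, G, hPB⟩ := sp_poly C hC1 hC2 u w z2
  have hid : ∀ y : K, l (a + y • w1 + y ^ 2 • z1) ≠ 0 →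
      l (a + y • w1 + y ^ 2 • z1) ^ 3 * PB.eval y = PA.eval y * l (u + y • w + y ^ 2 • z2) ^ 3 := by
    intro y hy
    rw [← (hPA y).1, ← (hPB y).1]
    set A := a + y • w1 + y ^ 2 • z1 with hA
    set B := u + y • w + y ^ 2 • z2 with hB
    have hC : C A A A ≠ 0 := fun h => hy (hl A (hAA y) h)
    have h1 := sp_unique hK (ρ := -(l B) / l A) (b := 3 * C A A B) (c := 3 * C A B B)
      (d := C B B B) hC (by
        intro s hs
        have h2 : l (s • A + B) = 0 := by
          apply hl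
          · rw [sp_iso H hH, hAA y, hAB y, hBB y]
            ring
          · rw [sp_exp C hC1 hC2]
            exact hs
        rw [map_add, map_smul, smul_eq_mul] at h2
        rw [eq_div_iff hy]
        linear_combination h2)
    rw [h1]
    field_simp
  set LA : Polynomial K := Polynomial.C (l a) + Polynomial.X * Polynomial.C (l w1)
    + Polynomial.X ^ 2 * Polynomial.C (l z1) with hLA
  set h : Polynomial K := Polynomial.C (l w) + Polynomial.X * Polynomial.C (l z2) with hh
  have eA : ∀ y : K, l (a + y • w1 + y ^ 2 • z1) = LA.eval y := by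
    intro y
    rw [hLA]
    simp only [Polynomial.eval_add, Polynomial.eval_mul, Polynomial.eval_pow, Polynomial.eval_X,
      Polynomial.eval_C, map_add, map_smul, smul_eq_mul]
  have eB : ∀ y : K, l (u + y • w + y ^ 2 • z2) = y * h.eval y := by
    intro y
    rw [hh]
    simp only [Polynomial.eval_add, Polynomial.eval_mul, Polynomial.eval_X,
      Polynomial.eval_C, map_add, map_smul, smul_eq_mul, hlu]
    ring
  have : Infinite K := Infinite.of_injective (Nat.cast : ℕ → K) Nat.cast_injective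
  have hS : (LA ^ 3 * (Polynomial.C (3 * C u u w) + Polynomial.X * G) - PA * Polynomial.X ^ 2 * h ^ 3)
      * (LA * Polynomial.X) = 0 := by
    apply Polynomial.funext
    intro y
    simp only [Polynomial.eval_add, Polynomial.eval_sub, Polynomial.eval_mul, Polynomial.eval_pow, Polynomial.eval_X,
      Polynomial.eval_C, Polynomial.eval_zero]
    by_cases hy : LA.eval y = 0
    · rw [hy]
      ring
    · have h1 := hid y (by rw [eA]; exact hy)
      rw [eA, eB, (hPB y).2, hCu] at h1
      linear_combination LA.eval y * h1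
  have hLA0 : LA.eval 0 = l a := by
    rw [hLA]
    simp
  have hLAne : LA ≠ 0 := by
    intro h0
    rw [h0, Polynomial.eval_zero] at hLA0
    exact hla hLA0.symm
  have h2 := (mul_eq_zero.1 hS).resolve_right (mul_ne_zero hLAne Polynomial.X_ne_zero)
  have h3 := congrArg (Polynomial.eval 0) h2
  simp only [Polynomial.eval_add, Polynomial.eval_sub, Polynomial.eval_mul, Polynomial.eval_pow, Polynomial.eval_X,
      Polynomial.eval_C, Polynomial.eval_zero, hLA0] at h3
  have h4 : l a ^ 3 * (3 * C u u w) = 0 := by linear_combination h3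
  rcases mul_eq_zero.1 h4 with h5 | h5
  · exact hla (pow_eq_zero_iff (by norm_num) |>.1 h5)
  · rcases mul_eq_zero.1 h5 with h6 | h6
    · exact absurd h6 three_ne_zero
    · exact hCw h6

theorem span_three {K : Type} [Field K] [CharZero K] (hK : Sol K) {V : Type} [AddCommGroup V] [Module K V] [FiniteDimensional K V]
    (hV : 4 ≤ Module.finrank K V) (H : V →ₗ[K] V →ₗ[K] K) (hH : ∀ u v, H u v = H v u)
    (C : V →ₗ[K] V →ₗ[K] V →ₗ[K] K) (hC1 : ∀ u v w, C u v w = C v u w) (hC2 : ∀ u v w, C u v w = C u w v)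
    (hS : ∀ u, u ≠ 0 → H u u = 0 → C u u u = 0 → (∃ z, H u z ≠ 0) ∧ ∃ w, H u w = 0 ∧ C u u w ≠ 0)
    (l : V →ₗ[K] K) (hl : ∀ u, H u u = 0 → C u u u = 0 → l u = 0) : l = 0 := by
  by_contra hl0
  obtain ⟨a, haa, hla⟩ := sp_one hK hV H hH C hC1 hC2 (fun u h1 h2 h3 => (hS u h1 h2 h3).1) l hl0
  obtain ⟨r, s, hr, hs, hs0, hrs⟩ := sp_pair hV (H a) l
  obtain ⟨u, hu0, hau, hlu, huu⟩ : ∃ u, u ≠ 0 ∧ H a u = 0 ∧ l u = 0 ∧ H u u = 0 := by
    by_cases hss : H s s = 0
    · exact ⟨s, hs0, hs.1, hs.2, hss⟩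
    · obtain ⟨t, ht⟩ := sp_quad hK (H s s) (2 * H s r) (H r r) hss
      refine ⟨t • s + r, ?_, ?_, ?_, ?_⟩
      · rw [add_comm]
        exact hrs t
      · rw [map_add, map_smul, hs.1, hr.1, smul_zero, add_zero]
      · rw [map_add, map_smul, hs.2, hr.2, smul_zero, add_zero]
      · rw [sp_iso H hH]
        exact ht
  have hCa : C a a a ≠ 0 := fun h => hla (hl a haa h)
  have hCu : C u u u = 0 := by
    obtain ⟨t, ht⟩ := sp_cub hK (C a a a) (3 * C a a u) (3 * C a u u) (C u u u) hCa
    have h1 : l (t • a + u) = 0 := by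
      apply hl
      · rw [sp_iso H hH, haa, hau, huu]
        ring
      · rw [sp_exp C hC1 hC2]
        exact ht
    rw [map_add, map_smul, hlu, add_zero, smul_eq_mul] at h1
    have h2 : t = 0 := (mul_eq_zero.1 h1).resolve_right hla
    rw [h2] at ht
    linear_combination ht
  obtain ⟨⟨z0, hz0⟩, w0, hw0, hCw0⟩ := hS u hu0 huu hCu
  obtain ⟨z', huz'⟩ : ∃ z', H u z' = 1 :=
    ⟨(H u z0)⁻¹ • z0, by rw [map_smul, smul_eq_mul, inv_mul_cancel₀ hz0]⟩
  have hz'u : H z' u = 1 := by rw [hH, huz']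
  obtain ⟨z, hz⟩ : ∃ z, z = z' - (H z' z' / 2) • u := ⟨_, rfl⟩
  have huz : H u z = 1 := by rw [hz, map_sub, map_smul, huu, huz', smul_zero, sub_zero]
  have hzz : H z z = 0 := by
    simp only [hz, map_sub, map_smul, LinearMap.sub_apply, LinearMap.smul_apply, smul_eq_mul]
    rw [huu, huz', hz'u]
    ring
  obtain ⟨w, hw⟩ : ∃ w, w = w0 - (H w0 z) • u := ⟨_, rfl⟩
  have hwz : H w z = 0 := by
    rw [hw, map_sub, map_smul, LinearMap.sub_apply, LinearMap.smul_apply, huz, smul_eq_mul, mul_one,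
      sub_self]
  have huw : H u w = 0 := by rw [hw, map_sub, map_smul, huu, hw0, smul_zero, sub_zero]
  have hCw : C u u w ≠ 0 := by
    rw [hw, map_sub, map_smul, hCu, smul_zero, sub_zero]
    exact hCw0
  exact sp_four hK H hH C hC1 hC2 l hl haa hau huu huw hwz hzz huz hla hlu hCu hCw

end Pool.Agent.H8.SB
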