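import Pool.Agent.H8.SB.Tan
import Pool.Agent.H8.SB.Loc3
import Pool.Agent.H8.SB.Span3
import Pool.Agent.H8.SB.Min3

/-!
# SB MainB: hypersurfaces of degree at most 7, a point at which the second and third fundamental forms define a smooth complete intersection
-/

set_option autoImplicit false

open MvPolynomial Matrix

namespace Pool.Agent.H8.SB

open Pool.Agent.H8.SD

section
variable {K : Type} [Field K] {n : ℕ}

theorem cub_symm (F : MvPolynomial (Fin n) K) (Q u v w : Fin n → K) : cub F Q u v w = cub F Q v u w := by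
  unfold cub
  rw [Finset.sum_comm]
  refine Finset.sum_congr rfl fun j _ => Finset.sum_congr rfl fun i _ => Finset.sum_congr rfl fun k _ => ?_
  rw [pderiv_comm (pderiv k F) i j]
  ring

theorem cub_symm' (F : MvPolynomial (Fin n) K) (Q u v w : Fin n → K) : cub F Q u v w = cub F Q u w v := by
  unfold cub
  refine Finset.sum_congr rfl fun i _ => ?_
  rw [Finset.sum_comm]
  refine Finset.sum_congr rfl fun k _ => Finset.sum_congr rfl fun j _ => ?_
  rw [pderiv_comm F j k]
  ring

theorem cub_add (F : MvPolynomial (Fin n) K) (Q u u' v w : Fin n → K) :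
    cub F Q (u + u') v w = cub F Q u v w + cub F Q u' v w := by
  unfold cub
  simp only [← Finset.sum_add_distrib]
  refine Finset.sum_congr rfl fun i _ => Finset.sum_congr rfl fun j _ => Finset.sum_congr rfl fun k _ => ?_
  rw [Pi.add_apply]
  ring

theorem cub_smul (F : MvPolynomial (Fin n) K) (Q u v w : Fin n → K) (s : K) :
    cub F Q (s • u) v w = s * cub F Q u v w := by
  unfold cub
  simp only [Finset.mul_sum]
  refine Finset.sum_congr rfl fun i _ => Finset.sum_congr rfl fun j _ => Finset.sum_congr rfl fun k _ => ?_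
  rw [Pi.smul_apply, smul_eq_mul]
  ring

theorem cub_add2 (F : MvPolynomial (Fin n) K) (Q u v v' w : Fin n → K) :
    cub F Q u (v + v') w = cub F Q u v w + cub F Q u v' w := by
  rw [cub_symm, cub_add, cub_symm F Q v u w, cub_symm F Q v' u w]

theorem cub_smul2 (F : MvPolynomial (Fin n) K) (Q u v w : Fin n → K) (s : K) :
    cub F Q u (s • v) w = s * cub F Q u v w := by
  rw [cub_symm, cub_smul, cub_symm F Q v u w]

theorem cub_add3 (F : MvPolynomial (Fin n) K) (Q u v w w' : Fin n → K) :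
    cub F Q u v (w + w') = cub F Q u v w + cub F Q u v w' := by
  rw [cub_symm', cub_add2, cub_symm' F Q u w v, cub_symm' F Q u w' v]

theorem cub_smul3 (F : MvPolynomial (Fin n) K) (Q u v w : Fin n → K) (s : K) :
    cub F Q u v (s • w) = s * cub F Q u v w := by
  rw [cub_symm', cub_smul2, cub_symm' F Q u w v]

/-- the third derivative as a trilinear form on a subspace -/
noncomputable def cubT (F : MvPolynomial (Fin n) K) (Q : Fin n → K) (T : Submodule K (Fin n → K)) :
    T →ₗ[K] T →ₗ[K] T →ₗ[K] K :=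
  LinearMap.mk₂ K
    (fun u v => { toFun := fun w => cub F Q u.1 v.1 w.1
                  map_add' := fun w w' => cub_add3 F Q u.1 v.1 w.1 w'.1
                  map_smul' := fun s w => cub_smul3 F Q u.1 v.1 w.1 s })
    (fun u u' v => LinearMap.ext fun w => cub_add F Q u.1 u'.1 v.1 w.1)
    (fun s u v => LinearMap.ext fun w => cub_smul F Q u.1 v.1 w.1 s)
    (fun u v v' => LinearMap.ext fun w => cub_add2 F Q u.1 v.1 v'.1 w.1)
    (fun s u v => LinearMap.ext fun w => cub_smul2 F Q u.1 v.1 w.1 s)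

theorem cubT_apply (F : MvPolynomial (Fin n) K) (Q : Fin n → K) (T : Submodule K (Fin n → K)) (u v w : T) :
    cubT F Q T u v w = cub F Q u.1 v.1 w.1 := rfl

theorem hesB_apply (F : MvPolynomial (Fin n) K) (Q : Fin n → K) (T : Submodule K (Fin n → K)) (u v : T) :
    hesB F Q T u v = hes F Q u.1 v.1 := rfl

end

/-- every tangent vector `u` with `H(u,u) = C(u,u,u) = 0` is killed by the differential of `g` -/
theorem loc_zero {K L : Type} [Field K] [CharZero K] [Field L] [Algebra K L] (hK : Sol K) {n : ℕ}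
    {F : MvPolynomial (Fin n) K} (hF : F.totalDegree ≤ 7)
    {g h : MvPolynomial (Fin n) K} {Q : Fin n → K} (hQ : eval Q F = 0) (hh : eval Q h ≠ 0)
    (hg : ∀ x, eval x F = 0 → eval x h ≠ 0 → eval x g = 0) (hS : SmC L F Q) {u : Fin n → K} (hu : grd F Q ⬝ᵥ u = 0)
    (huu : hes F Q u u = 0) (h0 : cub F Q u u u = 0) : grd g Q ⬝ᵥ u = 0 := by
  by_cases hu0 : u = 0
  · rw [hu0, dotProduct_zero]
  obtain ⟨⟨z0, hz0, hz1⟩, w0, hw0, hw1, hw2⟩ := exists_of_SmC hS hu0 hu huu h0
  -- normalise `z0`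
  obtain ⟨z1, hz1d⟩ : ∃ z1 : Fin n → K, z1 = (hes F Q u z0)⁻¹ • z0 := ⟨_, rfl⟩
  have a1 : hes F Q u z1 = 1 := by rw [hz1d, hes_smul_right, inv_mul_cancel₀ hz1]
  have a2 : grd F Q ⬝ᵥ z1 = 0 := by rw [hz1d, dotProduct_smul, hz0, smul_zero]
  obtain ⟨z, hzd⟩ : ∃ z : Fin n → K, z = z1 + (-(hes F Q z1 z1 / 2)) • u := ⟨_, rfl⟩
  have b1 : hes F Q u z = 1 := by rw [hzd, hes_add_right, hes_smul_right, huu, a1]; ring
  have b2 : grd F Q ⬝ᵥ z = 0 := by rw [hzd, dotProduct_add, dotProduct_smul, a2, hu]; simp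
  have b3 : hes F Q z z = 0 := by
    have h3 : hes F Q z1 u = 1 := by rw [hes_symm, a1]
    rw [hzd, hes_add_right, hes_add_left, hes_smul_right, hes_add_left, hes_smul_left, hes_smul_left, huu, h3, a1]
    ring
  obtain ⟨w, hwd⟩ : ∃ w : Fin n → K, w = w0 + (-(hes F Q w0 z)) • u := ⟨_, rfl⟩
  have c1 : hes F Q w z = 0 := by rw [hwd, hes_add_left, hes_smul_left, b1]; ring
  have c2 : hes F Q u w = 0 := by rw [hwd, hes_add_right, hes_smul_right, huu, hw1]; ring
  have c3 : grd F Q ⬝ᵥ w = 0 := by rw [hwd, dotProduct_add, dotProduct_smul, hw0, hu]; simp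
  have c4 : cub F Q u u w ≠ 0 := by rw [hwd, cub_add3, cub_smul3, h0, mul_zero, add_zero]; exact hw2
  exact loc_three hK hF hQ hh hg hu c3 b2 huu c2 b1 c1 b3 h0 c4

theorem main_seven {K L : Type} [Field K] [CharZero K] [Field L] [Algebra K L] [IsAlgClosed L] (hK : Sol K) {n : ℕ} (hn : 4 ≤ n)
    {F : MvPolynomial (Fin (n + 1)) K} (hF : F.totalDegree ≤ 7) (hirr : Irreducible F) {P : Fin (n + 1) → K} (hP : eval P F = 0)
    (hgr : grd F P ≠ 0) (hS : SmC L F P)
    {G : MvPolynomial (Fin (n + 1)) K} (hG : ∀ x, eval x F = 0 → eval x G = 0) : F ∣ G := by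
  obtain ⟨c, hc⟩ := Function.ne_iff.1 hgr
  obtain ⟨r, hr, hrS⟩ := exists_SmC_open (L := L) hS
  have hc' : eval P (pderiv c F) ≠ 0 := hc
  set h : MvPolynomial (Fin (n + 1)) K := pderiv c F * r with hh
  refine dvd_of_tangent hirr (U := {Q | eval Q F = 0 ∧ eval Q h ≠ 0}) (fun Q hQ => hQ.1) (P := P)
    ⟨hP, by rw [hh, map_mul]; exact mul_ne_zero hc' hr⟩ c (fun Q hQ => ?_) (fun g hg Q hQ u hu => ?_) (fun Q hQ => hG Q hQ.1)
  · have h1 := hQ.2
    rw [hh, map_mul] at h1
    exact left_ne_zero_of_mul h1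
  · have h1 := hQ.2
    rw [hh, map_mul] at h1
    have hQc : eval Q (pderiv c F) ≠ 0 := left_ne_zero_of_mul h1
    have hSQ : SmC L F Q := hrS Q (right_ne_zero_of_mul h1)
    let T : Submodule K (Fin (n + 1) → K) := LinearMap.ker (dot (grd F Q))
    have hT : ∀ v, v ∈ T ↔ grd F Q ⬝ᵥ v = 0 := fun v => LinearMap.mem_ker
    have hfr : 4 ≤ Module.finrank K T := by
      have h2 := LinearMap.finrank_range_add_finrank_ker (dot (grd F Q))
      have h3 : Module.finrank K (LinearMap.range (dot (grd F Q))) ≤ 1 := by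
        have := Submodule.finrank_le (LinearMap.range (dot (grd F Q)))
        rwa [Module.finrank_self] at this
      rw [Module.finrank_fintype_fun_eq_card, Fintype.card_fin] at h2
      have h4 : Module.finrank K T = Module.finrank K (LinearMap.ker (dot (grd F Q))) := rfl
      omega
    have hs := span_three hK hfr (hesB F Q T) (fun u v => hes_symm F Q u.1 v.1) (cubT F Q T)
      (fun u v w => cub_symm F Q u.1 v.1 w.1) (fun u v w => cub_symm' F Q u.1 v.1 w.1)
      (fun v hv0 hv1 hv2 => ?_) ((dot (grd g Q)).comp T.subtype) (fun v hv1 hv2 => ?_)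
    · have h5 := LinearMap.congr_fun hs ⟨u, (hT _).2 hu⟩
      exact h5
    · rw [hesB_apply] at hv1
      rw [cubT_apply] at hv2
      obtain ⟨⟨z, hz, hz1⟩, w, hw, hw1, hw2⟩ := exists_of_SmC hSQ (fun h => hv0 (Subtype.ext h)) ((hT _).1 v.2) hv1 hv2
      exact ⟨⟨⟨z, (hT _).2 hz⟩, hz1⟩, ⟨w, (hT _).2 hw⟩, hw1, hw2⟩
    · exact loc_zero (L := L) hK hF hQ.1 hQ.2 (fun x hx1 hx2 => hg x ⟨hx1, hx2⟩) hSQ ((hT _).1 v.2) hv1 hv2

end Pool.Agent.H8.SB
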