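import Pool.Agent.H8.SB.Open

/-!
# SB NoLine: `no line through P is contained in F = 0` is an open condition

Apply `exists_open` with `m = n`, `ι = Fin (N + 1)` (`N = F.totalDegree`), `f j = homogeneousComponent j τ`,
`τ = aeval (fun i => C (X i) + X i) F : MvPolynomial (Fin n) (MvPolynomial (Fin n) K)` (that is `F (x + v)`), for `j ≥ 1` (take for `j = 0` the
polynomial `0`, or `ι = Fin N`, `j + 1`).  `map (eval Q) τ = aeval (fun i => C (Q i) + X i) F` and
`aeval (Q + t v) F = ∑ j, t ^ j * aeval v (map (eval Q) (homogeneousComponent j τ))` (value of the homogeneous component at `t v`;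
`∑ homogeneousComponent = τ`, `totalDegree τ ≤ N` in `v`), the `j = 0` term is `algebraMap (eval Q F)`.
At `P`: if all `f j`, `j ≥ 1`, vanish at `(P, v)`, then `F (P + t v) = F(P) = 0` for all `t`.  At `Q`: if `f j` does not vanish at `(Q, v)` for some
`j ≥ 1`, then the polynomial `F (Q + t v)` in `t` over `L` is not zero, so it has a non-zero value (`L` is infinite).
-/

set_option autoImplicit false

open MvPolynomial

namespace Pool.Agent.H8.SB

private theorem aeval_smul_hom {K L : Type} [Field K] [Field L] [Algebra K L] {n j : ℕ} {p : MvPolynomial (Fin n) K} (hp : p.IsHomogeneous j)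
    (v : Fin n → L) (t : L) : aeval (fun i => t * v i) p = t ^ j * aeval v p := by
  rw [aeval_def, eval₂_eq', aeval_def, eval₂_eq', Finset.mul_sum]
  refine Finset.sum_congr rfl fun d hd => ?_
  have hd' : ∑ i, d i = j := by
    rw [← hp (mem_support_iff.mp hd)]
    simp [Finsupp.weight_apply, Finsupp.sum_fintype]
  simp only [mul_pow]
  rw [Finset.prod_mul_distrib, Finset.prod_pow_eq_pow_sum, hd']
  ring

/-- `F (x + v)` -/
private noncomputable def tau {K : Type} [Field K] {n : ℕ} (F : MvPolynomial (Fin n) K) : MvPolynomial (Fin n) (MvPolynomial (Fin n) K) :=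
  aeval (fun i => C (X i) + X i) F

private theorem map_tau {K L : Type} [Field K] [Field L] [Algebra K L] {n : ℕ} (F : MvPolynomial (Fin n) K) (Q : Fin n → K) (w : Fin n → L) :
    aeval w (map (eval Q) (tau F)) = aeval (fun i => algebraMap K L (Q i) + w i) F := by
  unfold tau
  induction F using MvPolynomial.induction_on with
  | C a =>
    rw [aeval_C, aeval_C, IsScalarTower.algebraMap_apply K (MvPolynomial (Fin n) K) (MvPolynomial (Fin n) (MvPolynomial (Fin n) K)),
      algebraMap_eq, algebraMap_eq, map_C, eval_C, aeval_C]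
  | add p q hp hq => rw [map_add, map_add, map_add, map_add, hp, hq]
  | mul_X p i hp =>
    rw [map_mul, map_mul, map_mul, map_mul, hp, aeval_X, aeval_X, map_add, map_C, eval_X, map_X, map_add, aeval_C, aeval_X]

private theorem aeval_line {K L : Type} [Field K] [Field L] [Algebra K L] {n : ℕ} (F : MvPolynomial (Fin n) K) (Q : Fin n → K) (v : Fin n → L)
    (t : L) : aeval (fun i => algebraMap K L (Q i) + t * v i) F =
      ∑ j ∈ Finset.range ((tau F).totalDegree + 1), t ^ j * aeval v (map (eval Q) (homogeneousComponent j (tau F))) := by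
  rw [← map_tau F Q (fun i => t * v i)]
  conv_lhs => rw [← sum_homogeneousComponent (tau F)]
  rw [map_sum, map_sum]
  refine Finset.sum_congr rfl fun j _ => ?_
  exact aeval_smul_hom ((homogeneousComponent_isHomogeneous j (tau F)).map (eval Q)) v t

theorem exists_noline_open {K L : Type} [Field K] [Field L] [Algebra K L] [IsAlgClosed L] {n : ℕ} {F : MvPolynomial (Fin n) K}
    {P : Fin n → K} (hP : eval P F = 0)
    (hl : ∀ v : Fin n → L, v ≠ 0 → ∃ t : L, aeval (fun i => algebraMap K L (P i) + t * v i) F ≠ 0) :
    ∃ r : MvPolynomial (Fin n) K, eval P r ≠ 0 ∧ ∀ Q : Fin n → K, eval Q r ≠ 0 →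
      ∀ v : Fin n → L, v ≠ 0 → ∃ t : L, aeval (fun i => algebraMap K L (Q i) + t * v i) F ≠ 0 := by
  obtain ⟨r, hr, hrQ⟩ := exists_open (L := L) (fun j : Fin (tau F).totalDegree => homogeneousComponent ((j : ℕ) + 1) (tau F))
    (fun j => (j : ℕ) + 1) (fun j => homogeneousComponent_isHomogeneous _ _) P (by
      intro v hv
      by_contra hcon
      push Not at hcon
      obtain ⟨t, ht⟩ := hl v hv
      apply ht
      have h0 : aeval v (map (eval P) (homogeneousComponent 0 (tau F))) = 0 := by
        have h1 := aeval_line F P v 0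
        rw [Finset.sum_range_succ'] at h1
        have h2 : ∑ j ∈ Finset.range (tau F).totalDegree,
            (0 : L) ^ (j + 1) * aeval v (map (eval P) (homogeneousComponent (j + 1) (tau F))) = 0 :=
          Finset.sum_eq_zero fun j _ => by rw [pow_succ, mul_zero, zero_mul]
        rw [h2, zero_add, pow_zero, one_mul] at h1
        rw [← h1]
        have h3 : (fun i => algebraMap K L (P i) + 0 * v i) = fun i => algebraMap K L (P i) := by
          funext i
          ring
        rw [h3]
        have h4 : aeval (fun i => algebraMap K L (P i)) F = algebraMap K L (aeval P F) := aeval_algebraMap_apply L P F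
        have h5 : aeval P F = 0 := hP
        rw [h4, h5, map_zero]
      rw [aeval_line, Finset.sum_range_succ', h0, mul_zero, add_zero]
      refine Finset.sum_eq_zero fun j hj => ?_
      have := hcon ⟨j, Finset.mem_range.mp hj⟩
      rw [this, mul_zero])
  refine ⟨r, hr, fun Q hQ v hv => ?_⟩
  obtain ⟨j, hj⟩ := hrQ Q hQ v hv
  by_contra hcon
  push Not at hcon
  haveI : Infinite L := IsAlgClosed.instInfinite
  have hp : (∑ i ∈ Finset.range ((tau F).totalDegree + 1),
      Polynomial.C (aeval v (map (eval Q) (homogeneousComponent i (tau F)))) * Polynomial.X ^ i : Polynomial L) = 0 := by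
    refine Polynomial.funext fun t => ?_
    rw [Polynomial.eval_finset_sum, Polynomial.eval_zero, ← hcon t, aeval_line]
    refine Finset.sum_congr rfl fun i _ => ?_
    rw [Polynomial.eval_mul, Polynomial.eval_C, Polynomial.eval_pow, Polynomial.eval_X, mul_comm]
  have hc := congrArg (fun p => Polynomial.coeff p ((j : ℕ) + 1)) hp
  simp only [Polynomial.finset_sum_coeff, Polynomial.coeff_C_mul, Polynomial.coeff_X_pow, Polynomial.coeff_zero, mul_ite, mul_one,
    mul_zero] at hc
  rw [Finset.sum_ite_eq, if_pos (Finset.mem_range.mpr (by have := j.2; omega))] at hc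
  exact hj hc

end Pool.Agent.H8.SB
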