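import Pool.Agent.H8.SB.MainB
import Pool.Agent.H8.SB.LocL
import Pool.Agent.H8.SB.ConicB
import Pool.Agent.H8.SB.ConicZ
import Pool.Agent.H8.SB.Deg2
import Pool.Agent.H8.SB.NoLine

/-!
# SB MainB4: hypersurfaces of degree at most 7 in four variables
-/

set_option autoImplicit false

open MvPolynomial Matrix

namespace Pool.Agent.H8.SB

open Pool.Agent.H8.SD

theorem main_seven_four {K L : Type} [Field K] [CharZero K] [Field L] [Algebra K L] [IsAlgClosed L] (hK : Sol K)
    {F : MvPolynomial (Fin (3 + 1)) K} (hF : F.totalDegree ≤ 7) (hirr : Irreducible F) {P : Fin (3 + 1) → K} (hP : eval P F = 0)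
    (hgr : grd F P ≠ 0) (hS : SmC L F P)
    (hl : ∀ v : Fin (3 + 1) → L, v ≠ 0 → ∃ t : L, aeval (fun i => algebraMap K L (P i) + t * v i) F ≠ 0)
    {G : MvPolynomial (Fin (3 + 1)) K} (hG : ∀ x, eval x F = 0 → eval x G = 0) : F ∣ G := by
  obtain ⟨c, hc⟩ := Function.ne_iff.1 hgr
  obtain ⟨r, hr, hrS⟩ := exists_SmC_open (L := L) hS
  obtain ⟨r', hr', hrl⟩ := exists_noline_open (L := L) hP hl
  have hc' : eval P (pderiv c F) ≠ 0 := hc
  set h : MvPolynomial (Fin (3 + 1)) K := pderiv c F * (r * r') with hh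
  refine dvd_of_tangent hirr (U := {Q | eval Q F = 0 ∧ eval Q h ≠ 0}) (fun Q hQ => hQ.1) (P := P)
    ⟨hP, by rw [hh, map_mul, map_mul]; exact mul_ne_zero hc' (mul_ne_zero hr hr')⟩ c (fun Q hQ => ?_) (fun g hg Q hQ u hu => ?_)
    (fun Q hQ => hG Q hQ.1)
  · have h1 := hQ.2
    rw [hh, map_mul] at h1
    exact left_ne_zero_of_mul h1
  · have h1 := hQ.2
    rw [hh, map_mul, map_mul] at h1
    have hQc : eval Q (pderiv c F) ≠ 0 := left_ne_zero_of_mul h1
    have hSQ : SmC L F Q := hrS Q (left_ne_zero_of_mul (right_ne_zero_of_mul h1))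
    have hlQ := hrl Q (right_ne_zero_of_mul (right_ne_zero_of_mul h1))
    have hgrQ : grd F Q ≠ 0 := Function.ne_iff.2 ⟨c, hQc⟩
    have hgQ : ∀ x, eval x F = 0 → eval x h ≠ 0 → eval x g = 0 := fun x hx1 hx2 => hg x ⟨hx1, hx2⟩
    let T : Submodule K (Fin (3 + 1) → K) := LinearMap.ker (dot (grd F Q))
    have hT : ∀ v, v ∈ T ↔ grd F Q ⬝ᵥ v = 0 := fun v => LinearMap.mem_ker
    have hfr : Module.finrank K T = 3 := by
      have h2 := LinearMap.finrank_range_add_finrank_ker (dot (grd F Q))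
      have h3 : Module.finrank K (LinearMap.range (dot (grd F Q))) = 1 := by
        have h5 : LinearMap.range (dot (grd F Q)) = ⊤ := by
          refine LinearMap.range_eq_top.2 fun x => ?_
          refine ⟨(x / eval Q (pderiv c F)) • Pi.single c 1, ?_⟩
          change grd F Q ⬝ᵥ ((x / eval Q (pderiv c F)) • Pi.single c 1) = x
          rw [dotProduct_smul, dotProduct_single_one, smul_eq_mul]
          exact div_mul_cancel₀ _ hQc
        rw [h5, finrank_top, Module.finrank_self]
      rw [Module.finrank_fintype_fun_eq_card, Fintype.card_fin] at h2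
      have h4 : Module.finrank K T = Module.finrank K (LinearMap.ker (dot (grd F Q))) := rfl
      omega
    by_cases hdeg : ∃ r0 : T, r0 ≠ 0 ∧ ∀ w : T, hesB F Q T r0 w = 0
    · obtain ⟨r0, hr0, hr1⟩ := hdeg
      have hs := span_degenerate hK hfr (hesB F Q T) (fun u v => hes_symm F Q u.1 v.1) (cubT F Q T)
        (fun u v w => cub_symm F Q u.1 v.1 w.1) (fun u v w => cub_symm' F Q u.1 v.1 w.1)
        (fun v hv0 hv1 hv2 b c hbc => ?_) r0 hr0 hr1 ((dot (grd g Q)).comp T.subtype) (fun v hv1 hv2 => ?_)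
      · exact LinearMap.congr_fun hs ⟨u, (hT _).2 hu⟩
      · rw [hesB_apply] at hv1
        rw [cubT_apply] at hv2
        obtain ⟨⟨z, hz, hz1⟩, w, hw, hw1, hw2⟩ := exists_of_SmC hSQ (fun h => hv0 (Subtype.ext h)) ((hT _).1 v.2) hv1 hv2
        have e1 := hbc ⟨w, (hT _).2 hw⟩
        have e2 := hbc ⟨z, (hT _).2 hz⟩
        rw [hesB_apply, cubT_apply] at e1 e2
        simp only at e1 e2
        rw [hw1, mul_zero, zero_add] at e1
        have hc0 : c = 0 := (mul_eq_zero.1 e1).resolve_right hw2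
        rw [hc0, zero_mul, add_zero] at e2
        exact ⟨(mul_eq_zero.1 e2).resolve_right hz1, hc0⟩
      · exact loc_zero (L := L) hK hF hQ.1 hQ.2 hgQ hSQ ((hT _).1 v.2) hv1 hv2
    · push Not at hdeg
      obtain ⟨e1, e2, e3, hind, hsp, h11, h12, h22, h23, h33⟩ := exists_conic_basis hK hfr (hesB F Q T)
        (fun u v => hes_symm F Q u.1 v.1) hdeg
      simp only [hesB_apply] at h11 h12 h22 h23 h33
      have hind' : LinearIndependent K ![e1.1, e2.1, e3.1] := by
        have h5 := hind.map' T.subtype (Submodule.ker_subtype T)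
        have h6 : (T.subtype ∘ ![e1, e2, e3]) = ![e1.1, e2.1, e3.1] := by
          funext i
          fin_cases i <;> rfl
        rwa [h6] at h5
      have hspan : ∀ v, grd F Q ⬝ᵥ v = 0 ↔ ∃ a b c : K, v = a • e1.1 + b • e2.1 + c • e3.1 := by
        intro v
        constructor
        · intro hv
          obtain ⟨a, b, c, habc⟩ := hsp ⟨v, (hT _).2 hv⟩
          exact ⟨a, b, c, congrArg Subtype.val habc⟩
        · rintro ⟨a, b, c, rfl⟩
          exact (hT _).1 (a • e1 + b • e2 + c • e3).2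
      have h7 := conic_zero (L := L) hSQ hgrQ hind' hspan h11 h12 h22 h23 h33 (grd g Q) (fun y hy1 hy2 => ?_)
      · obtain ⟨l1, l2, l3⟩ := h7
        obtain ⟨a, b, c, rfl⟩ := (hspan u).1 hu
        rw [dotProduct_add, dotProduct_add, dotProduct_smul, dotProduct_smul, dotProduct_smul, l1, l2, l3]
        simp
      · refine loc_curve (L := L) hK hF hQ.1 hQ.2 hgQ ((hT _).1 e1.2) ((hT _).1 e2.2) ((hT _).1 e3.2) h11 h12 h22 h23 h33 y hy1 hy2
          (hlQ _ ?_)
        intro h0
        apply hy2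
        rw [h0]
        simp [d3]

end Pool.Agent.H8.SB
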