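import Pool.Agent.H8.SD.Defs

/-!
# SB QNull: a cubic form which is `s l ^ 3` on the zeros of a quadratic form is `l' ^ 3 + H m` (note 5836, (3'))

`H e e ≠ 0` for some `e` (`H ≠ 0`, polarisation).  Every `x` is `t e + v`, `H e v = 0`.  `p (t, v) = C (t e + v) - s l (t e + v) ^ 3 =
p3 t ^ 3 + p2(v) t ^ 2 + p1(v) t + p0(v)` (`p3` a constant, `p2` linear in `v`, ..), `H x x = t ^ 2 H e e + H v v`.  Put `α = p3 / H e e`,
`μ(v) = p2(v) / H e e` and `m (t e + v) = α t + μ v` (a linear form: `m x = α * H x e / H e e + μ (x - (H x e / H e e) e)`).  Then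
`p - H x x * m x = (p1(v) - α H v v) t + (p0(v) - μ(v) H v v)`.  For `v` with `H v v ≠ 0` the two roots `± t` of `t ^ 2 H e e + H v v` are in `K`
(`Sol`) and not `0`, `± t e + v` are isotropic, `p = 0` there; so both brackets are `0`.  `H v v` is not identically `0` on `e^perp` (otherwise
`range H` has dimension `≤ 2`), so for `v, v1 ∈ e^perp`, `H v1 v1 ≠ 0`, the brackets at `v + r v1` are polynomials in `r` which vanish for all but
finitely many `r`, so at `r = 0`: both brackets vanish for all `v ∈ e^perp`.  So `C x = s l x ^ 3 + H x x * m x`.  `s = σ ^ 3` (`Sol`, degree 3; `s = 0`: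
`σ = 0`); `l' = σ • l`.
-/

set_option autoImplicit false

namespace Pool.Agent.H8.SB

open Pool.Agent.H8.SD

private theorem qn_poly {K : Type} [Field K] [CharZero K] {a0 a1 a2 b0 b1 b2 b3 : K} (ha : a2 ≠ 0)
    (h : ∀ r : K, a0 + a1 * r + a2 * r ^ 2 ≠ 0 → b0 + b1 * r + b2 * r ^ 2 + b3 * r ^ 3 = 0) : b0 = 0 := by
  classical
  set A : Polynomial K := Polynomial.C a0 + Polynomial.C a1 * Polynomial.X + Polynomial.C a2 * Polynomial.X ^ 2 with hA
  set B : Polynomial K := Polynomial.C b0 + Polynomial.C b1 * Polynomial.X + Polynomial.C b2 * Polynomial.X ^ 2 +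
    Polynomial.C b3 * Polynomial.X ^ 3 with hB
  have hA0 : A ≠ 0 := by
    intro h0
    have h1 : A.coeff 2 = a2 := by
      rw [hA]
      simp
    rw [h0, Polynomial.coeff_zero] at h1
    exact ha h1.symm
  have hAB : A * B = 0 := by
    apply Polynomial.funext
    intro r
    rw [Polynomial.eval_mul, Polynomial.eval_zero]
    have e1 : A.eval r = a0 + a1 * r + a2 * r ^ 2 := by
      rw [hA]; simp
    have e2 : B.eval r = b0 + b1 * r + b2 * r ^ 2 + b3 * r ^ 3 := by
      rw [hB]; simp
    by_cases hr : a0 + a1 * r + a2 * r ^ 2 = 0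
    · rw [e1, hr, zero_mul]
    · rw [e2, h r hr, mul_zero]
  have hB0 : B = 0 := (mul_eq_zero.1 hAB).resolve_left hA0
  have h2 : B.eval 0 = b0 := by
    rw [hB]; simp
  rw [← h2, hB0, Polynomial.eval_zero]

private theorem qn_pow {K : Type} [Field K] (hK : Sol K) {n : ℕ} (h0 : n ≠ 0) (h4 : n ≤ 4) (c : K) : ∃ s : K, s ^ n = c := by
  have hd : (Polynomial.X ^ n - Polynomial.C c : Polynomial K).natDegree = n := Polynomial.natDegree_X_pow_sub_C
  obtain ⟨x, hx⟩ := hK (Polynomial.X ^ n - Polynomial.C c) (by rw [hd]; exact h0) (by rw [hd]; exact h4)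
  refine ⟨x, ?_⟩
  rw [Polynomial.eval_sub, Polynomial.eval_pow, Polynomial.eval_X, Polynomial.eval_C] at hx
  exact sub_eq_zero.1 hx

theorem cube_decomp {K : Type} [Field K] [CharZero K] (hK : Sol K) {V : Type} [AddCommGroup V] [Module K V] [FiniteDimensional K V]
    (H : V →ₗ[K] V →ₗ[K] K) (hH : ∀ u v, H u v = H v u) (C : V →ₗ[K] V →ₗ[K] V →ₗ[K] K)
    (hC1 : ∀ u v w, C u v w = C v u w) (hC2 : ∀ u v w, C u v w = C u w v) (hrk : 4 ≤ Module.finrank K (LinearMap.range H))
    (l : V →ₗ[K] K) (s : K) (h : ∀ x, H x x = 0 → C x x x = s * l x ^ 3) :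
    ∃ l' m : V →ₗ[K] K, ∀ x, C x x x = l' x ^ 3 + H x x * m x := by
  have h2 : (2 : K) ≠ 0 := two_ne_zero
  -- a non-isotropic vector
  obtain ⟨e, he⟩ : ∃ e, H e e ≠ 0 := by
    by_contra hno
    push Not at hno
    have h0 : H = 0 := by
      ext u v
      have h1 := hno (u + v)
      simp only [map_add, LinearMap.add_apply] at h1
      rw [hno u, hno v, hH v u] at h1
      have h3 : 2 * H u v = 0 := by linear_combination h1
      simpa using (mul_eq_zero.1 h3).resolve_left h2
    rw [h0, LinearMap.range_zero, finrank_bot] at hrk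
    omega
  -- `e^perp` is not totally isotropic
  obtain ⟨v1, hv1, hv1'⟩ : ∃ v1, H e v1 = 0 ∧ H v1 v1 ≠ 0 := by
    by_contra hno
    push Not at hno
    have hpol : ∀ u v, H e u = 0 → H e v = 0 → H u v = 0 := by
      intro u v hu hv
      have h1 := hno (u + v) (by rw [map_add, hu, hv, add_zero])
      simp only [map_add, LinearMap.add_apply] at h1
      rw [hno u hu, hno v hv, hH v u] at h1
      have h3 : 2 * H u v = 0 := by linear_combination h1
      exact (mul_eq_zero.1 h3).resolve_left h2
    have hzero : ∀ v, H e v = 0 → H v = 0 := by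
      intro v hv
      ext w
      have hw : H e (w - (H e w / H e e) • e) = 0 := by
        rw [map_sub, map_smul, smul_eq_mul, div_mul_cancel₀ _ he, sub_self]
      have h3 := hpol v _ hv hw
      rw [map_sub, map_smul, hH v e, hv, smul_zero, sub_zero] at h3
      simpa using h3
    have hr : LinearMap.range H ≤ Submodule.span K {H e} := by
      rintro _ ⟨x, rfl⟩
      have hw : H e (x - (H e x / H e e) • e) = 0 := by
        rw [map_sub, map_smul, smul_eq_mul, div_mul_cancel₀ _ he, sub_self]
      have h3 := hzero _ hw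
      rw [map_sub, map_smul, sub_eq_zero] at h3
      rw [h3]
      exact Submodule.smul_mem _ _ (Submodule.mem_span_singleton_self _)
    have h5 := Submodule.finrank_mono hr
    have h6 : Module.finrank K (Submodule.span K {H e}) ≤ 1 := by
      have h7 := finrank_span_le_card (R := K) ({H e} : Set (V →ₗ[K] K))
      simpa using h7
    omega
  -- the trilinear form
  set c : V → V → V → K := fun u v w => C u v w - s * (l u * l v * l w) with hc
  set α : K := c e e e / H e e with hα
  set μ : V → K := fun v => 3 * c e e v / H e e with hμ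
  have cadd : ∀ (t : K) (v : V), C (t • e + v) (t • e + v) (t • e + v) - s * l (t • e + v) ^ 3 =
      t ^ 3 * c e e e + 3 * t ^ 2 * c e e v + 3 * t * c e v v + c v v v := by
    intro t v
    simp only [hc, map_add, map_smul, LinearMap.add_apply, LinearMap.smul_apply, smul_eq_mul]
    rw [hC1 v e e, hC2 e v e, hC1 v e v, hC2 v v e, hC1 v e v]
    ring
  have hexp : ∀ (t : K) (v : V), H e v = 0 → H (t • e + v) (t • e + v) = t ^ 2 * H e e + H v v := by
    intro t v hv
    simp only [map_add, map_smul, LinearMap.add_apply, LinearMap.smul_apply, smul_eq_mul]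
    rw [hH v e, hv]
    ring
  -- vanishing of the two brackets, first for `H v v ≠ 0`
  have hb : ∀ v, H e v = 0 → H v v ≠ 0 → 3 * c e v v - α * H v v = 0 ∧ c v v v - μ v * H v v = 0 := by
    intro v hv hvv
    obtain ⟨r, hr⟩ := qn_pow hK (n := 2) (by norm_num) (by norm_num) (-(H v v) / H e e)
    have hr' : r ^ 2 * H e e = - H v v := by
      rw [hr, div_mul_cancel₀ _ he]
    have hr0 : r ≠ 0 := by
      rintro rfl
      apply hvv
      have h9 : (0 : K) ^ 2 * H e e = - H v v := hr'
      linear_combination h9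
    have hp : ∀ t : K, t ^ 2 = r ^ 2 → t * (3 * c e v v - α * H v v) + (c v v v - μ v * H v v) = 0 := by
      intro t ht
      have h3 := h (t • e + v) (by rw [hexp t v hv, ht, hr']; ring)
      have h4 := cadd t v
      rw [h3] at h4
      have h5 : c e e e = α * H e e := by rw [hα, div_mul_cancel₀ _ he]
      have h6 : 3 * c e e v = μ v * H e e := by rw [hμ]; exact (div_mul_cancel₀ _ he).symm
      have h7 : t ^ 2 * H e e = - H v v := by rw [ht, hr']
      linear_combination (-1 : K) * h4 + (-t ^ 3) * h5 + (-t ^ 2) * h6 + (-(t * α) - μ v) * h7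
    have ha := hp r rfl
    have hb := hp (-r) (by ring)
    have h8 : 2 * (c v v v - μ v * H v v) = 0 := by linear_combination ha + hb
    have h9 := (mul_eq_zero.1 h8).resolve_left h2
    rw [h9, add_zero] at ha
    exact ⟨(mul_eq_zero.1 ha).resolve_left hr0, h9⟩
  -- both brackets vanish on `e^perp`
  have hb' : ∀ v, H e v = 0 → 3 * c e v v - α * H v v = 0 ∧ c v v v - μ v * H v v = 0 := by
    intro v hv
    have hw : ∀ r : K, H e (v + r • v1) = 0 := by
      intro r
      rw [map_add, map_smul, hv, hv1, smul_zero, add_zero]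
    have hHw : ∀ r : K, H (v + r • v1) (v + r • v1) = H v v + 2 * H v v1 * r + H v1 v1 * r ^ 2 := by
      intro r
      simp only [map_add, map_smul, LinearMap.add_apply, LinearMap.smul_apply, smul_eq_mul]
      rw [hH v1 v]
      ring
    have hc1w : ∀ r : K, c e (v + r • v1) (v + r • v1) = c e v v + 2 * c e v v1 * r + c e v1 v1 * r ^ 2 := by
      intro r
      simp only [hc, map_add, map_smul, LinearMap.add_apply, LinearMap.smul_apply, smul_eq_mul]
      rw [hC2 e v1 v]
      ring
    have hc0w : ∀ r : K, c (v + r • v1) (v + r • v1) (v + r • v1) =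
        c v v v + 3 * c v v v1 * r + 3 * c v v1 v1 * r ^ 2 + c v1 v1 v1 * r ^ 3 := by
      intro r
      simp only [hc, map_add, map_smul, LinearMap.add_apply, LinearMap.smul_apply, smul_eq_mul]
      rw [hC1 v1 v v, hC2 v v1 v, hC1 v1 v v1, hC2 v1 v1 v, hC1 v1 v v1]
      ring
    have hμw : ∀ r : K, μ (v + r • v1) = μ v + μ v1 * r := by
      intro r
      simp only [hμ, hc, map_add, map_smul, smul_eq_mul]
      ring
    constructor
    · refine qn_poly (a0 := H v v) (a1 := 2 * H v v1) (a2 := H v1 v1) (b0 := 3 * c e v v - α * H v v)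
        (b1 := 6 * c e v v1 - 2 * α * H v v1) (b2 := 3 * c e v1 v1 - α * H v1 v1) (b3 := 0) hv1' ?_
      intro r hr
      rw [← hHw r] at hr
      have h3 := (hb _ (hw r) hr).1
      rw [hHw r, hc1w r] at h3
      linear_combination h3
    · refine qn_poly (a0 := H v v) (a1 := 2 * H v v1) (a2 := H v1 v1) (b0 := c v v v - μ v * H v v)
        (b1 := 3 * c v v v1 - (μ v * (2 * H v v1) + μ v1 * H v v)) (b2 := 3 * c v v1 v1 - (μ v * H v1 v1 + μ v1 * (2 * H v v1)))
        (b3 := c v1 v1 v1 - μ v1 * H v1 v1) hv1' ?_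
      intro r hr
      rw [← hHw r] at hr
      have h3 := (hb _ (hw r) hr).2
      rw [hHw r, hc0w r, hμw r] at h3
      linear_combination h3
  obtain ⟨σ, hσ⟩ := qn_pow hK (n := 3) (by norm_num) (by norm_num) s
  refine ⟨σ • l, ((α - 3 * c e e e / H e e) / H e e) • H e + (3 / H e e) • (C e e - (s * (l e * l e)) • l), ?_⟩
  intro x
  set a : K := H e x / H e e with ha
  set v : V := x - a • e with hvdef
  have hav : a • e + v = x := by rw [hvdef]; abel
  have hv : H e v = 0 := by
    rw [hvdef, map_sub, map_smul, smul_eq_mul, ha, div_mul_cancel₀ _ he, sub_self]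
  have h3 := cadd a v
  have h4 := hexp a v hv
  rw [hav] at h3 h4
  obtain ⟨h5, h6⟩ := hb' v hv
  have h7 : c e e e = α * H e e := by rw [hα, div_mul_cancel₀ _ he]
  have h8 : 3 * c e e v = μ v * H e e := by rw [hμ]; exact (div_mul_cancel₀ _ he).symm
  have h9 : c e e x = a * c e e e + c e e v := by
    rw [← hav]
    simp only [hc, map_add, map_smul, smul_eq_mul]
    ring
  have hm : (((α - 3 * c e e e / H e e) / H e e) • H e + (3 / H e e) • (C e e - (s * (l e * l e)) • l)) x = α * a + μ v := by
    have h10 : (C e e - (s * (l e * l e)) • l) x = c e e x := by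
      simp only [hc, LinearMap.sub_apply, LinearMap.smul_apply, smul_eq_mul]
      ring
    rw [LinearMap.add_apply, LinearMap.smul_apply, LinearMap.smul_apply, h10, h9, smul_eq_mul, smul_eq_mul]
    have h11 : H e x = a * H e e := by rw [ha, div_mul_cancel₀ _ he]
    have h12 : μ v = 3 * c e e v / H e e := rfl
    rw [h11, h12]
    field_simp
    ring
  rw [hm, h4, LinearMap.smul_apply, smul_eq_mul, mul_pow, hσ]
  linear_combination h3 + a ^ 3 * h7 + a ^ 2 * h8 + a * h5 + h6

end Pool.Agent.H8.SB
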