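import Pool.Agent.H8.SD.Defs

/-!
# SB SpanC: if the common zeros of a quadratic form of rank at least 4 and a cubic form lie in a hyperplane, the cubic form is a cube on the quadric

PROOF (note 5836, (2')).  Write `C x` for `C x x x`, and `x ~ x'` for `C x' * l x ^ 3 = C x * l x' ^ 3` (`x, x'` isotropic: `H x x = 0`).
(i) `x, x'` isotropic, `H x x' = 0` imply `x ~ x'`.  If `l x = l x' = 0` trivial.  Otherwise let `l x ≠ 0` (the relation is symmetric).  `C x ≠ 0` by
`hl`.  All roots `s ∈ K` of the cubic `C (s x + x')` are `s0 = - l x' / l x` (`s x + x'` is isotropic, `hl`), and it splits over `K` (`Sol`), so it is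
`C x * (s - s0) ^ 3`; at `s = 0`: `C x' = C x * (l x' / l x) ^ 3`.
(ii) `x ~ y`, `y ~ x'`, `l y ≠ 0` imply `x ~ x'` (algebra).
(iii) There is an isotropic `x0` with `l x0 ≠ 0`: otherwise take `l x = 1`; `H x x ≠ 0`; for `v ∈ ker l` both roots `t` of `H (v + t x) (v + t x)`
are `- l v = 0`, so `H v v = 0`, `H v x = 0`: `ker l` is in the radical (polarise), so `range H` has dimension `≤ 1`, against `hrk`.
(iv) Let `x'` be isotropic.  Claim `x0 ~ x'`.  If `H x0 x' = 0`: (i).  Otherwise scale `x'` (the relation is homogeneous) so that `H x0 x' = 1`.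
`M = {v | H x0 v = 0, H x' v = 0}`.  There are `y1, y2 ∈ M` isotropic with `H y1 y2 = 1`: otherwise all isotropic vectors of `M` are orthogonal to
`M` (if `y1 ∈ M` is isotropic and `H y1 v ≠ 0`, `v ∈ M`, normalise `v` to `y2 = v / H y1 v - (..) y1`); then `H = 0` on `M`, or some `y ∈ M` has
`H y y ≠ 0` and every `v ∈ M` with `H y v = 0` satisfies: `v + t y` is isotropic for some `t ∈ K`, so orthogonal to `y`, so `t = 0`, so `v` is
isotropic and orthogonal to `M`, and to `x0, x'`, so in the radical; so `V = ⟨x0, x', y⟩ + radical` and `range H` has dimension `≤ 3`, against `hrk`.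
If `l y1 ≠ 0`: `x0 ~ y1 ~ x'`, (ii).  Same for `y2`.  Let `l y1 = l y2 = 0`.  For `t ≠ 0` put `z = x' - t⁻¹ y2`, `p = x0 + t y1`: both isotropic,
`H p z = 1 - 1 = 0`, `H x0 p = 0`, `H z x' = 0`, `l p = l x0 ≠ 0`, `l z = l x'`.  So `x0 ~ p ~ z` and `x0 ~ z` by (ii).  If `l x' ≠ 0`: `x0 ~ z ~ x'`,
`l z ≠ 0`.  If `l x' = 0`: `x0 ~ z` says `C z = 0`, for all `t ≠ 0`; `C (x' - r y2)` is a polynomial in `r` which vanishes for all `r ≠ 0`, so also for
`r = 0`: `C x' = 0`, that is `x0 ~ x'`.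
So `s = C x0 / l x0 ^ 3` works.
-/

set_option autoImplicit false

namespace Pool.Agent.H8.SB

open Pool.Agent.H8.SD

private theorem cc_quad {K : Type} [Field K] (hK : Sol K) (a b c : K) (ha : a ≠ 0) :
    ∃ t : K, a * t ^ 2 + b * t + c = 0 := by
  have hd := Polynomial.natDegree_quadratic (a := a) (b := b) (c := c) ha
  obtain ⟨t, ht⟩ := hK _ (by rw [hd]; norm_num) (by rw [hd]; norm_num)
  refine ⟨t, ?_⟩
  simpa using ht

private theorem cc_cub {K : Type} [Field K] (hK : Sol K) (a b c d : K) (ha : a ≠ 0) :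
    ∃ t : K, a * t ^ 3 + b * t ^ 2 + c * t + d = 0 := by
  have hd := Polynomial.natDegree_cubic (a := a) (b := b) (c := c) (d := d) ha
  obtain ⟨t, ht⟩ := hK _ (by rw [hd]; norm_num) (by rw [hd]; norm_num)
  refine ⟨t, ?_⟩
  simpa using ht

/-- a cubic polynomial with only one root. -/
private theorem cc_unique {K : Type} [Field K] (hK : Sol K) {a b c d ρ : K} (ha : a ≠ 0)
    (h : ∀ s, a * s ^ 3 + b * s ^ 2 + c * s + d = 0 → s = ρ) : d = -(a * ρ ^ 3) := by
  obtain ⟨s, hs⟩ := cc_cub hK a b c d ha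
  have e1 := h s hs
  rw [e1] at hs
  obtain ⟨s1, hs1⟩ := cc_quad hK a (b + a * ρ) (c + ρ * (b + a * ρ)) ha
  have e2 : s1 = ρ := by
    apply h
    linear_combination (s1 - ρ) * hs1 + hs
  rw [e2] at hs1
  have e3 : -(b + 2 * a * ρ) / a = ρ := by
    apply h
    have h1 : a * (-(b + 2 * a * ρ) / a) + (b + 2 * a * ρ) = 0 := by
      field_simp
      ring
    generalize -(b + 2 * a * ρ) / a = x at h1 ⊢
    linear_combination (x - ρ) ^ 2 * h1 + (x - ρ) * hs1 + hs
  have e4 : -(b + 2 * a * ρ) = ρ * a := by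
    rw [div_eq_iff ha] at e3
    exact e3
  linear_combination hs - ρ * hs1 - ρ ^ 2 * e4

private theorem cc_exp {K : Type} [Field K] {V : Type} [AddCommGroup V] [Module K V]
    (C : V →ₗ[K] V →ₗ[K] V →ₗ[K] K) (hC1 : ∀ u v w, C u v w = C v u w) (hC2 : ∀ u v w, C u v w = C u w v)
    (s : K) (a u : V) : C (s • a + u) (s • a + u) (s • a + u)
      = C a a a * s ^ 3 + 3 * C a a u * s ^ 2 + 3 * C a u u * s + C u u u := by
  have e1 : C a u a = C a a u := hC2 a u a
  have e2 : C u a a = C a a u := by rw [hC1 u a a, e1]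
  have e3 : C u a u = C a u u := hC1 u a u
  have e4 : C u u a = C a u u := by rw [hC2 u u a, e3]
  simp only [map_add, map_smul, LinearMap.add_apply, LinearMap.smul_apply, smul_eq_mul]
  rw [e1, e2, e3, e4]
  ring

private theorem cc_iso {K : Type} [Field K] {V : Type} [AddCommGroup V] [Module K V]
    (H : V →ₗ[K] V →ₗ[K] K) (hH : ∀ u v, H u v = H v u) (s : K) (a u : V) :
    H (s • a + u) (s • a + u) = H a a * s ^ 2 + 2 * H a u * s + H u u := by
  simp only [map_add, map_smul, LinearMap.add_apply, LinearMap.smul_apply, smul_eq_mul]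
  rw [hH u a]
  ring

/-- (i), `l x ≠ 0` -/
private theorem cc_orth1 {K : Type} [Field K] (hK : Sol K) {V : Type} [AddCommGroup V] [Module K V]
    (H : V →ₗ[K] V →ₗ[K] K) (hH : ∀ u v, H u v = H v u) (C : V →ₗ[K] V →ₗ[K] V →ₗ[K] K)
    (hC1 : ∀ u v w, C u v w = C v u w) (hC2 : ∀ u v w, C u v w = C u w v)
    (l : V →ₗ[K] K) (hl : ∀ u, H u u = 0 → C u u u = 0 → l u = 0) {x x' : V} (hx : H x x = 0)
    (hx' : H x' x' = 0) (hxx : H x x' = 0) (hlx : l x ≠ 0) :
    C x' x' x' * l x ^ 3 = C x x x * l x' ^ 3 := by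
  have hC : C x x x ≠ 0 := fun h => hlx (hl x hx h)
  have h1 := cc_unique hK (ρ := -(l x') / l x) (b := 3 * C x x x') (c := 3 * C x x' x')
    (d := C x' x' x') hC (by
      intro s hs
      have h2 : l (s • x + x') = 0 := by
        apply hl
        · rw [cc_iso H hH, hx, hxx, hx']
          ring
        · rw [cc_exp C hC1 hC2]
          exact hs
      rw [map_add, map_smul, smul_eq_mul] at h2
      rw [eq_div_iff hlx]
      linear_combination h2)
  rw [h1]
  field_simp

/-- (i) -/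
private theorem cc_orth {K : Type} [Field K] (hK : Sol K) {V : Type} [AddCommGroup V] [Module K V]
    (H : V →ₗ[K] V →ₗ[K] K) (hH : ∀ u v, H u v = H v u) (C : V →ₗ[K] V →ₗ[K] V →ₗ[K] K)
    (hC1 : ∀ u v w, C u v w = C v u w) (hC2 : ∀ u v w, C u v w = C u w v)
    (l : V →ₗ[K] K) (hl : ∀ u, H u u = 0 → C u u u = 0 → l u = 0) {x x' : V} (hx : H x x = 0)
    (hx' : H x' x' = 0) (hxx : H x x' = 0) :
    C x' x' x' * l x ^ 3 = C x x x * l x' ^ 3 := by
  by_cases h1 : l x = 0
  · by_cases h2 : l x' = 0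
    · rw [h1, h2]
      ring
    · exact (cc_orth1 hK H hH C hC1 hC2 l hl hx' hx (by rw [hH, hxx]) h2).symm
  · exact cc_orth1 hK H hH C hC1 hC2 l hl hx hx' hxx h1

/-- (ii) -/
private theorem cc_trans {K : Type} [Field K] {a b c x y z : K} (h1 : b * x ^ 3 = a * y ^ 3)
    (h2 : c * y ^ 3 = b * z ^ 3) (hy : y ≠ 0) : c * x ^ 3 = a * z ^ 3 := by
  have h3 : (c * x ^ 3) * y ^ 3 = (a * z ^ 3) * y ^ 3 := by
    linear_combination x ^ 3 * h2 + z ^ 3 * h1
  exact mul_right_cancel₀ (pow_ne_zero 3 hy) h3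

/-- the rank of `H` is at most the dimension of `W` if `ker φ` is in the radical. -/
private theorem cc_rank {K : Type} [Field K] {V : Type} [AddCommGroup V] [Module K V] [FiniteDimensional K V]
    {W : Type} [AddCommGroup W] [Module K W] [FiniteDimensional K W] (H : V →ₗ[K] V →ₗ[K] K)
    (φ : V →ₗ[K] W) (h : ∀ v, φ v = 0 → ∀ w, H v w = 0) :
    Module.finrank K (LinearMap.range H) ≤ Module.finrank K W := by
  have h1 := H.finrank_range_add_finrank_ker
  have h2 := φ.finrank_range_add_finrank_ker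
  have h3 : LinearMap.ker φ ≤ LinearMap.ker H := by
    intro v hv
    rw [LinearMap.mem_ker] at hv ⊢
    exact LinearMap.ext (h v hv)
  have h4 := Submodule.finrank_mono h3
  have h5 := Submodule.finrank_le (LinearMap.range φ)
  omega

/-- (iii) -/
private theorem cc_one {K : Type} [Field K] [CharZero K] (hK : Sol K) {V : Type} [AddCommGroup V] [Module K V]
    [FiniteDimensional K V] (H : V →ₗ[K] V →ₗ[K] K) (hH : ∀ u v, H u v = H v u)
    (hrk : 4 ≤ Module.finrank K (LinearMap.range H)) (l : V →ₗ[K] K) (hl0 : l ≠ 0) :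
    ∃ a, H a a = 0 ∧ l a ≠ 0 := by
  by_contra hcon
  push Not at hcon
  obtain ⟨x0, hx0⟩ : ∃ x0, l x0 ≠ 0 := by
    by_contra h
    push Not at h
    exact hl0 (LinearMap.ext h)
  set x : V := (l x0)⁻¹ • x0 with hx
  have hlx : l x = 1 := by rw [hx, map_smul, smul_eq_mul, inv_mul_cancel₀ hx0]
  have hHx : H x x ≠ 0 := by
    intro h
    rw [hcon x h] at hlx
    exact zero_ne_one hlx
  have hroot : ∀ v, l v = 0 → ∀ t : K, H x x * t ^ 2 + 2 * H v x * t + H v v = 0 → t = 0 := by
    intro v hv t ht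
    have h1 : H (t • x + v) (t • x + v) = 0 := by
      rw [cc_iso H hH, hH x v]
      exact ht
    have h2 := hcon _ h1
    rw [map_add, map_smul, hlx, hv, smul_eq_mul, mul_one, add_zero] at h2
    exact h2
  have hker : ∀ v, l v = 0 → H v v = 0 ∧ H v x = 0 := by
    intro v hv
    obtain ⟨t, ht⟩ := cc_quad hK (H x x) (2 * H v x) (H v v) hHx
    have h1 := hroot v hv t ht
    rw [h1] at ht
    have h2 : H v v = 0 := by linear_combination ht
    refine ⟨h2, ?_⟩
    have h3 := hroot v hv (-(2 * H v x) / H x x) (by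
      rw [h2]
      field_simp
      ring)
    rw [div_eq_zero_iff, neg_eq_zero] at h3
    rcases h3 with h3 | h3
    · rcases mul_eq_zero.1 h3 with h4 | h4
      · exact absurd h4 two_ne_zero
      · exact h4
    · exact absurd h3 hHx
  have hrad : ∀ v, l v = 0 → ∀ z, H v z = 0 := by
    intro v hv z
    have hz : l (z - l z • x) = 0 := by
      rw [map_sub, map_smul, hlx, smul_eq_mul, mul_one, sub_self]
    have hpol : H v (z - l z • x) = 0 := by
      set z' := z - l z • x with hz'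
      have h1 := (hker (v + z') (by rw [map_add, hv, hz, add_zero])).1
      simp only [map_add, LinearMap.add_apply] at h1
      rw [(hker v hv).1, (hker z' hz).1, hH z' v] at h1
      have h2 : (2 : K) * H v z' = 0 := by linear_combination h1
      rcases mul_eq_zero.1 h2 with h4 | h4
      · exact absurd h4 two_ne_zero
      · exact h4
    rw [map_sub, map_smul, (hker v hv).2, smul_zero, sub_zero] at hpol
    exact hpol
  have h5 := cc_rank H l hrad
  rw [Module.finrank_self] at h5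
  omega

/-- vectors orthogonal to `M` in `M` are in the radical. -/
private theorem cc_rad {K : Type} [Field K] {V : Type} [AddCommGroup V] [Module K V]
    (H : V →ₗ[K] V →ₗ[K] K) (hH : ∀ u v, H u v = H v u) {x x' : V} (hx : H x x = 0) (hx' : H x' x' = 0)
    (hxx : H x x' = 1) {v : V} (hv : H x v = 0) (hv' : H x' v = 0)
    (h : ∀ m, H x m = 0 → H x' m = 0 → H v m = 0) (w : V) : H v w = 0 := by
  have hx'x : H x' x = 1 := by rw [hH, hxx]
  have h1 := h (w - H x' w • x - H x w • x') (by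
      simp only [map_sub, map_smul, smul_eq_mul]
      rw [hx, hxx]
      ring) (by
      simp only [map_sub, map_smul, smul_eq_mul]
      rw [hx', hx'x]
      ring)
  simp only [map_sub, map_smul, smul_eq_mul] at h1
  rw [hH v x, hH v x', hv, hv'] at h1
  linear_combination h1

/-- a hyperbolic pair in `M`. -/
private theorem cc_pair {K : Type} [Field K] [CharZero K] (hK : Sol K) {V : Type} [AddCommGroup V] [Module K V]
    [FiniteDimensional K V] (H : V →ₗ[K] V →ₗ[K] K) (hH : ∀ u v, H u v = H v u)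
    (hrk : 4 ≤ Module.finrank K (LinearMap.range H)) {x x' : V} (hx : H x x = 0) (hx' : H x' x' = 0)
    (hxx : H x x' = 1) :
    ∃ y1 y2, (H x y1 = 0 ∧ H x' y1 = 0) ∧ (H x y2 = 0 ∧ H x' y2 = 0) ∧ H y1 y1 = 0 ∧ H y2 y2 = 0 ∧
      H y1 y2 = 1 := by
  by_contra hcon
  have hA : ∀ y, H x y = 0 → H x' y = 0 → H y y = 0 → ∀ m, H x m = 0 → H x' m = 0 → H y m = 0 := by
    intro y h1 h2 h3 v h4 h5
    by_contra hc
    apply hcon
    set c := H y v with hcdef
    refine ⟨y, c⁻¹ • v - (H v v / (2 * c ^ 2)) • y, ⟨h1, h2⟩, ⟨?_, ?_⟩, h3, ?_, ?_⟩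
    · simp only [map_sub, map_smul, smul_eq_mul]
      rw [h1, h4]
      ring
    · simp only [map_sub, map_smul, smul_eq_mul]
      rw [h2, h5]
      ring
    · simp only [map_sub, map_smul, smul_eq_mul, LinearMap.sub_apply, LinearMap.smul_apply]
      rw [hH v y, ← hcdef, h3]
      field_simp
      ring
    · simp only [map_sub, map_smul, smul_eq_mul]
      rw [← hcdef, h3, mul_zero, sub_zero, inv_mul_cancel₀ hc]
  by_cases hB : ∀ y, H x y = 0 → H x' y = 0 → H y y = 0
  · have h1 := cc_rank H ((H x).prod (H x')) (by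
      intro v hv w
      have hv1 : H x v = 0 := congrArg Prod.fst hv
      have hv2 : H x' v = 0 := congrArg Prod.snd hv
      exact cc_rad H hH hx hx' hxx hv1 hv2 (hA v hv1 hv2 (hB v hv1 hv2)) w)
    rw [Module.finrank_prod, Module.finrank_self] at h1
    omega
  · push Not at hB
    obtain ⟨y, hy1, hy2, hyy⟩ := hB
    have h1 := cc_rank H ((H x).prod ((H x').prod (H y))) (by
      intro v hv w
      have hv1 : H x v = 0 := congrArg Prod.fst hv
      have hv2 : H x' v = 0 := congrArg (fun p => p.2.1) hv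
      have hv3 : H y v = 0 := congrArg (fun p => p.2.2) hv
      obtain ⟨t, ht⟩ := cc_quad hK (H y y) (2 * H y v) (H v v) hyy
      have hi : H (t • y + v) (t • y + v) = 0 := by
        rw [cc_iso H hH]
        exact ht
      have hm1 : H x (t • y + v) = 0 := by
        rw [map_add, map_smul, hy1, hv1, smul_zero, add_zero]
      have hm2 : H x' (t • y + v) = 0 := by
        rw [map_add, map_smul, hy2, hv2, smul_zero, add_zero]
      have h2 := hA _ hm1 hm2 hi
      have h3 := h2 y hy1 hy2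
      rw [map_add, map_smul, LinearMap.add_apply, LinearMap.smul_apply, smul_eq_mul, hH v y, hv3,
        add_zero] at h3
      have h4 : t = 0 := (mul_eq_zero.1 h3).resolve_right hyy
      rw [h4, zero_smul, zero_add] at h2
      exact cc_rad H hH hx hx' hxx hv1 hv2 h2 w)
    rw [Module.finrank_prod, Module.finrank_prod, Module.finrank_self] at h1
    omega

/-- (iv), normalised -/
private theorem cc_four {K : Type} [Field K] [CharZero K] (hK : Sol K) {V : Type} [AddCommGroup V] [Module K V]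
    [FiniteDimensional K V] (H : V →ₗ[K] V →ₗ[K] K) (hH : ∀ u v, H u v = H v u) (C : V →ₗ[K] V →ₗ[K] V →ₗ[K] K)
    (hC1 : ∀ u v w, C u v w = C v u w) (hC2 : ∀ u v w, C u v w = C u w v)
    (hrk : 4 ≤ Module.finrank K (LinearMap.range H)) (l : V →ₗ[K] K)
    (hl : ∀ u, H u u = 0 → C u u u = 0 → l u = 0) {x x' : V} (hx : H x x = 0) (hx' : H x' x' = 0)
    (hxx : H x x' = 1) (hlx : l x ≠ 0) : C x' x' x' * l x ^ 3 = C x x x * l x' ^ 3 := by
  obtain ⟨y1, y2, ⟨h11, h12⟩, ⟨h21, h22⟩, hy1, hy2, hyy⟩ := cc_pair hK H hH hrk hx hx' hxx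
  have h12' : H y1 x' = 0 := by rw [hH, h12]
  have h22' : H y2 x' = 0 := by rw [hH, h22]
  by_cases hl1 : l y1 = 0
  swap
  · exact cc_trans (cc_orth hK H hH C hC1 hC2 l hl hx hy1 h11)
      (cc_orth hK H hH C hC1 hC2 l hl hy1 hx' h12') hl1
  by_cases hl2 : l y2 = 0
  swap
  · exact cc_trans (cc_orth hK H hH C hC1 hC2 l hl hx hy2 h21)
      (cc_orth hK H hH C hC1 hC2 l hl hy2 hx' h22') hl2
  have key : ∀ r : K, r ≠ 0 → H (r • y2 + x') (r • y2 + x') = 0 ∧ H (r • y2 + x') x' = 0 ∧
      C (r • y2 + x') (r • y2 + x') (r • y2 + x') * l x ^ 3 = C x x x * l x' ^ 3 := by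
    intro r hr
    have hz : H (r • y2 + x') (r • y2 + x') = 0 := by
      rw [cc_iso H hH, hy2, h22', hx']
      ring
    have hzx : H (r • y2 + x') x' = 0 := by
      rw [map_add, map_smul, LinearMap.add_apply, LinearMap.smul_apply, h22', hx', smul_zero, add_zero]
    refine ⟨hz, hzx, ?_⟩
    have hp : H ((-r⁻¹) • y1 + x) ((-r⁻¹) • y1 + x) = 0 := by
      rw [cc_iso H hH, hy1, hH y1 x, h11, hx]
      ring
    have hxp : H x ((-r⁻¹) • y1 + x) = 0 := by
      rw [map_add, map_smul, h11, hx, smul_zero, add_zero]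
    have hpz : H ((-r⁻¹) • y1 + x) (r • y2 + x') = 0 := by
      simp only [map_add, map_smul, LinearMap.add_apply, LinearMap.smul_apply, smul_eq_mul]
      rw [hyy, h12', h21, hxx]
      field_simp
      ring
    have hlp : l ((-r⁻¹) • y1 + x) = l x := by
      rw [map_add, map_smul, hl1, smul_zero, zero_add]
    have hlz : l (r • y2 + x') = l x' := by
      rw [map_add, map_smul, hl2, smul_zero, zero_add]
    have h1 := cc_trans (cc_orth hK H hH C hC1 hC2 l hl hx hp hxp)
      (cc_orth hK H hH C hC1 hC2 l hl hp hz hpz) (by rw [hlp]; exact hlx)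
    rw [hlz] at h1
    exact h1
  by_cases hl3 : l x' = 0
  · have hC : ∀ r : K, r ≠ 0 → C y2 y2 y2 * r ^ 3 + 3 * C y2 y2 x' * r ^ 2 + 3 * C y2 x' x' * r
        + C x' x' x' = 0 := by
      intro r hr
      have h1 := (key r hr).2.2
      rw [hl3, cc_exp C hC1 hC2] at h1
      have h2 := h1.trans (by ring : C x x x * (0 : K) ^ 3 = 0)
      exact (mul_eq_zero.1 h2).resolve_right (pow_ne_zero 3 hlx)
    have e1 := hC 1 one_ne_zero
    have e2 := hC (-1) (neg_ne_zero.2 one_ne_zero)
    have e3 := hC 2 two_ne_zero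
    have e4 := hC (-2) (neg_ne_zero.2 two_ne_zero)
    have h3 : (6 : K) * C x' x' x' = 0 := by
      linear_combination 4 * e1 + 4 * e2 - e3 - e4
    have h4 : C x' x' x' = 0 := (mul_eq_zero.1 h3).resolve_left (by norm_num)
    rw [h4, hl3]
    ring
  · obtain ⟨hz, hzx, h1⟩ := key 1 one_ne_zero
    have hlz : l ((1 : K) • y2 + x') = l x' := by
      rw [map_add, map_smul, hl2, smul_zero, zero_add]
    have h2 := cc_orth hK H hH C hC1 hC2 l hl hz hx' hzx
    rw [hlz] at h2
    have h3 := mul_right_cancel₀ (pow_ne_zero 3 hl3) h2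
    rw [h3]
    exact h1

theorem span_cube {K : Type} [Field K] [CharZero K] (hK : Sol K) {V : Type} [AddCommGroup V] [Module K V] [FiniteDimensional K V]
    (H : V →ₗ[K] V →ₗ[K] K) (hH : ∀ u v, H u v = H v u) (C : V →ₗ[K] V →ₗ[K] V →ₗ[K] K)
    (hC1 : ∀ u v w, C u v w = C v u w) (hC2 : ∀ u v w, C u v w = C u w v) (hrk : 4 ≤ Module.finrank K (LinearMap.range H))
    (l : V →ₗ[K] K) (hl0 : l ≠ 0) (hl : ∀ u, H u u = 0 → C u u u = 0 → l u = 0) :
    ∃ s : K, ∀ x, H x x = 0 → C x x x = s * l x ^ 3 := by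
  obtain ⟨x0, hx0, hlx0⟩ := cc_one hK H hH hrk l hl0
  refine ⟨C x0 x0 x0 / l x0 ^ 3, ?_⟩
  intro x hx
  have hrel : C x x x * l x0 ^ 3 = C x0 x0 x0 * l x ^ 3 := by
    by_cases hc : H x0 x = 0
    · exact cc_orth hK H hH C hC1 hC2 l hl hx0 hx hc
    · have h1 : H ((H x0 x)⁻¹ • x) ((H x0 x)⁻¹ • x) = 0 := by
        rw [map_smul, map_smul, LinearMap.smul_apply, hx, smul_zero, smul_zero]
      have h2 : H x0 ((H x0 x)⁻¹ • x) = 1 := by
        rw [map_smul, smul_eq_mul, inv_mul_cancel₀ hc]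
      have h3 := cc_four hK H hH C hC1 hC2 hrk l hl hx0 h1 h2 hlx0
      simp only [map_smul, LinearMap.smul_apply, smul_eq_mul] at h3
      have hc' : (H x0 x)⁻¹ ≠ 0 := inv_ne_zero hc
      generalize (H x0 x)⁻¹ = c at h3 hc'
      have h4 : c ^ 3 * (C x x x * l x0 ^ 3) = c ^ 3 * (C x0 x0 x0 * l x ^ 3) := by
        linear_combination h3
      exact mul_left_cancel₀ (pow_ne_zero 3 hc') h4
  have h5 : l x0 ^ 3 ≠ 0 := pow_ne_zero 3 hlx0
  rw [div_mul_eq_mul_div, eq_div_iff h5]
  exact hrel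

end Pool.Agent.H8.SB
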