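import Pool.Agent.H8.SB.OpenC
import Pool.Agent.H8.SB.LocK
import Pool.Agent.H8.SB.SpanC
import Pool.Agent.H8.SB.QNull

/-!
# SB MainC: hypersurfaces of degree at most 7, a point at which the Hessian form has rank at least 4 and the cubic form is not a cube modulo it
-/

set_option autoImplicit false

open MvPolynomial Matrix

namespace Pool.Agent.H8.SB

open Pool.Agent.H8.SD

/-- a vector orthogonal to a hyperbolic pair which is not isotropic -/
theorem exists_perp {K : Type} [Field K] [CharZero K] {V : Type} [AddCommGroup V] [Module K V] [FiniteDimensional K V]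
    (H : V →ₗ[K] V →ₗ[K] K) (hH : ∀ u v, H u v = H v u) (hrk : 4 ≤ Module.finrank K (LinearMap.range H)) {u x : V}
    (hu : H u u = 0) (hx : H x x = 0) (hux : H u x ≠ 0) : ∃ w, H u w = 0 ∧ H x w = 0 ∧ H w w ≠ 0 := by
  classical
  by_contra hcon
  push Not at hcon
  have h2 : (2 : K) ≠ 0 := two_ne_zero
  have hdec : ∀ v : V, ∃ a b : K, ∃ w : V, H u w = 0 ∧ H x w = 0 ∧ v = a • u + b • x + w := by
    intro v
    refine ⟨H x v / H u x, H u v / H u x, v - (H x v / H u x) • u - (H u v / H u x) • x, ?_, ?_, by abel⟩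
    · rw [map_sub, map_sub, map_smul, map_smul, hu, smul_eq_mul, smul_eq_mul, mul_zero, sub_zero, div_mul_cancel₀ _ hux, sub_self]
    · rw [map_sub, map_sub, map_smul, map_smul, hx, hH x u, smul_eq_mul, smul_eq_mul, mul_zero, sub_zero, div_mul_cancel₀ _ hux,
        sub_self]
  have hrad : ∀ w : V, H u w = 0 → H x w = 0 → ∀ y, H w y = 0 := by
    intro w hw1 hw2 y
    obtain ⟨a, b, w', hw1', hw2', rfl⟩ := hdec y
    have h3 := hcon (w + w') (by rw [map_add, hw1, hw1', add_zero]) (by rw [map_add, hw2, hw2', add_zero])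
    rw [map_add, map_add, LinearMap.add_apply, LinearMap.add_apply, hcon w hw1 hw2, hcon w' hw1' hw2', hH w' w] at h3
    have h4 : H w w' = 0 := by
      have : 2 * H w w' = 0 := by linear_combination h3
      exact (mul_eq_zero.1 this).resolve_left h2
    rw [map_add, map_add, map_smul, map_smul, hH w u, hH w x, hw1, hw2, h4]
    simp
  have hle : LinearMap.range H ≤ Submodule.span K {H u, H x} := by
    rintro _ ⟨v, rfl⟩
    obtain ⟨a, b, w, hw1, hw2, rfl⟩ := hdec v
    have h5 : H w = 0 := LinearMap.ext fun y => hrad w hw1 hw2 y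
    rw [map_add, map_add, map_smul, map_smul, h5, add_zero]
    exact Submodule.add_mem _ (Submodule.smul_mem _ _ (Submodule.subset_span (by simp)))
      (Submodule.smul_mem _ _ (Submodule.subset_span (by simp)))
  have h6 := Submodule.finrank_mono hle
  have h7 : Module.finrank K (Submodule.span K ({H u, H x} : Set (V →ₗ[K] K))) ≤ 2 := by
    have h8 := finrank_span_le_card (R := K) ({H u, H x} : Set (V →ₗ[K] K))
    refine h8.trans ?_
    rw [Set.toFinset_insert, Set.toFinset_singleton]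
    exact Finset.card_le_two
  omega

section
variable {K : Type} [Field K] {n : ℕ}

/-- `C (a + t b + t ^ 2 d)` is a polynomial in `t` -/
theorem exists_poly (F : MvPolynomial (Fin n) K) (Q a b d : Fin n → K) : ∃ p : Polynomial K, ∀ t : K,
    p.eval t = cub F Q (a + t • b + t ^ 2 • d) (a + t • b + t ^ 2 • d) (a + t • b + t ^ 2 • d) := by
  let v : Fin 3 → Fin n → K := ![a, b, d]
  refine ⟨∑ i : Fin 3, ∑ j : Fin 3, ∑ k : Fin 3, Polynomial.C (cub F Q (v i) (v j) (v k)) *
    Polynomial.X ^ ((i : ℕ) + (j : ℕ) + (k : ℕ)), fun t => ?_⟩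
  have h : a + t • b + t ^ 2 • d = ∑ i : Fin 3, t ^ (i : ℕ) • v i := by
    rw [Fin.sum_univ_three]
    simp [v]
  have h1 : ∀ x y : Fin n → K, cub F Q (∑ i : Fin 3, t ^ (i : ℕ) • v i) x y = ∑ i : Fin 3, t ^ (i : ℕ) * cub F Q (v i) x y := by
    intro x y
    rw [Fin.sum_univ_three, Fin.sum_univ_three, cub_add, cub_add, cub_smul, cub_smul, cub_smul]
  have h2 : ∀ x y : Fin n → K, cub F Q x (∑ i : Fin 3, t ^ (i : ℕ) • v i) y = ∑ i : Fin 3, t ^ (i : ℕ) * cub F Q x (v i) y := by
    intro x y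
    rw [Fin.sum_univ_three, Fin.sum_univ_three, cub_add2, cub_add2, cub_smul2, cub_smul2, cub_smul2]
  have h3 : ∀ x y : Fin n → K, cub F Q x y (∑ i : Fin 3, t ^ (i : ℕ) • v i) = ∑ i : Fin 3, t ^ (i : ℕ) * cub F Q x y (v i) := by
    intro x y
    rw [Fin.sum_univ_three, Fin.sum_univ_three, cub_add3, cub_add3, cub_smul3, cub_smul3, cub_smul3]
  rw [h, h1, Polynomial.eval_finsetSum]
  refine Finset.sum_congr rfl fun i _ => ?_
  rw [h2, Finset.mul_sum, Polynomial.eval_finsetSum]
  refine Finset.sum_congr rfl fun j _ => ?_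
  rw [h3, Finset.mul_sum, Finset.mul_sum, Polynomial.eval_finsetSum]
  refine Finset.sum_congr rfl fun k _ => ?_
  rw [Polynomial.eval_mul, Polynomial.eval_C, Polynomial.eval_pow, Polynomial.eval_X, pow_add, pow_add]
  ring

end

/-- every tangent vector `u` with `H(u,u) = C(u,u,u) = 0` is killed by the differential of `g` -/
theorem loc_rank {K : Type} [Field K] [CharZero K] (hK : Sol K) {n : ℕ}
    {F : MvPolynomial (Fin n) K} (hF : F.totalDegree ≤ 7)
    {g h : MvPolynomial (Fin n) K} {Q : Fin n → K} (hQ : eval Q F = 0) (hh : eval Q h ≠ 0)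
    (hg : ∀ x, eval x F = 0 → eval x h ≠ 0 → eval x g = 0) {u x : Fin n → K} (hu : grd F Q ⬝ᵥ u = 0)
    (huu : hes F Q u u = 0) (h0 : cub F Q u u u = 0) (hx : grd F Q ⬝ᵥ x = 0) (hxx : hes F Q x x = 0) (h1 : cub F Q x x x ≠ 0)
    (hw : hes F Q u x ≠ 0 → ∃ w, grd F Q ⬝ᵥ w = 0 ∧ hes F Q u w = 0 ∧ hes F Q x w = 0 ∧ hes F Q w w ≠ 0) :
    grd g Q ⬝ᵥ u = 0 := by
  have hpoly : ∀ p : Polynomial K, p.eval 0 ≠ 0 → ∃ t, t ≠ 0 ∧ p.eval t ≠ 0 := by
    intro p hp
    by_contra hcon
    push Not at hcon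
    have h2 : p * Polynomial.X = 0 := by
      refine Polynomial.funext fun t => ?_
      rw [Polynomial.eval_mul, Polynomial.eval_X, Polynomial.eval_zero]
      by_cases ht : t = 0
      · rw [ht, mul_zero]
      · rw [hcon t ht, zero_mul]
    have h3 : p = 0 := (mul_eq_zero.1 h2).resolve_right Polynomial.X_ne_zero
    rw [h3, Polynomial.eval_zero] at hp
    exact hp rfl
  have hz : ∀ a : Fin n → K, hes F Q a 0 = 0 := by
    intro a
    have := hes_smul_right F Q a 0 0
    rwa [zero_smul, zero_mul] at this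
  by_cases hux : hes F Q u x = 0
  · refine loc_conic hK hF hQ hh hg hu hx (dotProduct_zero _) huu hux ?_ (hz _) (hz _) h0 ?_
    · rw [hz, hxx]; ring
    · obtain ⟨p, hp⟩ := exists_poly F Q x u 0
      obtain ⟨t, ht, htp⟩ := hpoly p (by
        rw [hp]
        simpa using h1)
      refine ⟨t⁻¹, ?_⟩
      rw [hp] at htp
      have h4 : x + t • u + t ^ 2 • (0 : Fin n → K) = t • (u + t⁻¹ • x + t⁻¹ ^ 2 • (0 : Fin n → K)) := by
        rw [smul_zero, smul_zero, add_zero, add_zero, smul_add, smul_smul, mul_inv_cancel₀ ht, one_smul, add_comm]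
      rw [h4, cub_smul, cub_smul2, cub_smul3] at htp
      intro h5
      apply htp
      rw [h5]
      ring
  · obtain ⟨w, hw1, hw2, hw3, hw4⟩ := hw hux
    obtain ⟨κ, hκ⟩ : ∃ κ : K, κ = - hes F Q w w / (2 * hes F Q u x) := ⟨_, rfl⟩
    have h2 : (2 : K) ≠ 0 := two_ne_zero
    have hκ0 : κ ≠ 0 := by
      rw [hκ]
      exact div_ne_zero (neg_ne_zero.2 hw4) (mul_ne_zero h2 hux)
    refine loc_conic hK hF hQ hh hg (e2 := w) (e3 := κ • x) hu hw1 ?_ huu hw2 ?_ ?_ ?_ h0 ?_
    · rw [dotProduct_smul, hx, smul_zero]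
    · rw [hes_smul_right, hκ]
      field_simp
      ring
    · rw [hes_smul_right, hes_symm F Q w x, hw3, mul_zero]
    · rw [hes_smul_right, hes_smul_left, hxx]
      ring
    · obtain ⟨p, hp⟩ := exists_poly F Q (κ • x) w u
      obtain ⟨t, ht, htp⟩ := hpoly p (by
        rw [hp]
        have h3 : κ • x + (0 : K) • w + (0 : K) ^ 2 • u = κ • x := by simp
        rw [h3, cub_smul, cub_smul2, cub_smul3]
        exact mul_ne_zero hκ0 (mul_ne_zero hκ0 (mul_ne_zero hκ0 h1)))
      refine ⟨t⁻¹, ?_⟩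
      rw [hp] at htp
      have h4 : κ • x + t • w + t ^ 2 • u = t ^ 2 • (u + t⁻¹ • w + t⁻¹ ^ 2 • (κ • x)) := by
        rw [smul_add, smul_add, smul_smul, smul_smul]
        have e1 : t ^ 2 * t⁻¹ = t := by field_simp
        have e2 : t ^ 2 * t⁻¹ ^ 2 = 1 := by field_simp
        rw [e1, e2, one_smul]
        abel
      rw [h4, cub_smul, cub_smul2, cub_smul3] at htp
      intro h5
      apply htp
      rw [h5]
      ring

theorem main_cube {K L : Type} [Field K] [CharZero K] [Field L] [Algebra K L] [IsAlgClosed L] (hK : Sol K) {n : ℕ}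
    {F : MvPolynomial (Fin (n + 1)) K} (hF : F.totalDegree ≤ 7) (hirr : Irreducible F) {P : Fin (n + 1) → K} (hP : eval P F = 0)
    (hgr : grd F P ≠ 0) {a b : Fin 4 → Fin (n + 1) → K} (ha : ∀ k, grd F P ⬝ᵥ a k = 0) (hb : ∀ k, grd F P ⬝ᵥ b k = 0)
    (hr : (Matrix.of fun k l => hes F P (a k) (b l)).det ≠ 0)
    (hC : ∀ l m : Fin (n + 1) → L, ∃ v : Fin (n + 1) → L, d1 F P v = 0 ∧
      d3 F P v v v ≠ (∑ i, l i * v i) ^ 3 + d2 F P v v * ∑ i, m i * v i)
    {G : MvPolynomial (Fin (n + 1)) K} (hG : ∀ x, eval x F = 0 → eval x G = 0) : F ∣ G := by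
  classical
  obtain ⟨c, hc⟩ := Function.ne_iff.1 hgr
  have hc' : eval P (pderiv c F) ≠ 0 := hc
  obtain ⟨i, j, hij⟩ := exists_minor_four (c := c) hc' ha hb hr
  obtain ⟨r, hr0, hrQ⟩ := exists_cube_open (L := L) hc' hij hC
  obtain ⟨D, hD⟩ : ∃ D : MvPolynomial (Fin (n + 1)) K, D = (Matrix.of fun k l => bf F c (i k) (j l)).det := ⟨_, rfl⟩
  have hDe : ∀ Q, eval Q D = (Matrix.of fun k l => eval Q (bf F c (i k) (j l))).det := by
    intro Q
    rw [hD, RingHom.map_det]
    rfl
  set h : MvPolynomial (Fin (n + 1)) K := pderiv c F * (D * r) with hh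
  refine dvd_of_tangent hirr (U := {Q | eval Q F = 0 ∧ eval Q h ≠ 0}) (fun Q hQ => hQ.1) (P := P)
    ⟨hP, by rw [hh, map_mul, map_mul, hDe]; exact mul_ne_zero hc' (mul_ne_zero hij hr0)⟩ c (fun Q hQ => ?_)
    (fun g hg Q hQ u hu => ?_) (fun Q hQ => hG Q hQ.1)
  · have h1 := hQ.2
    rw [hh, map_mul] at h1
    exact left_ne_zero_of_mul h1
  · have h1 := hQ.2
    rw [hh, map_mul, map_mul, hDe] at h1
    have hQc : eval Q (pderiv c F) ≠ 0 := left_ne_zero_of_mul h1
    have hQD := left_ne_zero_of_mul (right_ne_zero_of_mul h1)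
    have hQr := hrQ Q (right_ne_zero_of_mul (right_ne_zero_of_mul h1))
    have hgQ : ∀ x, eval x F = 0 → eval x h ≠ 0 → eval x g = 0 := fun x hx1 hx2 => hg x ⟨hx1, hx2⟩
    let T : Submodule K (Fin (n + 1) → K) := LinearMap.ker (dot (grd F Q))
    have hT : ∀ v, v ∈ T ↔ grd F Q ⬝ᵥ v = 0 := fun v => LinearMap.mem_ker
    have hrk : 4 ≤ Module.finrank K (LinearMap.range (hesB F Q T)) := by
      refine four_le_finrank (hesB F Q T) (a := fun k => ⟨tv F c (i k) Q, (hT _).2 (dot_tv F c _ Q)⟩)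
        (b := fun k => ⟨tv F c (j k) Q, (hT _).2 (dot_tv F c _ Q)⟩) ?_
      simp only [hesB_apply, ← eval_bf]
      exact hQD
    -- the cubic form is not a cube on the quadric
    have hnc : ∀ (l : T →ₗ[K] K) (s : K), ∃ x : T, hesB F Q T x x = 0 ∧ cubT F Q T x x x ≠ s * l x ^ 3 := by
      intro l s
      by_contra hcon
      push Not at hcon
      obtain ⟨l', m, hlm⟩ := cube_decomp hK (hesB F Q T) (fun u v => hes_symm F Q u.1 v.1) (cubT F Q T)
        (fun u v w => cub_symm F Q u.1 v.1 w.1) (fun u v w => cub_symm' F Q u.1 v.1 w.1) hrk l s hcon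
      obtain ⟨lam, hlam⟩ := LinearMap.exists_extend l'
      obtain ⟨muu, hmuu⟩ := LinearMap.exists_extend m
      have hrep : ∀ (φ : (Fin (n + 1) → K) →ₗ[K] K) (v : Fin (n + 1) → K), φ v = (fun i => φ (Pi.single i 1)) ⬝ᵥ v := by
        intro φ v
        rw [LinearMap.pi_apply_eq_sum_univ φ v, dotProduct]
        refine Finset.sum_congr rfl fun i _ => ?_
        have h5 : (fun j => if i = j then (1 : K) else 0) = Pi.single i 1 := by
          funext k
          by_cases h : i = k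
          · subst h; simp
          · rw [if_neg h, Pi.single_eq_of_ne (Ne.symm h)]
        rw [h5, smul_eq_mul, mul_comm]
      have hpol := polar_three (L := K) (V := T)
        (fun u v w => 3 * cubT F Q T u v w - 3 * (l' u * l' v * l' w) -
          (hesB F Q T u v * m w + hesB F Q T v w * m u + hesB F Q T u w * m v))
        (fun u u' v w => by simp only [map_add, LinearMap.add_apply]; ring)
        (fun u v w => by
          have e1 : cubT F Q T u v w = cubT F Q T v u w := cub_symm F Q u.1 v.1 w.1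
          have e2 : hesB F Q T u v = hesB F Q T v u := hes_symm F Q u.1 v.1
          rw [e1, e2]
          ring)
        (fun u v w => by
          have e1 : cubT F Q T u v w = cubT F Q T u w v := cub_symm' F Q u.1 v.1 w.1
          have e2 : hesB F Q T v w = hesB F Q T w v := hes_symm F Q v.1 w.1
          rw [e1, e2]
          ring)
        (fun x => by
          rw [hlm x]
          ring)
      obtain ⟨u1, v1, w1, hu1, hv1, hw1, hne⟩ := hQr (fun i => lam (Pi.single i 1)) (fun i => muu (Pi.single i 1))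
      apply hne
      rw [← hrep, ← hrep, ← hrep, ← hrep, ← hrep, ← hrep]
      have hp := hpol ⟨u1, (hT _).2 hu1⟩ ⟨v1, (hT _).2 hv1⟩ ⟨w1, (hT _).2 hw1⟩
      have hlam : ∀ y : T, l' y = lam y.1 := fun y => (LinearMap.congr_fun hlam y).symm
      have hmuu : ∀ y : T, m y = muu y.1 := fun y => (LinearMap.congr_fun hmuu y).symm
      simp only [hlam, hmuu, cubT_apply, hesB_apply] at hp
      linear_combination hp
    obtain ⟨x0, hx0, hx1⟩ := hnc 0 0
    rw [hesB_apply] at hx0
    rw [cubT_apply] at hx1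
    have hx1' : cub F Q x0.1 x0.1 x0.1 ≠ 0 := by simpa using hx1
    have hl : ∀ v : T, hesB F Q T v v = 0 → cubT F Q T v v v = 0 → ((dot (grd g Q)).comp T.subtype) v = 0 := by
      intro v hv1 hv2
      refine loc_rank hK hF hQ.1 hQ.2 hgQ ((hT _).1 v.2) hv1 hv2 ((hT _).1 x0.2) hx0 hx1' (fun hne => ?_)
      obtain ⟨w, hw1, hw2, hw3⟩ := exists_perp (hesB F Q T) (fun u v => hes_symm F Q u.1 v.1) hrk (u := v) (x := x0) hv1 hx0 hne
      exact ⟨w.1, (hT _).1 w.2, hw1, hw2, hw3⟩
    by_contra hcon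
    have hl0 : (dot (grd g Q)).comp T.subtype ≠ 0 := by
      intro h0
      exact hcon (LinearMap.congr_fun h0 ⟨u, (hT _).2 hu⟩)
    obtain ⟨s, hs⟩ := span_cube hK (hesB F Q T) (fun u v => hes_symm F Q u.1 v.1) (cubT F Q T)
      (fun u v w => cub_symm F Q u.1 v.1 w.1) (fun u v w => cub_symm' F Q u.1 v.1 w.1) hrk _ hl0 hl
    obtain ⟨x, hx2, hx3⟩ := hnc _ s
    exact hx3 (hs x hx2)

end Pool.Agent.H8.SB
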