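import Pool.Agent.H8.SD.MainA

/-!
# SB Min4: `4 × 4` minors of the Hessian form

`exists_minor_four`.  For tangent `u, v` at `P`: `F_c ^ 2 * hes F P u v = ∑ i j, u i * v j * bf i j` (see the proof of `exists_minor` in
`SD/MainA.lean`, `hbil`), `bf i j = eval P (bf F c i j)`.  So `F_c ^ 2` times the `4 × 4` matrix `hes (a k) (b l)` is `A * B * Aᵀ'` with the
`4 × n` matrices `A k i = a k i`, `A' l j = b l j`, `B = bf`; it is invertible, so `B.rank ≥ 4` (`Matrix.rank_mul_le`), and a matrix of rank `≥ 4` has a
non-zero `4 × 4` minor (choose 4 independent rows, then 4 independent columns of the `4 × n` matrix of these rows, see `SB/Min3.lean` for 3 rows).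
`four_le_finrank`: a relation between the four functionals `H (a k)` gives a relation between the rows of the matrix, so they are independent
elements of `range H`.
-/

set_option autoImplicit false

open MvPolynomial Matrix

namespace Pool.Agent.H8.SB

open Pool.Agent.H8.SD

/-- a `4 × n` matrix with independent rows has a nonzero `4 × 4` minor -/
private theorem cols_four {L : Type} [Field L] {n : ℕ} (R : Matrix (Fin 4) (Fin n) L)
    (h : ∀ a : Fin 4 → L, a ᵥ* R = 0 → a = 0) :
    ∃ c : Fin 4 → Fin n, (Matrix.of fun s t => R s (c t)).det ≠ 0 := by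
  have hli : LinearIndependent L R.row := by
    rw [Fintype.linearIndependent_iff]
    intro g hg
    have : g ᵥ* R = 0 := by
      rw [← hg]
      ext j
      simp [Matrix.vecMul, dotProduct, Matrix.row]
    have h2 := h g this
    intro i
    rw [h2]
    rfl
  have hrank : R.rank = 4 := by
    simpa using hli.rank_matrix
  have hspan : Submodule.span L (Set.range R.col) = ⊤ := by
    apply Submodule.eq_top_of_finrank_eq
    rw [← Matrix.rank_eq_finrank_span_cols, hrank]
    simp
  obtain ⟨κ, a, ha, hs, hl⟩ := exists_linearIndependent' L R.col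
  rw [hspan] at hs
  have hfin : Finite κ := Finite.of_injective a ha
  have := Fintype.ofFinite κ
  let b : Module.Basis κ L (Fin 4 → L) := Module.Basis.mk hl hs.ge
  have hcard : Fintype.card κ = 4 := by
    have := Module.finrank_eq_card_basis b
    simpa using this.symm
  let e : κ ≃ Fin 4 := Fintype.equivFinOfCardEq hcard
  refine ⟨fun t => a (e.symm t), ?_⟩
  have hl2 : LinearIndependent L (fun t => R.col (a (e.symm t))) := by
    have := hl.comp e.symm e.symm.injective
    exact this
  have hu : IsUnit (Matrix.of fun s t => R s (a (e.symm t))) := by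
    rw [← Matrix.linearIndependent_cols_iff_isUnit]
    exact hl2
  exact ((Matrix.isUnit_iff_isUnit_det _).1 hu).ne_zero

/-- if `A * B * C` is an invertible `4 × 4` matrix, then `B` has a nonzero `4 × 4` minor -/
private theorem minor_four {L : Type} [Field L] {n : ℕ} (A : Matrix (Fin 4) (Fin n) L) (B : Matrix (Fin n) (Fin n) L)
    (C : Matrix (Fin n) (Fin 4) L) (h : (A * B * C).det ≠ 0) :
    ∃ i j : Fin 4 → Fin n, (Matrix.of fun k l => B (i k) (j l)).det ≠ 0 := by
  -- rows of `(B * C)ᵀ` are independent
  obtain ⟨i, hi⟩ := cols_four (B * C)ᵀ (by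
    intro x hx
    rw [Matrix.vecMul_transpose] at hx
    apply Matrix.eq_zero_of_mulVec_eq_zero h
    rw [Matrix.mul_assoc, ← Matrix.mulVec_mulVec, hx, Matrix.mulVec_zero])
  have hi2 : ((Matrix.of fun k l => B (i k) l : Matrix (Fin 4) (Fin n) L) * C).det ≠ 0 := by
    rw [← Matrix.det_transpose]
    have he : ((Matrix.of fun k l => B (i k) l : Matrix (Fin 4) (Fin n) L) * C)ᵀ = Matrix.of fun s t => (B * C)ᵀ s (i t) := by
      ext s t
      rw [Matrix.transpose_apply, Matrix.of_apply, Matrix.transpose_apply, Matrix.mul_apply, Matrix.mul_apply]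
      rfl
    rw [he]
    exact hi
  obtain ⟨j, hj⟩ := cols_four (Matrix.of fun k l => B (i k) l : Matrix (Fin 4) (Fin n) L) (by
    intro x hx
    apply Matrix.eq_zero_of_vecMul_eq_zero hi2
    rw [← Matrix.vecMul_vecMul, hx, Matrix.zero_vecMul])
  exact ⟨i, j, hj⟩

private theorem hbil4 {K : Type} [Field K] {n : ℕ} (F : MvPolynomial (Fin n) K) (P : Fin n → K) (c : Fin n)
    (u v : Fin n → K) (hu : grd F P ⬝ᵥ u = 0) (hv : grd F P ⬝ᵥ v = 0) :
    eval P (pderiv c F) * (eval P (pderiv c F) * hes F P u v) = ∑ i, ∑ j, u i * v j * eval P (bf F c i j) := by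
  have hexp : ∀ u : Fin n → K, grd F P ⬝ᵥ u = 0 → eval P (pderiv c F) • u = ∑ i, u i • tv F c i P := by
    intro u hu
    have h1 : ∑ i, u i • tv F c i P = eval P (pderiv c F) • (∑ i, u i • (Pi.single i 1 : Fin n → K)) -
        (grd F P ⬝ᵥ u) • (Pi.single c 1 : Fin n → K) := by
      unfold tv
      simp only [smul_sub, Finset.sum_sub_distrib]
      congr 1
      · rw [Finset.smul_sum]
        refine Finset.sum_congr rfl fun i _ => ?_
        rw [smul_comm]
      · rw [dotProduct, Finset.sum_smul]
        refine Finset.sum_congr rfl fun i _ => ?_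
        rw [smul_smul]
        congr 1
        unfold grd
        ring
    rw [h1, hu, zero_smul, sub_zero]
    congr 1
    funext k
    rw [Finset.sum_apply, Finset.sum_eq_single k]
    · simp
    · intro i _ hi
      rw [Pi.smul_apply, Pi.single_eq_of_ne hi.symm, smul_zero]
    · simp
  have hsl : ∀ (x : Fin n → K) (w : Fin n → Fin n → K) (v : Fin n → K),
      hes F P (∑ i, x i • w i) v = ∑ i, x i * hes F P (w i) v := by
    intro x w v
    have h2 : ∀ s : Finset (Fin n), hes F P (∑ i ∈ s, x i • w i) v = ∑ i ∈ s, x i * hes F P (w i) v := by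
      intro s
      induction s using Finset.induction_on with
      | empty => simp [hes]
      | insert i s hi ih => rw [Finset.sum_insert hi, Finset.sum_insert hi, hes_add_left, hes_smul_left, ih]
    exact h2 _
  have hbil : ∀ u v : Fin n → K, grd F P ⬝ᵥ u = 0 → grd F P ⬝ᵥ v = 0 →
      eval P (pderiv c F) * (eval P (pderiv c F) * hes F P u v) = ∑ i, ∑ j, u i * v j * eval P (bf F c i j) := by
    intro u v hu hv
    rw [← hes_smul_right, ← hes_smul_left, hexp u hu, hexp v hv, hsl]
    refine Finset.sum_congr rfl fun i _ => ?_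
    rw [hes_symm, hsl, Finset.mul_sum]
    refine Finset.sum_congr rfl fun j _ => ?_
    rw [hes_symm, eval_bf]
    ring
  exact hbil u v hu hv

private theorem det4 {K : Type} [Field K] (s : K) (hs : s ≠ 0) (M N : Matrix (Fin 4) (Fin 4) K)
    (h : ∀ k l, M k l = s * (s * N k l)) (hN : N.det ≠ 0) : M.det ≠ 0 := by
  have h1 : M = (s * s) • N := by
    ext k l
    rw [h, Matrix.smul_apply, smul_eq_mul, mul_assoc]
  rw [h1, Matrix.det_smul]
  exact mul_ne_zero (pow_ne_zero _ (mul_ne_zero hs hs)) hN

private theorem tri4 {K : Type} [Field K] {n : ℕ} (B : Fin n → Fin n → K) (a b : Fin 4 → Fin n → K) (k l : Fin 4) :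
    ((Matrix.of fun k i => a k i : Matrix (Fin 4) (Fin n) K) * (Matrix.of B) *
      (Matrix.of fun j l => b l j : Matrix (Fin n) (Fin 4) K)) k l = ∑ i, ∑ j, a k i * b l j * B i j := by
  simp only [Matrix.mul_apply, Matrix.of_apply, Finset.sum_mul]
  rw [Finset.sum_comm]
  refine Finset.sum_congr rfl fun i _ => Finset.sum_congr rfl fun j _ => ?_
  ring

theorem exists_minor_four {K : Type} [Field K] {n : ℕ} {F : MvPolynomial (Fin n) K} {P : Fin n → K} {c : Fin n}
    (hc : eval P (pderiv c F) ≠ 0) {a b : Fin 4 → Fin n → K} (ha : ∀ k, grd F P ⬝ᵥ a k = 0) (hb : ∀ k, grd F P ⬝ᵥ b k = 0)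
    (hr : (Matrix.of fun k l => hes F P (a k) (b l)).det ≠ 0) :
    ∃ i j : Fin 4 → Fin n, (Matrix.of fun k l => eval P (bf F c (i k) (j l))).det ≠ 0 := by
  have h1 := det4 (eval P (pderiv c F)) hc ((Matrix.of fun k i => a k i : Matrix (Fin 4) (Fin n) K) *
    (Matrix.of fun i j => eval P (bf F c i j)) * (Matrix.of fun j l => b l j : Matrix (Fin n) (Fin 4) K))
    (Matrix.of fun k l => hes F P (a k) (b l)) (fun k l => by
      rw [tri4, Matrix.of_apply, hbil4 F P c _ _ (ha k) (hb l)]) hr
  exact minor_four _ (Matrix.of fun i j => eval P (bf F c i j)) _ h1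

theorem four_le_finrank {K : Type} [Field K] {V : Type} [AddCommGroup V] [Module K V] [FiniteDimensional K V]
    (H : V →ₗ[K] V →ₗ[K] K) {a b : Fin 4 → V} (h : (Matrix.of fun k l => H (a k) (b l)).det ≠ 0) :
    4 ≤ Module.finrank K (LinearMap.range H) := by
  have hli : LinearIndependent K (fun k => (⟨H (a k), LinearMap.mem_range_self H (a k)⟩ : LinearMap.range H)) := by
    apply LinearIndependent.of_comp (LinearMap.range H).subtype
    refine Fintype.linearIndependent_iff.2 ?_
    intro g hg
    have hg2 : ∑ k, g k • H (a k) = 0 := hg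
    have hz : g ᵥ* (Matrix.of fun k l => H (a k) (b l)) = 0 := by
      funext l
      have h1 := congrArg (fun f : V →ₗ[K] K => f (b l)) hg2
      simpa [Matrix.vecMul, dotProduct, LinearMap.sum_apply] using h1
    intro k
    have := Matrix.eq_zero_of_vecMul_eq_zero h hz
    rw [this]
    rfl
  simpa using hli.fintype_card_le_finrank

end Pool.Agent.H8.SB
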