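import Pool.Agent.H8.SB.OpenS
import Pool.Agent.H8.SB.CubP
import Pool.Agent.H8.SB.Min4
import Pool.Agent.H8.SB.MainB

/-!
# SB OpenC: the condition `the cubic form is not a cube modulo the quadratic form` is open
-/

set_option autoImplicit false

open MvPolynomial Matrix

namespace Pool.Agent.H8.SB

open Pool.Agent.H8.SD

section
variable {K : Type} [Field K] {n : ℕ}

/-- the coordinates of `tv` as polynomials -/
noncomputable def tvp (F : MvPolynomial (Fin n) K) (c a i : Fin n) : MvPolynomial (Fin n) K :=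
  (if i = a then pderiv c F else 0) - (if i = c then pderiv a F else 0)

theorem eval_tvp (F : MvPolynomial (Fin n) K) (c a i : Fin n) (Q : Fin n → K) : eval Q (tvp F c a i) = tv F c a Q i := by
  unfold tvp tv
  rw [map_sub, Pi.sub_apply, Pi.smul_apply, Pi.smul_apply, smul_eq_mul, smul_eq_mul]
  congr 1
  · by_cases h : i = a
    · subst h; simp
    · rw [if_neg h, Pi.single_eq_of_ne h]; simp
  · by_cases h : i = c
    · subst h; simp
    · rw [if_neg h, Pi.single_eq_of_ne h]; simp

/-- the cubic tensor on the vectors `tv` -/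
noncomputable def cq (F : MvPolynomial (Fin n) K) (c a b e : Fin n) : MvPolynomial (Fin n) K :=
  ∑ i, ∑ j, ∑ k, tvp F c a i * tvp F c b j * tvp F c e k * pderiv i (pderiv j (pderiv k F))

theorem eval_cq (F : MvPolynomial (Fin n) K) (c a b e : Fin n) (Q : Fin n → K) :
    eval Q (cq F c a b e) = cub F Q (tv F c a Q) (tv F c b Q) (tv F c e Q) := by
  unfold cq cub
  simp only [map_sum, map_mul, eval_tvp]

end

section
variable {K L : Type} [Field K] [Field L] [Algebra K L] {n : ℕ}

/-- the form `3 s ^ 3 C - 3 l ^ 3 - 3 H z ^ 3`, polarised -/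
noncomputable def th (F : MvPolynomial (Fin n) K) (c : Fin n) (p : Fin n × Fin n × Fin n) :
    MvPolynomial (Fin 1 ⊕ Fin n ⊕ Fin n) (MvPolynomial (Fin n) K) :=
  C (3 * cq F c p.1 p.2.1 p.2.2) * X (Sum.inl 0) ^ 3
    - C 3 * (X (Sum.inr (Sum.inl p.1)) * X (Sum.inr (Sum.inl p.2.1)) * X (Sum.inr (Sum.inl p.2.2)))
    - (C (bf F c p.1 p.2.1) * X (Sum.inr (Sum.inr p.2.2)) ^ 3 + C (bf F c p.2.1 p.2.2) * X (Sum.inr (Sum.inr p.1)) ^ 3
      + C (bf F c p.1 p.2.2) * X (Sum.inr (Sum.inr p.2.1)) ^ 3)

theorem th_hom (F : MvPolynomial (Fin n) K) (c : Fin n) (p : Fin n × Fin n × Fin n) : (th F c p).IsHomogeneous 3 := by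
  have h1 : ∀ (a : MvPolynomial (Fin n) K) (x : Fin 1 ⊕ Fin n ⊕ Fin n),
      (C a * X x ^ 3 : MvPolynomial (Fin 1 ⊕ Fin n ⊕ Fin n) (MvPolynomial (Fin n) K)).IsHomogeneous 3 := by
    intro a x
    have := (isHomogeneous_C (Fin 1 ⊕ Fin n ⊕ Fin n) a).mul ((isHomogeneous_X (MvPolynomial (Fin n) K) x).pow 3)
    simpa using this
  have h2 : ∀ (a : MvPolynomial (Fin n) K) (x y z : Fin 1 ⊕ Fin n ⊕ Fin n),
      (C a * (X x * X y * X z) : MvPolynomial (Fin 1 ⊕ Fin n ⊕ Fin n) (MvPolynomial (Fin n) K)).IsHomogeneous 3 := by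
    intro a x y z
    have := (isHomogeneous_C (Fin 1 ⊕ Fin n ⊕ Fin n) a).mul
      (((isHomogeneous_X (MvPolynomial (Fin n) K) x).mul (isHomogeneous_X _ y)).mul (isHomogeneous_X _ z))
    simpa using this
  unfold th
  exact ((h1 _ _).sub (h2 _ _ _ _)).sub (((h1 _ _).add (h1 _ _)).add (h1 _ _))

theorem aeval_th (F : MvPolynomial (Fin n) K) (c a b e : Fin n) (Q : Fin n → K) (v : Fin 1 ⊕ Fin n ⊕ Fin n → L) :
    aeval v (map (eval Q) (th F c (a, b, e))) =
      3 * algebraMap K L (eval Q (cq F c a b e)) * v (Sum.inl 0) ^ 3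
        - 3 * (v (Sum.inr (Sum.inl a)) * v (Sum.inr (Sum.inl b)) * v (Sum.inr (Sum.inl e)))
        - (algebraMap K L (eval Q (bf F c a b)) * v (Sum.inr (Sum.inr e)) ^ 3
          + algebraMap K L (eval Q (bf F c b e)) * v (Sum.inr (Sum.inr a)) ^ 3
          + algebraMap K L (eval Q (bf F c a e)) * v (Sum.inr (Sum.inr b)) ^ 3) := by
  unfold th
  simp only [map_sub, map_add, map_mul, map_pow, map_C, map_X, aeval_X, algHom_C, map_ofNat]

theorem d3_add1 (F : MvPolynomial (Fin n) K) (Q : Fin n → K) (u u' v w : Fin n → L) :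
    d3 F Q (u + u') v w = d3 F Q u v w + d3 F Q u' v w := by
  unfold d3
  simp only [← Finset.sum_add_distrib]
  refine Finset.sum_congr rfl fun i _ => Finset.sum_congr rfl fun j _ => Finset.sum_congr rfl fun k _ => ?_
  rw [Pi.add_apply]
  ring

theorem d3_add2 (F : MvPolynomial (Fin n) K) (Q : Fin n → K) (u v v' w : Fin n → L) :
    d3 F Q u (v + v') w = d3 F Q u v w + d3 F Q u v' w := by
  unfold d3
  simp only [← Finset.sum_add_distrib]
  refine Finset.sum_congr rfl fun i _ => Finset.sum_congr rfl fun j _ => Finset.sum_congr rfl fun k _ => ?_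
  rw [Pi.add_apply]
  ring

theorem d3_add3 (F : MvPolynomial (Fin n) K) (Q : Fin n → K) (u v w w' : Fin n → L) :
    d3 F Q u v (w + w') = d3 F Q u v w + d3 F Q u v w' := by
  unfold d3
  simp only [← Finset.sum_add_distrib]
  refine Finset.sum_congr rfl fun i _ => Finset.sum_congr rfl fun j _ => Finset.sum_congr rfl fun k _ => ?_
  rw [Pi.add_apply]
  ring

theorem d3_smul1 (F : MvPolynomial (Fin n) K) (Q : Fin n → K) (s : L) (u v w : Fin n → L) :
    d3 F Q (s • u) v w = s * d3 F Q u v w := by
  unfold d3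
  simp only [Finset.mul_sum]
  refine Finset.sum_congr rfl fun i _ => Finset.sum_congr rfl fun j _ => Finset.sum_congr rfl fun k _ => ?_
  rw [Pi.smul_apply, smul_eq_mul]
  ring

theorem d3_smul2 (F : MvPolynomial (Fin n) K) (Q : Fin n → K) (s : L) (u v w : Fin n → L) :
    d3 F Q u (s • v) w = s * d3 F Q u v w := by
  unfold d3
  simp only [Finset.mul_sum]
  refine Finset.sum_congr rfl fun i _ => Finset.sum_congr rfl fun j _ => Finset.sum_congr rfl fun k _ => ?_
  rw [Pi.smul_apply, smul_eq_mul]
  ring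

theorem d3_smul3 (F : MvPolynomial (Fin n) K) (Q : Fin n → K) (s : L) (u v w : Fin n → L) :
    d3 F Q u v (s • w) = s * d3 F Q u v w := by
  unfold d3
  simp only [Finset.mul_sum]
  refine Finset.sum_congr rfl fun i _ => Finset.sum_congr rfl fun j _ => Finset.sum_congr rfl fun k _ => ?_
  rw [Pi.smul_apply, smul_eq_mul]
  ring

theorem d2_add1 (F : MvPolynomial (Fin n) K) (Q : Fin n → K) (u u' v : Fin n → L) :
    d2 F Q (u + u') v = d2 F Q u v + d2 F Q u' v := by
  unfold d2
  simp only [← Finset.sum_add_distrib]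
  refine Finset.sum_congr rfl fun i _ => Finset.sum_congr rfl fun j _ => ?_
  rw [Pi.add_apply]
  ring

theorem d2_add2 (F : MvPolynomial (Fin n) K) (Q : Fin n → K) (u v v' : Fin n → L) :
    d2 F Q u (v + v') = d2 F Q u v + d2 F Q u v' := by
  unfold d2
  simp only [← Finset.sum_add_distrib]
  refine Finset.sum_congr rfl fun i _ => Finset.sum_congr rfl fun j _ => ?_
  rw [Pi.add_apply]
  ring

theorem d2_smul1 (F : MvPolynomial (Fin n) K) (Q : Fin n → K) (s : L) (u v : Fin n → L) :
    d2 F Q (s • u) v = s * d2 F Q u v := by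
  unfold d2
  simp only [Finset.mul_sum]
  refine Finset.sum_congr rfl fun i _ => Finset.sum_congr rfl fun j _ => ?_
  rw [Pi.smul_apply, smul_eq_mul]
  ring

theorem d2_smul2 (F : MvPolynomial (Fin n) K) (Q : Fin n → K) (s : L) (u v : Fin n → L) :
    d2 F Q u (s • v) = s * d2 F Q u v := by
  unfold d2
  simp only [Finset.mul_sum]
  refine Finset.sum_congr rfl fun i _ => Finset.sum_congr rfl fun j _ => ?_
  rw [Pi.smul_apply, smul_eq_mul]
  ring

theorem d2_sum (F : MvPolynomial (Fin n) K) (Q : Fin n → K) (x : Fin n → L) (T : Fin n → Fin n → L) :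
    d2 F Q (∑ a, x a • T a) (∑ a, x a • T a) = ∑ a, ∑ b, x a * x b * d2 F Q (T a) (T b) := by
  have h1 : ∀ v : Fin n → L, d2 F Q (∑ a, x a • T a) v = ∑ a, x a * d2 F Q (T a) v := by
    intro v
    let φ : (Fin n → L) →ₗ[L] L :=
      { toFun := fun u => d2 F Q u v, map_add' := fun u u' => d2_add1 F Q u u' v, map_smul' := fun s u => d2_smul1 F Q s u v }
    have := map_sum φ (fun a => x a • T a) Finset.univ
    simp only [map_smul, smul_eq_mul] at this
    exact this
  have h2 : ∀ u : Fin n → L, d2 F Q u (∑ a, x a • T a) = ∑ a, x a * d2 F Q u (T a) := by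
    intro u
    let φ : (Fin n → L) →ₗ[L] L :=
      { toFun := fun v => d2 F Q u v, map_add' := fun v v' => d2_add2 F Q u v v', map_smul' := fun s v => d2_smul2 F Q s u v }
    have := map_sum φ (fun a => x a • T a) Finset.univ
    simp only [map_smul, smul_eq_mul] at this
    exact this
  rw [h1]
  refine Finset.sum_congr rfl fun a _ => ?_
  rw [h2, Finset.mul_sum]
  refine Finset.sum_congr rfl fun b _ => ?_
  ring

theorem d3_sum (F : MvPolynomial (Fin n) K) (Q : Fin n → K) (x : Fin n → L) (T : Fin n → Fin n → L) :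
    d3 F Q (∑ a, x a • T a) (∑ a, x a • T a) (∑ a, x a • T a) =
      ∑ a, ∑ b, ∑ e, x a * x b * x e * d3 F Q (T a) (T b) (T e) := by
  have h1 : ∀ v w : Fin n → L, d3 F Q (∑ a, x a • T a) v w = ∑ a, x a * d3 F Q (T a) v w := by
    intro v w
    let φ : (Fin n → L) →ₗ[L] L :=
      { toFun := fun u => d3 F Q u v w, map_add' := fun u u' => d3_add1 F Q u u' v w, map_smul' := fun s u => d3_smul1 F Q s u v w }
    have := map_sum φ (fun a => x a • T a) Finset.univ
    simp only [map_smul, smul_eq_mul] at this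
    exact this
  have h2 : ∀ u w : Fin n → L, d3 F Q u (∑ a, x a • T a) w = ∑ a, x a * d3 F Q u (T a) w := by
    intro u w
    let φ : (Fin n → L) →ₗ[L] L :=
      { toFun := fun v => d3 F Q u v w, map_add' := fun v v' => d3_add2 F Q u v v' w, map_smul' := fun s v => d3_smul2 F Q s u v w }
    have := map_sum φ (fun a => x a • T a) Finset.univ
    simp only [map_smul, smul_eq_mul] at this
    exact this
  have h3 : ∀ u v : Fin n → L, d3 F Q u v (∑ a, x a • T a) = ∑ a, x a * d3 F Q u v (T a) := by
    intro u v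
    let φ : (Fin n → L) →ₗ[L] L :=
      { toFun := fun w => d3 F Q u v w, map_add' := fun w w' => d3_add3 F Q u v w w', map_smul' := fun s w => d3_smul3 F Q s u v w }
    have := map_sum φ (fun a => x a • T a) Finset.univ
    simp only [map_smul, smul_eq_mul] at this
    exact this
  rw [h1]
  refine Finset.sum_congr rfl fun a _ => ?_
  rw [h2, Finset.mul_sum]
  refine Finset.sum_congr rfl fun b _ => ?_
  rw [h3, Finset.mul_sum, Finset.mul_sum]
  refine Finset.sum_congr rfl fun e _ => ?_
  ring

theorem d2_K (F : MvPolynomial (Fin n) K) (Q u v : Fin n → K) :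
    d2 F Q (fun i => algebraMap K L (u i)) (fun i => algebraMap K L (v i)) = algebraMap K L (hes F Q u v) := by
  unfold d2 hes
  simp only [map_sum, map_mul]
  refine Finset.sum_congr rfl fun i _ => Finset.sum_congr rfl fun j _ => ?_
  ring

theorem d3_K (F : MvPolynomial (Fin n) K) (Q u v w : Fin n → K) :
    d3 F Q (fun i => algebraMap K L (u i)) (fun i => algebraMap K L (v i)) (fun i => algebraMap K L (w i)) =
      algebraMap K L (cub F Q u v w) := by
  unfold d3 cub
  simp only [map_sum, map_mul]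
  refine Finset.sum_congr rfl fun i _ => Finset.sum_congr rfl fun j _ => Finset.sum_congr rfl fun k _ => ?_
  ring

/-- the polarised identity gives the identity on the diagonal -/
theorem cubic_of_tensor (c3 : Fin n → Fin n → Fin n → L) (B : Fin n → Fin n → L) (l z3 : Fin n → L) (s : L)
    (h : ∀ a b e, 3 * c3 a b e * s ^ 3 - 3 * (l a * l b * l e) - (B a b * z3 e + B b e * z3 a + B a e * z3 b) = 0) (x : Fin n → L) :
    3 * (∑ a, ∑ b, ∑ e, x a * x b * x e * c3 a b e) * s ^ 3 =
      3 * (∑ a, l a * x a) ^ 3 + 3 * ((∑ a, ∑ b, x a * x b * B a b) * ∑ a, z3 a * x a) := by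
  have h1 : ∀ f g k : Fin n → L, (∑ a, f a) * (∑ a, g a) * (∑ a, k a) = ∑ a, ∑ b, ∑ e, f a * g b * k e := by
    intro f g k
    rw [Finset.sum_mul_sum, Finset.sum_mul]
    refine Finset.sum_congr rfl fun a _ => ?_
    rw [Finset.sum_mul]
    refine Finset.sum_congr rfl fun b _ => ?_
    rw [Finset.mul_sum]
  have h2 : (∑ a, ∑ b, x a * x b * B a b) * (∑ a, z3 a * x a) = ∑ a, ∑ b, ∑ e, x a * x b * x e * (B a b * z3 e) := by
    rw [Finset.sum_mul]
    refine Finset.sum_congr rfl fun a _ => ?_
    rw [Finset.sum_mul]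
    refine Finset.sum_congr rfl fun b _ => ?_
    rw [Finset.mul_sum]
    refine Finset.sum_congr rfl fun e _ => ?_
    ring
  have h3 : (∑ a, ∑ b, x a * x b * B a b) * (∑ a, z3 a * x a) = ∑ a, ∑ b, ∑ e, x a * x b * x e * (B b e * z3 a) := by
    rw [mul_comm, Finset.sum_mul]
    refine Finset.sum_congr rfl fun a _ => ?_
    rw [Finset.mul_sum]
    refine Finset.sum_congr rfl fun b _ => ?_
    rw [Finset.mul_sum]
    refine Finset.sum_congr rfl fun e _ => ?_
    ring
  have h4 : (∑ a, ∑ b, x a * x b * B a b) * (∑ a, z3 a * x a) = ∑ a, ∑ b, ∑ e, x a * x b * x e * (B a e * z3 b) := by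
    rw [Finset.sum_mul]
    refine Finset.sum_congr rfl fun a _ => ?_
    rw [Finset.sum_mul_sum, Finset.sum_comm]
    refine Finset.sum_congr rfl fun b _ => Finset.sum_congr rfl fun e _ => ?_
    ring
  have h5 : (∑ a, l a * x a) ^ 3 = ∑ a, ∑ b, ∑ e, x a * x b * x e * (l a * l b * l e) := by
    rw [pow_three, ← mul_assoc, h1]
    refine Finset.sum_congr rfl fun a _ => Finset.sum_congr rfl fun b _ => Finset.sum_congr rfl fun e _ => ?_
    ring
  have h6 : 3 * (∑ a, ∑ b, ∑ e, x a * x b * x e * c3 a b e) * s ^ 3 =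
      3 * (∑ a, ∑ b, ∑ e, x a * x b * x e * (l a * l b * l e)) + ((∑ a, ∑ b, ∑ e, x a * x b * x e * (B a b * z3 e)) +
        (∑ a, ∑ b, ∑ e, x a * x b * x e * (B b e * z3 a)) + ∑ a, ∑ b, ∑ e, x a * x b * x e * (B a e * z3 b)) := by
    simp only [Finset.mul_sum, Finset.sum_mul, ← Finset.sum_add_distrib]
    refine Finset.sum_congr rfl fun a _ => Finset.sum_congr rfl fun b _ => Finset.sum_congr rfl fun e _ => ?_
    linear_combination x a * x b * x e * h a b e
  rw [h6, ← h2, ← h3, ← h4, h5]
  ring

end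

theorem exists_cube_open {K L : Type} [Field K] [CharZero K] [Field L] [Algebra K L] [IsAlgClosed L] {n : ℕ}
    {F : MvPolynomial (Fin n) K} {P : Fin n → K} {c : Fin n} (hc : eval P (pderiv c F) ≠ 0) {i j : Fin 4 → Fin n}
    (hm : (Matrix.of fun k l => eval P (bf F c (i k) (j l))).det ≠ 0)
    (hC : ∀ l m : Fin n → L, ∃ v : Fin n → L, d1 F P v = 0 ∧
      d3 F P v v v ≠ (∑ i, l i * v i) ^ 3 + d2 F P v v * ∑ i, m i * v i) :
    ∃ r : MvPolynomial (Fin n) K, eval P r ≠ 0 ∧ ∀ Q : Fin n → K, eval Q r ≠ 0 → ∀ l m : Fin n → K, ∃ u v w : Fin n → K,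
      grd F Q ⬝ᵥ u = 0 ∧ grd F Q ⬝ᵥ v = 0 ∧ grd F Q ⬝ᵥ w = 0 ∧
      3 * cub F Q u v w ≠ 3 * ((l ⬝ᵥ u) * (l ⬝ᵥ v) * (l ⬝ᵥ w)) +
        (hes F Q u v * (m ⬝ᵥ w) + hes F Q v w * (m ⬝ᵥ u) + hes F Q u w * (m ⬝ᵥ v)) := by
  classical
  have : CharZero L := charZero_of_injective_algebraMap (algebraMap K L).injective
  have hPv : ∀ v : Fin 1 ⊕ Fin n ⊕ Fin n → L, v ≠ 0 → ∃ p, aeval v (map (eval P) (th F c p)) ≠ 0 := by
    intro v hv
    by_contra hcon
    push Not at hcon
    -- the data over `L`
    obtain ⟨s, hs⟩ : ∃ s : L, s = v (Sum.inl 0) := ⟨_, rfl⟩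
    obtain ⟨l, hl⟩ : ∃ l : Fin n → L, l = fun a => v (Sum.inr (Sum.inl a)) := ⟨_, rfl⟩
    obtain ⟨z, hz⟩ : ∃ z : Fin n → L, z = fun a => v (Sum.inr (Sum.inr a)) := ⟨_, rfl⟩
    have hth : ∀ a b e, 3 * algebraMap K L (eval P (cq F c a b e)) * s ^ 3 - 3 * (l a * l b * l e)
        - (algebraMap K L (eval P (bf F c a b)) * z e ^ 3 + algebraMap K L (eval P (bf F c b e)) * z a ^ 3
          + algebraMap K L (eval P (bf F c a e)) * z b ^ 3) = 0 := by
      intro a b e
      have h1 := hcon (a, b, e)
      rw [aeval_th] at h1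
      rw [hs, hl, hz]
      exact h1
    have hid := cubic_of_tensor (fun a b e => algebraMap K L (eval P (cq F c a b e))) (fun a b => algebraMap K L (eval P (bf F c a b)))
      l (fun a => z a ^ 3) s hth
    by_cases hs0 : s = 0
    · -- `l ^ 3 + H m = 0`
      let H : (Fin n → L) →ₗ[L] (Fin n → L) →ₗ[L] L :=
        Matrix.toLinearMap₂' L (Matrix.of fun a b => algebraMap K L (eval P (bf F c a b)))
      have hHa : ∀ x y, H x y = ∑ a, ∑ b, x a * y b * algebraMap K L (eval P (bf F c a b)) := by
        intro x y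
        change Matrix.toLinearMap₂' L (Matrix.of fun a b => algebraMap K L (eval P (bf F c a b))) x y = _
        rw [Matrix.toLinearMap₂'_apply]
        refine Finset.sum_congr rfl fun a _ => Finset.sum_congr rfl fun b _ => ?_
        simp only [Matrix.of_apply, smul_eq_mul]
        ring
      have hHs : ∀ x y, H x y = H y x := by
        intro x y
        rw [hHa, hHa, Finset.sum_comm]
        refine Finset.sum_congr rfl fun a _ => Finset.sum_congr rfl fun b _ => ?_
        rw [eval_bf, eval_bf, hes_symm F P (tv F c b P)]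
        ring
      have hrk : 4 ≤ Module.finrank L (LinearMap.range H) := by
        refine four_le_finrank H (a := fun k => Pi.single (i k) 1) (b := fun k => Pi.single (j k) 1) ?_
        have h2 : (Matrix.of fun k l => H (Pi.single (i k) 1) (Pi.single (j l) 1)) =
            (Matrix.of fun k l => eval P (bf F c (i k) (j l))).map (algebraMap K L) := by
          ext k l
          rw [Matrix.of_apply, Matrix.map_apply, Matrix.of_apply, hHa, Finset.sum_eq_single (i k), Finset.sum_eq_single (j l)]
          · simp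
          · intro b _ hb
            rw [Pi.single_eq_of_ne hb]
            ring
          · simp
          · intro a _ ha
            refine Finset.sum_eq_zero fun b _ => ?_
            rw [Pi.single_eq_of_ne ha]
            ring
          · simp
        rw [h2, ← RingHom.mapMatrix_apply, ← RingHom.map_det]
        exact fun h => hm ((map_eq_zero _).1 h)
      have hcz := cube_zero H hHs (le_trans (by norm_num) hrk) (dot l) (dot fun a => z a ^ 3) (fun x => by
        have h3 := hid x
        rw [hs0] at h3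
        have h4 : dot l x = ∑ a, l a * x a := rfl
        have h5 : dot (fun a => z a ^ 3) x = ∑ a, z a ^ 3 * x a := rfl
        rw [hHa, h4, h5]
        have h6 : (3 : L) ≠ 0 := by norm_num
        refine (mul_eq_zero.1 (?_ : (3 : L) * _ = 0)).resolve_left h6
        linear_combination -h3)
      obtain ⟨hl0, hz0⟩ := hcz
      apply hv
      have hl1 : ∀ a, l a = 0 := by
        intro a
        have h7 := LinearMap.congr_fun hl0 (Pi.single a 1)
        have h8 : dot l (Pi.single a 1) = l a := by
          change l ⬝ᵥ Pi.single a 1 = l a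
          rw [dotProduct_single_one]
        rw [h8] at h7
        exact h7
      have hz1 : ∀ a, z a = 0 := by
        intro a
        have h7 := LinearMap.congr_fun hz0 (Pi.single a 1)
        have h8 : dot (fun a => z a ^ 3) (Pi.single a 1) = z a ^ 3 := by
          change (fun a => z a ^ 3) ⬝ᵥ Pi.single a 1 = z a ^ 3
          rw [dotProduct_single_one]
        rw [h8] at h7
        exact pow_eq_zero_iff (n := 3) (by norm_num) |>.1 h7
      funext y
      rcases y with y | y | y
      · have : y = 0 := Subsingleton.elim _ _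
        rw [this, ← hs, hs0]
        rfl
      · have := hl1 y
        rw [hl] at this
        exact this
      · have := hz1 y
        rw [hz] at this
        exact this
    · -- contradiction to `hC`
      have hFc : algebraMap K L (eval P (pderiv c F)) ≠ 0 := fun h => hc ((map_eq_zero _).1 h)
      obtain ⟨Fc, hFcd⟩ : ∃ Fc : L, Fc = algebraMap K L (eval P (pderiv c F)) := ⟨_, rfl⟩
      rw [← hFcd] at hFc
      obtain ⟨v', hv1, hv2⟩ := hC (fun a => l a / (Fc * s)) (fun a => z a ^ 3 / (Fc * s ^ 3))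
      apply hv2
      have hT : v' = ∑ a, (v' a / Fc) • (fun i => algebraMap K L (tv F c a P i)) := by
        funext i
        rw [Finset.sum_apply]
        have h9 : ∀ a, ((v' a / Fc) • (fun i => algebraMap K L (tv F c a P i))) i =
            (if i = a then v' a else 0) - (if i = c then algebraMap K L (eval P (pderiv a F)) * v' a / Fc else 0) := by
          intro a
          rw [Pi.smul_apply, ← eval_tvp, tvp, map_sub, map_sub, smul_eq_mul]
          have e1 : algebraMap K L (eval P (if i = a then pderiv c F else 0)) = if i = a then Fc else 0 := by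
            by_cases h : i = a
            · rw [if_pos h, if_pos h, hFcd]
            · rw [if_neg h, if_neg h]; simp
          have e2 : algebraMap K L (eval P (if i = c then pderiv a F else 0)) =
              if i = c then algebraMap K L (eval P (pderiv a F)) else 0 := by
            by_cases h : i = c
            · rw [if_pos h, if_pos h]
            · rw [if_neg h, if_neg h]; simp
          rw [e1, e2]
          rw [mul_sub]
          congr 1
          · by_cases h : i = a
            · rw [if_pos h, if_pos h, div_mul_cancel₀ _ hFc]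
            · rw [if_neg h, if_neg h, mul_zero]
          · by_cases h' : i = c
            · rw [if_pos h', if_pos h']
              ring
            · rw [if_neg h', if_neg h', mul_zero]
        rw [Finset.sum_congr rfl fun a _ => h9 a, Finset.sum_sub_distrib, Finset.sum_ite_eq, if_pos (Finset.mem_univ _)]
        by_cases h' : i = c
        · simp only [h', if_true]
          rw [← Finset.sum_div]
          have h10 : ∑ a, algebraMap K L (eval P (pderiv a F)) * v' a = 0 := hv1
          rw [h10, zero_div, sub_zero]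
        · simp only [h', if_false, Finset.sum_const_zero, sub_zero]
      have hid' := hid (fun a => v' a / Fc)
      have g1 : ∑ a, ∑ b, (v' a / Fc) * (v' b / Fc) * algebraMap K L (eval P (bf F c a b)) = d2 F P v' v' := by
        conv_rhs => rw [hT, d2_sum]
        refine Finset.sum_congr rfl fun a _ => Finset.sum_congr rfl fun b _ => ?_
        rw [d2_K, eval_bf]
      have g2 : ∑ a, ∑ b, ∑ e, (v' a / Fc) * (v' b / Fc) * (v' e / Fc) * algebraMap K L (eval P (cq F c a b e)) =
          d3 F P v' v' v' := by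
        conv_rhs => rw [hT, d3_sum]
        refine Finset.sum_congr rfl fun a _ => Finset.sum_congr rfl fun b _ => Finset.sum_congr rfl fun e _ => ?_
        rw [d3_K, eval_cq]
      rw [g1, g2] at hid'
      have g3 : ∑ a, l a / (Fc * s) * v' a = (∑ a, l a * (v' a / Fc)) / s := by
        rw [Finset.sum_div]
        refine Finset.sum_congr rfl fun a _ => ?_
        field_simp
      have g4 : ∑ a, z a ^ 3 / (Fc * s ^ 3) * v' a = (∑ a, z a ^ 3 * (v' a / Fc)) / s ^ 3 := by
        rw [Finset.sum_div]
        refine Finset.sum_congr rfl fun a _ => ?_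
        field_simp
      rw [g3, g4]
      have h6 : (3 : L) ≠ 0 := by norm_num
      obtain ⟨u1, hu1⟩ : ∃ u1, u1 = ∑ a, l a * (v' a / Fc) := ⟨_, rfl⟩
      obtain ⟨u2, hu2⟩ : ∃ u2, u2 = ∑ a, z a ^ 3 * (v' a / Fc) := ⟨_, rfl⟩
      rw [← hu1, ← hu2] at hid' ⊢
      rw [div_pow, mul_div_assoc', ← add_div, eq_div_iff (pow_ne_zero 3 hs0)]
      refine mul_left_cancel₀ h6 ?_
      linear_combination hid'
  obtain ⟨r, hr, hrQ⟩ := exists_open_type (L := L) (th F c) (fun _ => 3) (th_hom F c) P hPv
  refine ⟨r, hr, fun Q hQ l m => ?_⟩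
  by_contra hcon
  push Not at hcon
  have hz : ∀ a : Fin n, ∃ z : L, z ^ 3 = algebraMap K L (m ⬝ᵥ tv F c a Q) := fun a =>
    IsAlgClosed.exists_pow_nat_eq _ (by norm_num)
  choose z hz using hz
  obtain ⟨⟨a, b, e⟩, habe⟩ := hrQ Q hQ
    (Sum.elim (fun _ => 1) (Sum.elim (fun a => algebraMap K L (l ⬝ᵥ tv F c a Q)) z)) (by
      intro h
      have := congrFun h (Sum.inl 0)
      simp at this)
  apply habe
  rw [aeval_th]
  simp only [Sum.elim_inl, Sum.elim_inr, hz, eval_cq, eval_bf]
  have h5 := hcon (tv F c a Q) (tv F c b Q) (tv F c e Q) (dot_tv F c a Q) (dot_tv F c b Q) (dot_tv F c e Q)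
  have h6 := congrArg (algebraMap K L) h5
  simp only [map_add, map_mul, map_ofNat] at h6
  linear_combination h6

end Pool.Agent.H8.SB
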