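import Pool.Agent.H8.SB.Open

/-!
# SB OpenS: `exists_open` for a finite index type `σ` of variables instead of `Fin m`

Transport along an equivalence `σ ≃ Fin m` (`rename`), or repeat the proof of `SB/Open.lean`.
-/

set_option autoImplicit false

open MvPolynomial

namespace Pool.Agent.H8.SB

theorem exists_open_type {K L : Type} [Field K] [Field L] [Algebra K L] [IsAlgClosed L] {n : ℕ} {σ : Type} [Finite σ] {ι : Type} [Finite ι]
    (f : ι → MvPolynomial σ (MvPolynomial (Fin n) K)) (d : ι → ℕ) (hd : ∀ i, (f i).IsHomogeneous (d i)) (P : Fin n → K)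
    (hP : ∀ v : σ → L, v ≠ 0 → ∃ i, aeval v (map (eval P) (f i)) ≠ 0) :
    ∃ r : MvPolynomial (Fin n) K, eval P r ≠ 0 ∧ ∀ Q : Fin n → K, eval Q r ≠ 0 →
      ∀ v : σ → L, v ≠ 0 → ∃ i, aeval v (map (eval Q) (f i)) ≠ 0 := by
  obtain ⟨m, ⟨e⟩⟩ := Finite.exists_equiv_fin σ
  have hval : ∀ (Q : Fin n → K) (v : Fin m → L) (i : ι),
      aeval v (map (eval Q) (rename e (f i))) = aeval (v ∘ e) (map (eval Q) (f i)) := by
    intro Q v i
    rw [map_rename, aeval_rename]
  obtain ⟨r, hr, h⟩ := exists_open (K := K) (L := L) (fun i => rename e (f i)) d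
    (fun i => (hd i).rename_isHomogeneous) P (by
      intro v hv
      obtain ⟨i, hi⟩ := hP (v ∘ e) (by
        intro h0
        apply hv
        funext j
        have h1 := congrFun h0 (e.symm j)
        rw [Function.comp_apply, Equiv.apply_symm_apply] at h1
        exact h1)
      exact ⟨i, by rw [hval]; exact hi⟩)
  refine ⟨r, hr, fun Q hQ v hv => ?_⟩
  obtain ⟨i, hi⟩ := h Q hQ (v ∘ e.symm) (by
    intro h0
    apply hv
    funext j
    have h1 := congrFun h0 (e j)
    rw [Function.comp_apply, Equiv.symm_apply_apply] at h1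
    exact h1)
  refine ⟨i, ?_⟩
  rw [hval] at hi
  have h2 : (v ∘ e.symm) ∘ e = v := by
    funext j
    rw [Function.comp_apply, Function.comp_apply, Equiv.symm_apply_apply]
  rw [h2] at hi
  exact hi

end Pool.Agent.H8.SB
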