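import Pool.Agent.H8.SB.Cub

/-!
# SB Tan: the condition `SmC` for vectors over `K`

`u` over `K`, `u ≠ 0`, `grd F Q ⬝ᵥ u = hes F Q u u = cub F Q u u u = 0`.  The three linear forms `w ↦ grd F Q ⬝ᵥ w`, `w ↦ hes F Q u w`,
`w ↦ cub F Q u u w` on `Fin n → K` are linearly independent: if `a, b, c` in `K` is a relation on `K ^ n`, it is a relation on `L ^ n` for the
forms `d1 F Q`, `d2 F Q v`, `d3 F Q v v`, `v = algebraMap ∘ u` (test on the unit vectors, `d3 F Q v v (e_k)` is the image of
`cub F Q u u e_k`, etc.; linearity in the last argument), so `a = b = c = 0` by `SmC`.  So `hes F Q u` does not vanish on the kernel of the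
first form (otherwise it is a multiple of it), and `cub F Q u u` does not vanish on the intersection of the kernels of the first two (Mathlib:
`mem_span_of_iInf_ker_le_ker`, or by hand).
-/

set_option autoImplicit false

open MvPolynomial Matrix

namespace Pool.Agent.H8.SB

open Pool.Agent.H8.SD

private theorem tan_comm {M : Type} [AddCommMonoid M] {n : ℕ} (f : Fin n → Fin n → Fin n → M) :
    ∑ i, ∑ j, ∑ k, f i j k = ∑ k, ∑ i, ∑ j, f i j k :=
  (Finset.sum_congr rfl fun _ _ => Finset.sum_comm).trans Finset.sum_comm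

private noncomputable def tanLf {K : Type} [Field K] {n : ℕ} (g : Fin n → K) : (Fin n → K) →ₗ[K] K where
  toFun w := g ⬝ᵥ w
  map_add' a b := dotProduct_add g a b
  map_smul' r a := dotProduct_smul r g a

private theorem tan_lin {K : Type} [Field K] {n : ℕ} (g h c : Fin n → K)
    (hind : ∀ x y z : K, (∀ i, x * g i + y * h i + z * c i = 0) → x = 0 ∧ y = 0 ∧ z = 0) :
    (∃ z, g ⬝ᵥ z = 0 ∧ h ⬝ᵥ z ≠ 0) ∧ ∃ w, g ⬝ᵥ w = 0 ∧ h ⬝ᵥ w = 0 ∧ c ⬝ᵥ w ≠ 0 := by
  constructor
  · by_contra hc
    push Not at hc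
    have h1 : tanLf h ∈ Submodule.span K (Set.range ![tanLf g]) := by
      refine mem_span_of_iInf_ker_le_ker fun w hw => ?_
      have h2 := (Submodule.mem_iInf _).1 hw 0
      exact hc w h2
    obtain ⟨a, ha⟩ := (Submodule.mem_span_range_iff_exists_fun K).1 h1
    have h3 := hind (a 0) (-1) 0 fun i => by
      have h4 := LinearMap.congr_fun ha (Pi.single i 1)
      simp [tanLf] at h4
      rw [h4]
      ring
    exact one_ne_zero (neg_eq_zero.1 h3.2.1)
  · by_contra hc
    push Not at hc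
    have h1 : tanLf c ∈ Submodule.span K (Set.range ![tanLf g, tanLf h]) := by
      refine mem_span_of_iInf_ker_le_ker fun w hw => ?_
      have h2 := (Submodule.mem_iInf _).1 hw 0
      have h3 := (Submodule.mem_iInf _).1 hw 1
      exact hc w h2 h3
    obtain ⟨a, ha⟩ := (Submodule.mem_span_range_iff_exists_fun K).1 h1
    have h3 := hind (a 0) (a 1) (-1) fun i => by
      have h4 := LinearMap.congr_fun ha (Pi.single i 1)
      simp [tanLf, Fin.sum_univ_two] at h4
      rw [h4]
      ring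
    exact one_ne_zero (neg_eq_zero.1 h3.2.2)

theorem exists_of_SmC {K L : Type} [Field K] [CharZero K] [Field L] [Algebra K L] {n : ℕ} {F : MvPolynomial (Fin n) K} {Q : Fin n → K}
    (hS : SmC L F Q) {u : Fin n → K} (hu : u ≠ 0) (h1 : grd F Q ⬝ᵥ u = 0) (h2 : hes F Q u u = 0) (h3 : cub F Q u u u = 0) :
    (∃ z, grd F Q ⬝ᵥ z = 0 ∧ hes F Q u z ≠ 0) ∧ ∃ w, grd F Q ⬝ᵥ w = 0 ∧ hes F Q u w = 0 ∧ cub F Q u u w ≠ 0 := by
  obtain ⟨h, hh⟩ : ∃ h : Fin n → K, h = fun j => ∑ i, u i * eval Q (pderiv i (pderiv j F)) := ⟨_, rfl⟩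
  obtain ⟨c, hc⟩ : ∃ c : Fin n → K,
      c = fun k => ∑ i, ∑ j, u i * u j * eval Q (pderiv i (pderiv j (pderiv k F))) := ⟨_, rfl⟩
  have e2 : ∀ w, hes F Q u w = h ⬝ᵥ w := by
    intro w
    rw [hes, Finset.sum_comm, dotProduct]
    refine Finset.sum_congr rfl fun j _ => ?_
    rw [hh, Finset.sum_mul]
    exact Finset.sum_congr rfl fun i _ => by ring
  have e3 : ∀ w, cub F Q u u w = c ⬝ᵥ w := by
    intro w
    have h4 : cub F Q u u w = ∑ k, ∑ i, ∑ j, u i * u j * w k * eval Q (pderiv i (pderiv j (pderiv k F))) :=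
      tan_comm _
    rw [h4, dotProduct]
    refine Finset.sum_congr rfl fun k _ => ?_
    rw [hc, Finset.sum_mul]
    refine Finset.sum_congr rfl fun i _ => ?_
    rw [Finset.sum_mul]
    exact Finset.sum_congr rfl fun j _ => by ring
  simp only [e2, e3] at h2 h3 ⊢
  refine tan_lin _ _ _ fun x y z hxyz => ?_
  obtain ⟨v, hv⟩ : ∃ v : Fin n → L, v = fun i => algebraMap K L (u i) := ⟨_, rfl⟩
  have f1 : ∀ w : Fin n → L, d1 F Q w = ∑ i, algebraMap K L (grd F Q i) * w i := fun w => rfl
  have f2 : ∀ w : Fin n → L, d2 F Q v w = ∑ i, algebraMap K L (h i) * w i := by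
    intro w
    rw [d2, Finset.sum_comm]
    refine Finset.sum_congr rfl fun j _ => ?_
    rw [hh, map_sum, Finset.sum_mul]
    refine Finset.sum_congr rfl fun i _ => ?_
    rw [hv, map_mul]
    ring
  have f3 : ∀ w : Fin n → L, d3 F Q v v w = ∑ i, algebraMap K L (c i) * w i := by
    intro w
    have h4 : d3 F Q v v w = ∑ k, ∑ i, ∑ j,
        algebraMap K L (eval Q (pderiv i (pderiv j (pderiv k F)))) * (v i * v j * w k) := tan_comm _
    rw [h4]
    refine Finset.sum_congr rfl fun k _ => ?_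
    rw [hc, map_sum, Finset.sum_mul]
    refine Finset.sum_congr rfl fun i _ => ?_
    rw [map_sum, Finset.sum_mul]
    refine Finset.sum_congr rfl fun j _ => ?_
    rw [hv, map_mul, map_mul]
    ring
  have g1 : ∀ (l w : Fin n → K), ∑ i, algebraMap K L (l i) * algebraMap K L (w i) =
      algebraMap K L (l ⬝ᵥ w) := by
    intro l w
    rw [dotProduct, map_sum]
    exact Finset.sum_congr rfl fun i _ => by rw [map_mul]
  have hv0 : v ≠ 0 := by
    intro h4
    apply hu
    funext i
    have h5 := congrFun h4 i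
    rw [hv] at h5
    simpa using h5
  have k1 : d1 F Q v = 0 := by
    rw [f1, hv, g1, h1, map_zero]
  have k2 : d2 F Q v v = 0 := by
    rw [f2, hv, g1, h2, map_zero]
  have k3 : d3 F Q v v v = 0 := by
    rw [f3, hv, g1, h3, map_zero]
  have k4 := hS v hv0 k1 k2 k3 (algebraMap K L x) (algebraMap K L y) (algebraMap K L z) fun w => by
    rw [f1, f2, f3, Finset.mul_sum, Finset.mul_sum, Finset.mul_sum, ← Finset.sum_add_distrib,
      ← Finset.sum_add_distrib]
    refine Finset.sum_eq_zero fun i _ => ?_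
    have h5 := congrArg (algebraMap K L) (hxyz i)
    rw [map_add, map_add, map_mul, map_mul, map_mul, map_zero] at h5
    linear_combination w i * h5
  have inj := (algebraMap K L).injective
  exact ⟨inj (by rw [k4.1, map_zero]), inj (by rw [k4.2.1, map_zero]), inj (by rw [k4.2.2, map_zero])⟩

end Pool.Agent.H8.SB
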